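import Mathlib
import Pool.Agent.Helper234.LInf.Defs
import Pool.Agent.Helper67.LInf.Basic
import Pool.Agent.Helper67.LInf.Dyadic
import Pool.Agent.Helper67.LInf.Dyadic2

open MeasureTheory Filter Topology

namespace Pool.Agent.Helper67.LInf

open Pool.Agent.Helper234.LInf

section

variable (𝕜 : Type*) [RCLike 𝕜] (X : Type*) [NormedAddCommGroup X] [NormedSpace 𝕜 X]
  [NormedSpace ℝ X] [IsScalarTower ℝ 𝕜 X]

theorem Lp_top_integrable {X : Type*} [NormedAddCommGroup X] (f : Lp X ⊤ I01) :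
    Integrable f I01 := (Lp.memLp f).integrable le_top

theorem Lp_one_integrable {X : Type*} [NormedAddCommGroup X] (f : Lp X 1 I01) :
    Integrable f I01 := (Lp.memLp f).integrable le_rfl

theorem Lp_top_ae_le {X : Type*} [NormedAddCommGroup X] (f : Lp X ⊤ I01) :
    ∀ᵐ t ∂I01, ‖f t‖ ≤ ‖f‖ := by
  have h := ae_le_eLpNormEssSup (f := (f : ℝ → X)) (μ := I01)
  filter_upwards [h] with t ht
  have h2 : ‖f‖ = (eLpNormEssSup (f : ℝ → X) I01).toReal := by
    rw [Lp.norm_def, eLpNorm_exponent_top]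
  rw [h2]
  have h3 : eLpNormEssSup (f : ℝ → X) I01 ≠ ⊤ := by
    have := Lp.eLpNorm_ne_top f
    rwa [eLpNorm_exponent_top] at this
  rw [← toReal_enorm]
  exact ENNReal.toReal_mono h3 ht

/-- `2^m` times the integral over a dyadic interval, on `L^∞(X)`. -/
noncomputable def avgL (m k : ℕ) : Lp X ⊤ I01 →L[𝕜] X :=
  LinearMap.mkContinuous
    { toFun := fun f => (2 ^ m : ℝ) • ∫ t in Dy m k, f t ∂I01
      map_add' := fun f g => by
        rw [← smul_add, ← integral_add (Lp_top_integrable f).integrableOn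
          (Lp_top_integrable g).integrableOn]
        congr 1
        exact integral_congr_ae (ae_restrict_of_ae (Lp.coeFn_add f g))
      map_smul' := fun c f => by
        have h1 : ∫ t in Dy m k, (c • f : Lp X ⊤ I01) t ∂I01 = c • ∫ t in Dy m k, f t ∂I01 := by
          rw [← integral_smul]
          exact integral_congr_ae (ae_restrict_of_ae (Lp.coeFn_smul c f))
        rw [h1, RingHom.id_apply, smul_comm] } 1 (fun f => by
      rw [one_mul]
      show ‖(2 ^ m : ℝ) • ∫ t in Dy m k, f t ∂I01‖ ≤ ‖f‖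
      rw [norm_smul]
      have h1 : ‖∫ t in Dy m k, f t ∂I01‖ ≤ ‖f‖ * (2 ^ m)⁻¹ := by
        refine (norm_setIntegral_le_of_norm_le_const_ae' (C := ‖f‖) (measure_lt_top _ _) ?_).trans ?_
        · filter_upwards [Lp_top_ae_le f] with t ht _ using ht
        · gcongr
          rw [Measure.real]
          exact ENNReal.toReal_le_of_le_ofReal (by positivity) (I01_Dy_le m k)
      have h2 : ‖(2 ^ m : ℝ)‖ = 2 ^ m := by simp
      rw [h2]
      calc (2 : ℝ) ^ m * ‖∫ t in Dy m k, f t ∂I01‖ ≤ 2 ^ m * (‖f‖ * (2 ^ m)⁻¹) := by gcongr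
        _ = ‖f‖ := by field_simp)

/-- The integral of a scalar integrable function over a dyadic interval. -/
noncomputable def coefL (m k : ℕ) : Lp 𝕜 1 I01 →L[𝕜] 𝕜 :=
  LinearMap.mkContinuous
    { toFun := fun h => ∫ t in Dy m k, h t ∂I01
      map_add' := fun f g => by
        rw [← integral_add (Lp_one_integrable f).integrableOn
          (Lp_one_integrable g).integrableOn]
        exact integral_congr_ae (ae_restrict_of_ae (Lp.coeFn_add f g))
      map_smul' := fun c f => by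
        rw [RingHom.id_apply, ← integral_smul]
        exact integral_congr_ae (ae_restrict_of_ae (Lp.coeFn_smul c f)) } 1 (fun h => by
      rw [one_mul, L1.norm_eq_integral_norm]
      refine (norm_integral_le_integral_norm _).trans ?_
      exact setIntegral_le_integral (Lp_one_integrable h).norm (ae_of_all _ fun t => norm_nonneg _))

theorem sum_norm_coefL (m : ℕ) (h : Lp 𝕜 1 I01) :
    ∑ k ∈ Finset.range (2 ^ m), ‖coefL 𝕜 m k h‖ ≤ ‖h‖ := by
  have h1 := step_sum (𝕜 := ℝ) (X := ℝ) (fun t => ‖h t‖) (Lp_one_integrable h).norm m (fun _ => 1)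
  simp only [smul_eq_mul, mul_one] at h1
  rw [L1.norm_eq_integral_norm, ← h1]
  exact Finset.sum_le_sum (fun k _ => norm_integral_le_integral_norm _)

variable {X} in
/-- The level `m` step operator with coefficients `x (2^m + k)`. -/
noncomputable def stepL (m : ℕ) (x : lp (fun _ : ℕ => X) ⊤) : Lp 𝕜 1 I01 →L[𝕜] X :=
  ∑ k ∈ Finset.range (2 ^ m), (coefL 𝕜 m k).smulRight (x (2 ^ m + k))

omit [NormedSpace ℝ X] [IsScalarTower ℝ 𝕜 X] in
variable {X} in
theorem stepL_apply (m : ℕ) (x : lp (fun _ : ℕ => X) ⊤) (h : Lp 𝕜 1 I01) :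
    stepL 𝕜 m x h = ∑ k ∈ Finset.range (2 ^ m), (coefL 𝕜 m k h) • x (2 ^ m + k) := by
  simp [stepL]

omit [NormedSpace ℝ X] [IsScalarTower ℝ 𝕜 X] in
variable {X} in
theorem norm_stepL_apply_le (m : ℕ) (x : lp (fun _ : ℕ => X) ⊤) (h : Lp 𝕜 1 I01) :
    ‖stepL 𝕜 m x h‖ ≤ ‖x‖ * ‖h‖ := by
  rw [stepL_apply]
  refine (norm_sum_le _ _).trans ?_
  calc ∑ k ∈ Finset.range (2 ^ m), ‖(coefL 𝕜 m k h) • x (2 ^ m + k)‖
      ≤ ∑ k ∈ Finset.range (2 ^ m), ‖coefL 𝕜 m k h‖ * ‖x‖ := by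
        refine Finset.sum_le_sum (fun k _ => ?_)
        rw [norm_smul]
        gcongr
        exact norm_coord_le _ _
    _ = (∑ k ∈ Finset.range (2 ^ m), ‖coefL 𝕜 m k h‖) * ‖x‖ := by rw [Finset.sum_mul]
    _ ≤ ‖h‖ * ‖x‖ := by gcongr; exact sum_norm_coefL 𝕜 m h
    _ = ‖x‖ * ‖h‖ := mul_comm _ _

omit [NormedSpace ℝ X] [IsScalarTower ℝ 𝕜 X] in
variable {X} in
/-- The operator `ℓ^∞(X) → L(L¹, X)` obtained from a limit operator. -/
noncomputable def W (Φ : lp (fun _ : ℕ => X) ⊤ →L[𝕜] X) :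
    lp (fun _ : ℕ => X) ⊤ →L[𝕜] (Lp 𝕜 1 I01 →L[𝕜] X) :=
  LinearMap.mkContinuous₂
    (LinearMap.mk₂ 𝕜 (fun x h => Φ (toLinf (fun m => stepL 𝕜 m x) ‖x‖
        (fun m h => norm_stepL_apply_le 𝕜 m x h) h))
      (fun x y h => by
        rw [← map_add]; congr 1; ext m
        simp only [toLinf_apply, stepL_apply, lp.coeFn_add, Pi.add_apply, smul_add,
          Finset.sum_add_distrib])
      (fun c x h => by
        rw [← map_smul]; congr 1; ext m
        simp only [toLinf_apply, stepL_apply, lp.coeFn_smul, Pi.smul_apply, Finset.smul_sum]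
        refine Finset.sum_congr rfl (fun k _ => ?_)
        rw [smul_comm])
      (fun x g h => by rw [map_add, map_add])
      (fun c x h => by rw [map_smul, map_smul])) ‖Φ‖ (fun x h => by
      simp only [LinearMap.mk₂_apply]
      refine (Φ.le_opNorm _).trans ?_
      rw [mul_assoc]
      gcongr
      refine lp.norm_le_of_forall_le (by positivity) (fun m => ?_)
      exact norm_stepL_apply_le 𝕜 m x h)

omit [NormedSpace ℝ X] [IsScalarTower ℝ 𝕜 X] in
variable {X} in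
theorem W_apply (Φ : lp (fun _ : ℕ => X) ⊤ →L[𝕜] X) (x : lp (fun _ : ℕ => X) ⊤)
    (h : Lp 𝕜 1 I01) : W 𝕜 Φ x h = Φ (toLinf (fun m => stepL 𝕜 m x) ‖x‖
        (fun m h => norm_stepL_apply_le 𝕜 m x h) h) := rfl

/-- The operator `L^∞(X) → ℓ^∞(X)` of dyadic averages. -/
noncomputable def avgs : Lp X ⊤ I01 →L[𝕜] lp (fun _ : ℕ => X) ⊤ :=
  toLinf (fun n => avgL 𝕜 X (Nat.log 2 n) (n - 2 ^ Nat.log 2 n)) 1 (fun n f => by
    refine (ContinuousLinearMap.le_of_opNorm_le _ ?_ f)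
    exact LinearMap.mkContinuous_norm_le _ zero_le_one _)

theorem avgs_apply (f : Lp X ⊤ I01) (m k : ℕ) (hk : k < 2 ^ m) :
    avgs 𝕜 X f (2 ^ m + k) = (2 ^ m : ℝ) • ∫ t in Dy m k, f t ∂I01 := by
  have h1 : Nat.log 2 (2 ^ m + k) = m := by
    apply Nat.log_eq_of_pow_le_of_lt_pow
    · omega
    · rw [pow_succ]; omega
  have h2 : 2 ^ m + k - 2 ^ m = k := by omega
  show avgL 𝕜 X (Nat.log 2 (2 ^ m + k)) (2 ^ m + k - 2 ^ Nat.log 2 (2 ^ m + k)) f = _
  rw [h1, h2]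
  rfl

theorem stepL_avgs [CompleteSpace X] (f : Lp X ⊤ I01) (h : Lp 𝕜 1 I01) :
    Tendsto (fun m => stepL 𝕜 m (avgs 𝕜 X f) h) atTop (𝓝 (∫ t, h t • f t ∂I01)) := by
  have h1 : ∀ m, stepL 𝕜 m (avgs 𝕜 X f) h =
      ∫ t, h t • ((2 ^ m : ℝ) • ∫ s in Dy m ⌊2 ^ m * t⌋₊, f s ∂I01) ∂I01 := by
    intro m
    rw [stepL_apply, ← step_sum (h := fun t => h t) (hh := Lp_one_integrable h) (m := m)
      (c := fun k => (2 ^ m : ℝ) • ∫ s in Dy m k, f s ∂I01)]
    refine Finset.sum_congr rfl (fun k hk => ?_)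
    rw [avgs_apply 𝕜 X f m k (Finset.mem_range.1 hk)]
    rfl
  simp only [h1]
  have hmeas : ∀ m : ℕ, AEStronglyMeasurable
      (fun t => (2 ^ m : ℝ) • ∫ s in Dy m ⌊2 ^ m * t⌋₊, f s ∂I01) I01 := by
    intro m
    have h2 : StronglyMeasurable (fun k : ℕ => (2 ^ m : ℝ) • ∫ s in Dy m k, f s ∂I01) :=
      StronglyMeasurable.of_discrete
    exact (h2.comp_measurable (g := fun t : ℝ => ⌊2 ^ m * t⌋₊)
      (Nat.measurable_floor.comp (measurable_const.mul measurable_id))).aestronglyMeasurable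
  refine tendsto_integral_of_dominated_convergence (fun t => ‖h t‖ * ‖f‖) ?_ ?_ ?_ ?_
  · intro m
    exact (Lp.aestronglyMeasurable h).smul (hmeas m)
  · exact (Lp_one_integrable h).norm.mul_const _
  · intro m
    refine ae_of_all _ (fun t => ?_)
    rw [norm_smul]
    gcongr
    exact ((avgL 𝕜 X m ⌊2 ^ m * t⌋₊).le_of_opNorm_le
      (LinearMap.mkContinuous_norm_le _ zero_le_one _) f).trans (by rw [one_mul])
  · filter_upwards [dyadic_ae (f : ℝ → X) (Lp_top_integrable f)] with t ht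
    exact ht.const_smul (h t)

theorem represents_W_avgs [CompleteSpace X] (Φ : lp (fun _ : ℕ => X) ⊤ →L[𝕜] X)
    (hΦ : ∀ (x : lp (fun _ : ℕ => X) ⊤) (v : X), Tendsto (fun n => x n) atTop (𝓝 v) → Φ x = v)
    (f : Lp X ⊤ I01) (h : Lp 𝕜 1 I01) :
    W 𝕜 Φ (avgs 𝕜 X f) h = ∫ t, h t • f t ∂I01 := by
  rw [W_apply]
  exact hΦ _ _ (stepL_avgs 𝕜 X f h)

end

theorem compl2 (𝕜 : Type) [RCLike 𝕜] (X : Type*) [NormedAddCommGroup X] [NormedSpace 𝕜 X]
    [CompleteSpace X] (h1 : LimitOperator 𝕜 X) (h2 : RepComplemented 𝕜 X) :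
    ∃ (j : Lp X ⊤ I01 →L[𝕜] lp (fun _ : ℕ => X) ⊤) (q : lp (fun _ : ℕ => X) ⊤ →L[𝕜] Lp X ⊤ I01),
      ∀ f, q (j f) = f := by
  let _ : NormedSpace ℝ X := NormedSpace.restrictScalars ℝ 𝕜 X
  have _ : IsScalarTower ℝ 𝕜 X := RestrictScalars.isScalarTower _ _ _
  obtain ⟨Φ, hΦ⟩ := h1
  obtain ⟨Q, hQ⟩ := h2
  refine ⟨avgs 𝕜 X, Q.comp (W 𝕜 Φ), fun f => ?_⟩
  refine hQ f _ (fun h ξ => ?_)
  change ξ ((W 𝕜 Φ (avgs 𝕜 X f)) h) = _
  rw [represents_W_avgs 𝕜 X Φ hΦ f h]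
  have hint : Integrable (fun t => h t • f t) I01 := by
    refine Integrable.mono' ((Lp_one_integrable h).norm.mul_const ‖f‖)
      ((Lp.aestronglyMeasurable h).smul (Lp.aestronglyMeasurable f)) ?_
    filter_upwards [Lp_top_ae_le f] with t ht
    rw [norm_smul]
    gcongr
  rw [← ContinuousLinearMap.integral_comp_comm ξ hint]
  simp

end Pool.Agent.Helper67.LInf
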