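import Mathlib

open MeasureTheory Filter Topology

namespace Pool.Agent.Helper67.LInf

/-- Decomposition method: two spaces isomorphic to their squares, each complemented in the other,
are isomorphic. -/
theorem decomp {𝕜 : Type*} [RCLike 𝕜] {E F : Type*} [NormedAddCommGroup E] [NormedSpace 𝕜 E]
    [NormedAddCommGroup F] [NormedSpace 𝕜 F]
    (hE : Nonempty (E ≃L[𝕜] E × E)) (hF : Nonempty (F ≃L[𝕜] F × F))
    (i : E →L[𝕜] F) (p : F →L[𝕜] E) (hip : ∀ x, p (i x) = x)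
    (j : F →L[𝕜] E) (q : E →L[𝕜] F) (hjq : ∀ y, q (j y) = y) : Nonempty (E ≃L[𝕜] F) := by
  obtain ⟨eE⟩ := hE
  obtain ⟨eF⟩ := hF
  -- `F ≃ E × ker p`, `E ≃ F × ker q`
  have e1 : F ≃L[𝕜] E × p.ker := ContinuousLinearEquiv.equivOfRightInverse p i hip
  have e2 : E ≃L[𝕜] F × q.ker := ContinuousLinearEquiv.equivOfRightInverse q j hjq
  -- `F ≃ F × E`
  have h1 : F ≃L[𝕜] F × E := by
    refine e1.trans ?_
    refine ((eE.prodCongr (ContinuousLinearEquiv.refl 𝕜 p.ker)).trans ?_)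
    refine (ContinuousLinearEquiv.prodAssoc 𝕜 E E p.ker).trans ?_
    refine ((ContinuousLinearEquiv.refl 𝕜 E).prodCongr e1.symm).trans ?_
    exact ContinuousLinearEquiv.prodComm 𝕜 E F
  -- `E ≃ F × E`
  have h2 : E ≃L[𝕜] F × E := by
    refine e2.trans ?_
    refine ((eF.prodCongr (ContinuousLinearEquiv.refl 𝕜 q.ker)).trans ?_)
    refine (ContinuousLinearEquiv.prodAssoc 𝕜 F F q.ker).trans ?_
    exact ((ContinuousLinearEquiv.refl 𝕜 F).prodCongr e2.symm)
  exact ⟨h2.trans h1.symm⟩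

end Pool.Agent.Helper67.LInf
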