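import Mathlib
import Pool.Agent.Helper234.LInf.Defs

open MeasureTheory Filter Topology

namespace Pool.Agent.Helper67.LInf

open Pool.Agent.Helper234.LInf

universe u v

/-- The Banach space `c₀`. -/
abbrev c0 (𝕜 : Type) [RCLike 𝕜] : Type := ZeroAtInftyContinuousMap ℕ 𝕜

/-- The Banach space `ℓ^∞(c₀)`. -/
abbrev ZC (𝕜 : Type) [RCLike 𝕜] : Type := lp (fun _ : ℕ => c0 𝕜) ⊤

/-- `Y` contains a complemented copy of `ℓ^∞(c₀)`. -/
def ContainsComplZC (𝕜 : Type) [RCLike 𝕜] (Y : Type v) [NormedAddCommGroup Y] [NormedSpace 𝕜 Y] :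
    Prop :=
  ∃ (i : ZC 𝕜 →L[𝕜] Y) (p : Y →L[𝕜] ZC 𝕜), ∀ z, p (i z) = z

variable {𝕜 : Type} [RCLike 𝕜]

/-- A null sequence as an element of `c₀`. -/
noncomputable def mkc0 (a : ℕ → 𝕜) (h : Tendsto a atTop (𝓝 0)) : c0 𝕜 where
  toFun := a
  continuous_toFun := continuous_of_discreteTopology
  zero_at_infty' := by
    rw [Filter.cocompact_eq_cofinite, Nat.cofinite_eq_atTop]
    exact h

@[simp] theorem mkc0_apply (a : ℕ → 𝕜) (h : Tendsto a atTop (𝓝 0)) (n : ℕ) :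
    mkc0 a h n = a n := rfl

theorem c0_tendsto (f : c0 𝕜) : Tendsto (fun n => f n) atTop (𝓝 0) := by
  have := f.zero_at_infty'
  rw [Filter.cocompact_eq_cofinite, Nat.cofinite_eq_atTop] at this
  exact this

theorem c0_apply_le (f : c0 𝕜) (n : ℕ) : ‖f n‖ ≤ ‖f‖ := by
  rw [← ZeroAtInftyContinuousMap.norm_toBCF_eq_norm]
  exact f.toBCF.norm_coe_le_norm n

theorem c0_norm_le (f : c0 𝕜) (C : ℝ) (hC : 0 ≤ C) (h : ∀ n, ‖f n‖ ≤ C) : ‖f‖ ≤ C := by
  rw [← ZeroAtInftyContinuousMap.norm_toBCF_eq_norm]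
  exact (BoundedContinuousFunction.norm_le hC).2 h

variable (𝕜) in
/-- The unit vectors of `c₀`. -/
noncomputable def dl (n : ℕ) : c0 𝕜 := mkc0 (fun m => if m = n then 1 else 0) (by
  refine tendsto_const_nhds.congr' ?_
  filter_upwards [eventually_gt_atTop n] with m hm
  rw [if_neg (by omega)])

@[simp] theorem dl_apply (n m : ℕ) : dl 𝕜 n m = if m = n then 1 else 0 := rfl

theorem norm_dl_le (n : ℕ) : ‖dl 𝕜 n‖ ≤ 1 := by
  refine c0_norm_le _ 1 zero_le_one (fun m => ?_)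
  rw [dl_apply]; split_ifs <;> simp

/-- Coordinate functionals of `ℓ^∞(c₀)`. -/
noncomputable def zev (𝕜 : Type) [RCLike 𝕜] (j q : ℕ) : ZC 𝕜 →L[𝕜] 𝕜 :=
  LinearMap.mkContinuous
    { toFun := fun z => z j q
      map_add' := fun v w => by simp
      map_smul' := fun c v => by simp } 1 (fun z => by
        rw [one_mul]
        exact (c0_apply_le (z j) q).trans (lp.norm_apply_le_norm (by simp) z j))

@[simp] theorem zev_apply (j q : ℕ) (z : ZC 𝕜) : zev 𝕜 j q z = z j q := rfl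

theorem zc_norm_le (z : ZC 𝕜) (C : ℝ) (hC : 0 ≤ C) (h : ∀ j q, ‖z j q‖ ≤ C) : ‖z‖ ≤ C :=
  lp.norm_le_of_forall_le hC (fun j => c0_norm_le _ C hC (h j))

theorem zc_apply_le (z : ZC 𝕜) (j q : ℕ) : ‖z j q‖ ≤ ‖z‖ :=
  (c0_apply_le (z j) q).trans (lp.norm_apply_le_norm (by simp) z j)

theorem zc_ext {z w : ZC 𝕜} (h : ∀ j q, z j q = w j q) : z = w := by
  ext j q
  exact h j q

/-- The unit vectors of `ℓ^∞(c₀)`. -/
noncomputable def zu (𝕜 : Type) [RCLike 𝕜] (j q : ℕ) : ZC 𝕜 := lp.single ⊤ j (dl 𝕜 q)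

theorem zu_apply (j q i r : ℕ) : zu 𝕜 j q i r = if i = j ∧ r = q then 1 else 0 := by
  unfold zu
  by_cases h : i = j
  · subst h
    rw [lp.single_apply_self]
    simp
  · rw [lp.single_apply_ne _ _ _ h]
    simp [h]

section mk
variable {V : Type*} [NormedAddCommGroup V] [NormedSpace 𝕜 V]

/-- An operator into `ℓ^∞(c₀)` from its coordinate functionals. -/
noncomputable def toZC (g : ℕ → ℕ → V →L[𝕜] 𝕜) (C : ℝ) (h : ∀ j q v, ‖g j q v‖ ≤ C * ‖v‖)
    (h0 : ∀ j v, Tendsto (fun q => g j q v) atTop (𝓝 0)) : V →L[𝕜] ZC 𝕜 :=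
  LinearMap.mkContinuous
    { toFun := fun v => ⟨fun j => mkc0 (fun q => g j q v) (h0 j v), memℓp_infty ⟨max C 0 * ‖v‖, by
        rintro _ ⟨n, rfl⟩
        refine c0_norm_le _ _ (by positivity) (fun q => (h n q v).trans ?_)
        gcongr; exact le_max_left _ _⟩⟩
      map_add' := fun v w => by
        refine zc_ext (fun j q => ?_)
        exact (g j q).map_add v w
      map_smul' := fun c v => by
        refine zc_ext (fun j q => ?_)
        exact (g j q).map_smul c v } (max C 0) (fun v => by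
        refine zc_norm_le _ _ (by positivity) (fun j q => (h j q v).trans ?_)
        gcongr; exact le_max_left _ _)

@[simp] theorem toZC_apply (g : ℕ → ℕ → V →L[𝕜] 𝕜) (C : ℝ)
    (h : ∀ j q v, ‖g j q v‖ ≤ C * ‖v‖)
    (h0 : ∀ j v, Tendsto (fun q => g j q v) atTop (𝓝 0)) (v : V) (j q : ℕ) :
    toZC g C h h0 v j q = g j q v := rfl

end mk

end Pool.Agent.Helper67.LInf
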