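import Mathlib
import Pool.Agent.Helper234.LInf.Defs
import Pool.Agent.Helper234.LInf.Ops
import Pool.Agent.Helper67.LInf.NDefs

open MeasureTheory Filter Topology

namespace Pool.Agent.Helper67.LInf

open Pool.Agent.Helper234.LInf

universe u v

variable {𝕜 : Type} [RCLike 𝕜]

variable (𝕜) in
/-- The indicator function of a measurable set, in `L^∞`. -/
noncomputable def indL (s : Set ℝ) (hs : MeasurableSet s) : Lp 𝕜 ⊤ I01 :=
  indicatorConstLp ⊤ hs (measure_ne_top _ _) (1 : 𝕜)

theorem indL_ae (s : Set ℝ) (hs : MeasurableSet s) :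
    ∀ᵐ t ∂I01, indL 𝕜 s hs t = s.indicator (fun _ => (1 : 𝕜)) t :=
  indicatorConstLp_coeFn

theorem memLp_un (n : ℕ) (φ : Lp 𝕜 ⊤ I01) :
    MemLp (fun t => (φ t * ((rad n t : ℝ) : 𝕜)) • dl 𝕜 n) ⊤ I01 := by
  refine MemLp.of_bound ?_ ‖φ‖ ?_
  · have h1 : Measurable fun t => ((rad n t : ℝ) : 𝕜) :=
      RCLike.measurable_ofReal.comp (measurable_rad n)
    exact ((Lp.aestronglyMeasurable φ).mul h1.aestronglyMeasurable).smul aestronglyMeasurable_const
  · filter_upwards [lp_ae_le φ] with t ht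
    rw [norm_smul, norm_mul, RCLike.norm_ofReal]
    calc ‖φ t‖ * |rad n t| * ‖dl 𝕜 n‖ ≤ ‖φ‖ * 1 * 1 := by
          gcongr
          · exact abs_rad n t
          · exact norm_dl_le n
      _ = ‖φ‖ := by ring

/-- The operator `φ ↦ φ r_n ⊗ δ_n` from `L^∞` to `L^∞(c₀)`. -/
noncomputable def un (n : ℕ) : Lp 𝕜 ⊤ I01 →L[𝕜] Lp (c0 𝕜) ⊤ I01 :=
  LinearMap.mkContinuous
    { toFun := fun φ => (memLp_un n φ).toLp
      map_add' := by
        intro f g
        rw [← MemLp.toLp_add]
        apply MemLp.toLp_congr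
        filter_upwards [Lp.coeFn_add f g] with t ht
        simp only [Pi.add_apply]
        rw [ht, Pi.add_apply, add_mul]
        exact add_smul (R := 𝕜) (M := c0 𝕜) _ _ _
      map_smul' := by
        intro c f
        simp only [RingHom.id_apply]
        rw [← MemLp.toLp_const_smul]
        apply MemLp.toLp_congr
        filter_upwards [Lp.coeFn_smul c f] with t ht
        simp only [Pi.smul_apply]
        rw [ht, Pi.smul_apply, smul_eq_mul, mul_assoc, smul_smul] } 1 (by
    intro f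
    rw [one_mul]
    refine lp_norm_le (norm_nonneg _) ?_
    filter_upwards [MemLp.coeFn_toLp (memLp_un n f), lp_ae_le f] with t ht h2
    rw [LinearMap.coe_mk, AddHom.coe_mk, ht, norm_smul, norm_mul, RCLike.norm_ofReal]
    calc ‖f t‖ * |rad n t| * ‖dl 𝕜 n‖ ≤ ‖f‖ * 1 * 1 := by
          gcongr
          · exact abs_rad n t
          · exact norm_dl_le n
      _ = ‖f‖ := by ring)

theorem un_ae (n : ℕ) (φ : Lp 𝕜 ⊤ I01) :
    ∀ᵐ t ∂I01, un n φ t = (φ t * ((rad n t : ℝ) : 𝕜)) • dl 𝕜 n :=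
  MemLp.coeFn_toLp (memLp_un n φ)

theorem un_norm_le (n : ℕ) : ‖(un n : Lp 𝕜 ⊤ I01 →L[𝕜] Lp (c0 𝕜) ⊤ I01)‖ ≤ 1 :=
  LinearMap.mkContinuous_norm_le _ zero_le_one _

/-- The pairing with a bounded function, as a functional on `L^∞`. -/
noncomputable def prL (h : Lp 𝕜 ⊤ I01) : Lp 𝕜 ⊤ I01 →L[𝕜] 𝕜 :=
  LinearMap.mkContinuous
    { toFun := fun g => ∫ t, h t * g t ∂I01
      map_add' := by
        intro f g
        have hi : ∀ g : Lp 𝕜 ⊤ I01, Integrable (fun t => h t * g t) I01 := fun g => by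
          refine Integrable.mono' (integrable_const (‖h‖ * ‖g‖))
            ((Lp.aestronglyMeasurable h).mul (Lp.aestronglyMeasurable g)) ?_
          filter_upwards [lp_ae_le h, lp_ae_le g] with t h1 h2
          rw [norm_mul]; gcongr
        rw [← integral_add (hi f) (hi g)]
        refine integral_congr_ae ?_
        filter_upwards [Lp.coeFn_add f g] with t ht
        rw [ht, Pi.add_apply, mul_add]
      map_smul' := by
        intro c f
        rw [RingHom.id_apply, ← integral_smul]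
        refine integral_congr_ae ?_
        filter_upwards [Lp.coeFn_smul c f] with t ht
        rw [ht, Pi.smul_apply, smul_eq_mul, smul_eq_mul]; ring } ‖h‖ (by
    intro g
    rw [LinearMap.coe_mk, AddHom.coe_mk]
    refine (norm_integral_le_of_norm_le_const (C := ‖h‖ * ‖g‖) ?_).trans ?_
    · filter_upwards [lp_ae_le h, lp_ae_le g] with t h1 h2
      rw [norm_mul]; gcongr
    · simp)

theorem prL_apply (h g : Lp 𝕜 ⊤ I01) : prL h g = ∫ t, h t * g t ∂I01 := rfl

end Pool.Agent.Helper67.LInf
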