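import Mathlib
import Pool.Agent.Helper234.LInf.Defs
import Pool.Agent.Helper234.LInf.Ops
import Pool.Agent.Helper67.LInf.NDefs
import Pool.Agent.Helper67.LInf.NOps
import Pool.Agent.Helper234.LInf.Core

set_option linter.all false

open MeasureTheory Filter Topology

namespace Pool.Agent.Helper67.LInf

open Pool.Agent.Helper234.LInf

universe u v

variable {𝕜 : Type} [RCLike 𝕜]

variable {Y : Type v} [NormedAddCommGroup Y] [NormedSpace 𝕜 Y]

/-- The localized diagonal coefficient. -/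
noncomputable def bk (T : Lp (c0 𝕜) ⊤ I01 →L[𝕜] lp (fun _ : ℕ => Y) ⊤)
    (G : ℕ → lp (fun _ : ℕ => Y) ⊤ →L[𝕜] Lp 𝕜 ⊤ I01) (h φ : Lp 𝕜 ⊤ I01) (k n : ℕ) : 𝕜 :=
  prL h (G n (lp.single ⊤ k (T (un n φ) k)))

/-- partial sums -/
noncomputable def claimA_s (φ : Lp 𝕜 ⊤ I01) (N : ℕ) (a : lp (fun _ : ℕ => 𝕜) ⊤) :
    Lp (c0 𝕜) ⊤ I01 :=
  ∑ n ∈ Finset.range N, a n • un n φ

theorem claimA_s_ae (φ : Lp 𝕜 ⊤ I01) (a : lp (fun _ : ℕ => 𝕜) ⊤) (N : ℕ) :
    ∀ᵐ t ∂I01, ∀ m, (claimA_s φ N a t) m =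
      if m < N then a m * (φ t * ((rad m t : ℝ) : 𝕜)) else 0 := by
  induction N with
  | zero =>
    have h0 : claimA_s φ 0 a = 0 := by
      unfold claimA_s; rw [Finset.range_zero, Finset.sum_empty]
    rw [h0]
    filter_upwards [Lp.coeFn_zero (c0 𝕜) ⊤ I01] with t ht m
    rw [ht]
    simp
  | succ N ih =>
    have h0 : claimA_s φ (N + 1) a = claimA_s φ N a + a N • un N φ := by
      unfold claimA_s; rw [Finset.sum_range_succ]
    rw [h0]
    filter_upwards [ih, Lp.coeFn_add (claimA_s φ N a) (a N • un N φ),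
      Lp.coeFn_smul (a N) (un N φ), un_ae N φ] with t h1 h2 h3 h4 m
    rw [h2, Pi.add_apply, h3, Pi.smul_apply, h4, ZeroAtInftyContinuousMap.add_apply, h1 m,
      ZeroAtInftyContinuousMap.smul_apply, ZeroAtInftyContinuousMap.smul_apply, dl_apply]
    rcases lt_trichotomy m N with hm | hm | hm
    · rw [if_pos hm, if_neg (by omega), if_pos (by omega)]
      simp
    · subst hm
      rw [if_neg (lt_irrefl _), if_pos rfl, if_pos (Nat.lt_succ_self _)]
      simp [smul_eq_mul]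
    · rw [if_neg (by omega), if_neg (by omega), if_neg (by omega)]
      simp

theorem claimA_s_norm (φ : Lp 𝕜 ⊤ I01) (a : lp (fun _ : ℕ => 𝕜) ⊤) (N : ℕ) :
    ‖claimA_s φ N a‖ ≤ ‖φ‖ * ‖a‖ := by
  refine lp_norm_le (by positivity) ?_
  filter_upwards [claimA_s_ae φ a N, lp_ae_le φ] with t h1 h2
  refine c0_norm_le _ _ (by positivity) (fun m => ?_)
  rw [h1 m]
  split_ifs
  · rw [norm_mul, norm_mul, RCLike.norm_ofReal]
    have h3 : ‖a m‖ ≤ ‖a‖ := lp.norm_apply_le_norm (by simp) a m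
    calc ‖a m‖ * (‖φ t‖ * |rad m t|) ≤ ‖a‖ * (‖φ‖ * 1) := by
          gcongr
          exact abs_rad m t
      _ = ‖φ‖ * ‖a‖ := by ring
  · rw [norm_zero]; positivity

theorem claimA_s_add (φ : Lp 𝕜 ⊤ I01) (a b : lp (fun _ : ℕ => 𝕜) ⊤) (N : ℕ) :
    claimA_s φ N (a + b) = claimA_s φ N a + claimA_s φ N b := by
  unfold claimA_s
  rw [← Finset.sum_add_distrib]
  refine Finset.sum_congr rfl fun n _ => ?_
  rw [lp.coeFn_add, Pi.add_apply, add_smul]

theorem claimA_s_smul (φ : Lp 𝕜 ⊤ I01) (c : 𝕜) (a : lp (fun _ : ℕ => 𝕜) ⊤) (N : ℕ) :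
    claimA_s φ N (c • a) = c • claimA_s φ N a := by
  unfold claimA_s
  rw [Finset.smul_sum]
  refine Finset.sum_congr rfl fun n _ => ?_
  rw [lp.coeFn_smul, Pi.smul_apply, smul_eq_mul, mul_smul]

theorem claimA_s_single (φ : Lp 𝕜 ⊤ I01) (N m : ℕ) :
    claimA_s φ N (lp.single ⊤ m (1 : 𝕜)) = if m < N then un m φ else 0 := by
  unfold claimA_s
  split_ifs with h
  · rw [Finset.sum_eq_single m]
    · rw [lp.single_apply_self, one_smul]
    · intro n _ hn
      rw [lp.single_apply_ne _ _ _ hn, zero_smul]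
    · intro h'
      exact absurd (Finset.mem_range.2 h) h'
  · apply Finset.sum_eq_zero
    intro n hn
    have hnm : n ≠ m := by
      rintro rfl
      exact h (Finset.mem_range.1 hn)
    rw [lp.single_apply_ne _ _ _ hnm, zero_smul]

/-- the diagonal operator -/
noncomputable def claimA_R (T : Lp (c0 𝕜) ⊤ I01 →L[𝕜] lp (fun _ : ℕ => Y) ⊤) (φ : Lp 𝕜 ⊤ I01)
    (N : ℕ → ℕ) : lp (fun _ : ℕ => 𝕜) ⊤ →L[𝕜] lp (fun _ : ℕ => Y) ⊤ :=
  LinearMap.mkContinuous
    { toFun := fun a => ⟨fun k => T (claimA_s φ (N k) a) k, memℓp_infty ⟨‖T‖ * (‖φ‖ * ‖a‖), by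
        rintro _ ⟨k, rfl⟩
        exact (lp.norm_apply_le_norm (by simp) _ k).trans
          ((T.le_opNorm _).trans (mul_le_mul_of_nonneg_left (claimA_s_norm φ a (N k))
            (norm_nonneg _)))⟩⟩
      map_add' := fun a b => by
        ext k
        show T (claimA_s φ (N k) (a + b)) k = T (claimA_s φ (N k) a) k + T (claimA_s φ (N k) b) k
        rw [claimA_s_add, map_add, lp.coeFn_add, Pi.add_apply]
      map_smul' := fun c a => by
        ext k
        show T (claimA_s φ (N k) (c • a)) k = c • T (claimA_s φ (N k) a) k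
        rw [claimA_s_smul, map_smul, lp.coeFn_smul, Pi.smul_apply] } (‖T‖ * ‖φ‖) (fun a => by
      refine lp.norm_le_of_forall_le (by positivity) fun k => ?_
      show ‖T (claimA_s φ (N k) a) k‖ ≤ ‖T‖ * ‖φ‖ * ‖a‖
      rw [mul_assoc]
      exact (lp.norm_apply_le_norm (by simp) (T (claimA_s φ (N k) a)) k).trans
          ((T.le_opNorm _).trans (mul_le_mul_of_nonneg_left (claimA_s_norm φ a (N k))
            (norm_nonneg _))))

theorem claimA_R_apply (T : Lp (c0 𝕜) ⊤ I01 →L[𝕜] lp (fun _ : ℕ => Y) ⊤) (φ : Lp 𝕜 ⊤ I01)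
    (N : ℕ → ℕ) (a : lp (fun _ : ℕ => 𝕜) ⊤) (k : ℕ) :
    claimA_R T φ N a k = T (claimA_s φ (N k) a) k := rfl

theorem claimA_R_single (T : Lp (c0 𝕜) ⊤ I01 →L[𝕜] lp (fun _ : ℕ => Y) ⊤) (φ : Lp 𝕜 ⊤ I01)
    (N : ℕ → ℕ) (m K : ℕ) (hN : ∀ k, m < N k ↔ K ≤ k) :
    claimA_R T φ N (lp.single ⊤ m (1 : 𝕜)) = T (un m φ) -
      ∑ k ∈ Finset.range K, lp.single ⊤ k (T (un m φ) k) := by
  ext k
  rw [claimA_R_apply, claimA_s_single, lp.coeFn_sub, Pi.sub_apply, lp.coeFn_sum, Finset.sum_apply]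
  by_cases hk : K ≤ k
  · rw [if_pos ((hN k).2 hk), Finset.sum_eq_zero, sub_zero]
    intro j hj
    have hjk : k ≠ j := by
      rintro rfl
      exact absurd (Finset.mem_range.1 hj) (not_lt.2 hk)
    rw [lp.single_apply_ne _ _ _ hjk]
  · rw [if_neg (fun h => hk ((hN k).1 h)), map_zero, Finset.sum_eq_single k]
    · rw [lp.single_apply_self, sub_self]
      rfl
    · intro j _ hj
      rw [lp.single_apply_ne _ _ _ hj.symm]
    · intro h'
      exact absurd (Finset.mem_range.2 (not_le.1 hk)) h'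

/-- Claim A. -/
theorem claimA (T : Lp (c0 𝕜) ⊤ I01 →L[𝕜] lp (fun _ : ℕ => Y) ⊤)
    (G : ℕ → lp (fun _ : ℕ => Y) ⊤ →L[𝕜] Lp 𝕜 ⊤ I01) (C : ℝ) (hG : ∀ n, ‖G n‖ ≤ C)
    (H1 : ∀ z h, Tendsto (fun n => prL h (G n z)) atTop (𝓝 0))
    (H2 : ∀ n φ, G n (T (un n φ)) = φ) (h φ : Lp 𝕜 ⊤ I01) (ε : ℝ) (hε : 0 < ε) :
    ∃ K₀ : ℕ, ∀ K ≥ K₀, ∀ᶠ n in atTop,
      ‖prL h φ - ∑ k ∈ Finset.range K, bk T G h φ k n‖ ≤ ε := by
  classical
  by_contra hcon
  push Not at hcon
  have hstep : ∀ p : ℕ × ℕ, ∃ q : ℕ × ℕ, p.1 < q.1 ∧ p.2 < q.2 ∧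
      ε < ‖prL h φ - ∑ k ∈ Finset.range q.1, bk T G h φ k q.2‖ := by
    intro p
    obtain ⟨K, hK, hfr⟩ := hcon (p.1 + 1)
    obtain ⟨n, hn, hbad⟩ := Filter.frequently_atTop.1 hfr (p.2 + 1)
    exact ⟨(K, n), by simpa using hK, by simpa using hn, by simpa using hbad⟩
  choose f hf1 hf2 hf3 using hstep
  let seq : ℕ → ℕ × ℕ := fun i => f^[i + 1] (0, 0)
  have hseq : ∀ i, seq (i + 1) = f (seq i) := fun i => Function.iterate_succ_apply' f (i + 1) (0, 0)
  have hbad : ∀ i, ε < ‖prL h φ - ∑ k ∈ Finset.range (seq i).1, bk T G h φ k (seq i).2‖ := by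
    intro i
    cases i with
    | zero => exact hf3 (0, 0)
    | succ i => rw [hseq]; exact hf3 _
  have hKm : StrictMono (fun i => (seq i).1) := strictMono_nat_of_lt_succ fun i => by
    rw [hseq]; exact hf1 _
  have hnm : StrictMono (fun i => (seq i).2) := strictMono_nat_of_lt_succ fun i => by
    rw [hseq]; exact hf2 _
  have hex : ∀ k : ℕ, ∃ i, k < (seq i).1 := fun k =>
    ⟨k + 1, lt_of_lt_of_le (Nat.lt_succ_self k) (hKm.id_le (k + 1))⟩
  let N : ℕ → ℕ := fun k => (seq (Nat.find (hex k))).2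
  have hN : ∀ i k, (seq i).2 < N k ↔ (seq i).1 ≤ k := by
    intro i k
    have h1 : (seq i).2 < N k ↔ i < Nat.find (hex k) := hnm.lt_iff_lt
    rw [h1]
    constructor
    · intro h2
      exact not_lt.1 (Nat.find_min (hex k) h2)
    · intro h2
      by_contra h3
      push Not at h3
      have h4 := Nat.find_spec (hex k)
      have h5 : (seq (Nat.find (hex k))).1 ≤ (seq i).1 := hKm.monotone h3
      omega
  set R := claimA_R T φ N with hR
  have hC : 0 ≤ C := (norm_nonneg _).trans (hG 0)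
  have hph := phillips_lemma 𝕜 (fun m => (prL h).comp ((G m).comp R)) (‖prL h‖ * (C * ‖R‖))
    (fun m => by
      refine (ContinuousLinearMap.opNorm_comp_le _ _).trans ?_
      apply mul_le_mul_of_nonneg_left _ (norm_nonneg _)
      refine (ContinuousLinearMap.opNorm_comp_le _ _).trans ?_
      exact mul_le_mul_of_nonneg_right (hG m) (norm_nonneg _))
    (fun y => H1 (R y) h)
  have hph2 := hph.comp hnm.tendsto_atTop
  have hval : ∀ i, (prL h).comp ((G (seq i).2).comp R) (lp.single ⊤ (seq i).2 (1 : 𝕜)) =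
      prL h φ - ∑ k ∈ Finset.range (seq i).1, bk T G h φ k (seq i).2 := by
    intro i
    rw [ContinuousLinearMap.comp_apply, ContinuousLinearMap.comp_apply, hR,
      claimA_R_single T φ N (seq i).2 (seq i).1 (hN i), map_sub, map_sub, H2, map_sum, map_sum]
    rfl
  have hev := hph2.norm
  rw [norm_zero] at hev
  obtain ⟨i, hi⟩ := (hev.eventually (gt_mem_nhds hε)).exists
  simp only [Function.comp_apply] at hi
  rw [hval] at hi
  exact absurd (hbad i) (not_lt.2 hi.le)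

end Pool.Agent.Helper67.LInf
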