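import Mathlib
import Pool.Agent.Helper67.LInf.NDefs

open MeasureTheory Filter Topology

namespace Pool.Agent.Helper67.LInf

variable {𝕜 : Type} [RCLike 𝕜]

omit [RCLike 𝕜] in
theorem rows_disj352 (F : Set ℕ) (hF : F.Infinite) : ∃ G : ℕ → Set ℕ, (∀ r, G r ⊆ F) ∧
    (∀ r, (G r).Infinite) ∧ ∀ r r' i, i ∈ G r → i ∈ G r' → r = r' := by
  classical
  have hmem : ∀ k, Nat.nth (· ∈ F) k ∈ F := fun k => Nat.nth_mem_of_infinite hF k
  have hinj : Function.Injective (Nat.nth (· ∈ F)) := Nat.nth_injective hF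
  refine ⟨fun r => Set.range fun k => Nat.nth (· ∈ F) (Nat.pair r k), ?_, ?_, ?_⟩
  · rintro r _ ⟨k, rfl⟩
    exact hmem _
  · intro r
    refine Set.infinite_range_of_injective fun k k' h => ?_
    have h1 := hinj h
    rw [Nat.pair_eq_pair] at h1
    exact h1.2
  · rintro r r' i ⟨k, rfl⟩ ⟨k', h⟩
    have h1 := hinj h
    rw [Nat.pair_eq_pair] at h1
    exact h1.1.symm

/-- Single step: on some infinite subset of the index set the functional is small. -/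
theorem rows_step {W : Type*} [NormedAddCommGroup W] [NormedSpace 𝕜 W]
    (φ : lp (fun _ : ℕ => W) ⊤ →L[𝕜] 𝕜) (F : Set ℕ) (hF : F.Infinite) (ε : ℝ) (hε : 0 < ε) :
    ∃ F' : Set ℕ, F' ⊆ F ∧ F'.Infinite ∧ ∀ z : lp (fun _ : ℕ => W) ⊤, ‖z‖ ≤ 1 →
      (∀ i, z i ≠ 0 → i ∈ F') → ‖φ z‖ ≤ ε := by
  classical
  by_contra hcon
  push Not at hcon
  obtain ⟨G, hGF, hGi, hGd⟩ := rows_disj352 F hF
  choose z hz1 hz2 hz3 using fun r => hcon (G r) (hGF r) (hGi r)
  have hc : ∀ r, ∃ c : 𝕜, ‖c‖ = 1 ∧ c * φ (z r) = ((‖φ (z r)‖ : ℝ) : 𝕜) := by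
    intro r
    obtain ⟨c, hc1, hc2⟩ := RCLike.exists_norm_eq_mul_self (φ (z r))
    exact ⟨c, hc1, hc2.symm⟩
  choose c hc1 hc2 using hc
  obtain ⟨n, hn⟩ := exists_nat_gt (‖φ‖ / ε)
  rw [div_lt_iff₀ hε] at hn
  set w : lp (fun _ : ℕ => W) ⊤ := ∑ r ∈ Finset.range n, c r • z r with hw
  have hwi : ∀ i, w i = ∑ r ∈ Finset.range n, c r • z r i := by
    intro i
    rw [hw, lp.coeFn_sum, Finset.sum_apply]
    rfl
  have hwn : ‖w‖ ≤ 1 := by
    refine lp.norm_le_of_forall_le zero_le_one fun i => ?_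
    rw [hwi]
    by_cases h : ∃ r ∈ Finset.range n, z r i ≠ 0
    · obtain ⟨r, hr, hri⟩ := h
      rw [Finset.sum_eq_single_of_mem r hr]
      · rw [norm_smul, hc1, one_mul]
        exact (lp.norm_apply_le_norm (by simp) (z r) i).trans (hz1 r)
      · intro r' _ hr'
        have : z r' i = 0 := by
          by_contra h'
          exact hr' (hGd r' r i (hz2 r' i h') (hz2 r i hri))
        rw [this, smul_zero]
    · push Not at h
      rw [Finset.sum_eq_zero fun r hr => by rw [h r hr, smul_zero], norm_zero]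
      exact zero_le_one
  have hφw : φ w = (((∑ r ∈ Finset.range n, ‖φ (z r)‖ : ℝ)) : 𝕜) := by
    rw [hw, map_sum]
    push_cast
    refine Finset.sum_congr rfl fun r _ => ?_
    rw [map_smul, smul_eq_mul, hc2]
  have h1 : (n : ℝ) * ε ≤ ‖φ w‖ := by
    rw [hφw, RCLike.norm_ofReal, abs_of_nonneg (Finset.sum_nonneg fun _ _ => norm_nonneg _)]
    calc (n : ℝ) * ε = ∑ _r ∈ Finset.range n, ε := by simp
      _ ≤ _ := Finset.sum_le_sum fun r _ => (hz3 r).le
  have h2 : ‖φ w‖ ≤ ‖φ‖ := by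
    calc ‖φ w‖ ≤ ‖φ‖ * ‖w‖ := φ.le_opNorm w
      _ ≤ ‖φ‖ * 1 := by gcongr
      _ = _ := mul_one _
  linarith

/-- Countably many functionals on `ℓ^∞(W)` become row continuous on a suitable infinite set of
rows. -/
theorem rows_sel {W : Type*} [NormedAddCommGroup W] [NormedSpace 𝕜 W]
    (φ : ℕ → lp (fun _ : ℕ => W) ⊤ →L[𝕜] 𝕜) :
    ∃ E : Set ℕ, E.Infinite ∧ ∀ p, ∀ ε > (0 : ℝ), ∃ N : ℕ, ∀ z : lp (fun _ : ℕ => W) ⊤, ‖z‖ ≤ 1 →
      (∀ i, z i ≠ 0 → i ∈ E ∧ N ≤ i) → ‖φ p z‖ ≤ ε := by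
  classical
  have hstep : ∀ (s : ℕ) (G : {G : Set ℕ // G.Infinite}), ∃ G' : {G : Set ℕ // G.Infinite},
      G'.1 ⊆ G.1 ∧ ∀ z : lp (fun _ : ℕ => W) ⊤, ‖z‖ ≤ 1 →
      (∀ i, z i ≠ 0 → i ∈ G'.1) → ‖φ (Nat.unpair s).1 z‖ ≤ 1 / (((Nat.unpair s).2 : ℝ) + 1) := by
    intro s G
    obtain ⟨F', h1, h2, h3⟩ := rows_step (φ (Nat.unpair s).1) G.1 G.2
      (1 / (((Nat.unpair s).2 : ℝ) + 1)) (by positivity)
    exact ⟨⟨F', h2⟩, h1, h3⟩
  choose st hst1 hst2 using hstep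
  set G : ℕ → {G : Set ℕ // G.Infinite} :=
    fun s => Nat.rec ⟨Set.univ, Set.infinite_univ⟩ (fun s g => st s g) s with hG
  have hGs : ∀ s, G (s + 1) = st s (G s) := fun s => rfl
  have hGanti : ∀ s t, s ≤ t → (G t).1 ⊆ (G s).1 := by
    intro s t hst
    induction t, hst using Nat.le_induction with
    | base => exact fun _ h => h
    | succ t _ ih => rw [hGs]; exact (hst1 t (G t)).trans ih
  have hgt : ∀ (s m : ℕ), ∃ b ∈ (G s).1, m < b := fun s m => (G s).2.exists_gt m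
  choose nx hnx1 hnx2 using hgt
  set n : ℕ → ℕ := fun s => Nat.rec (nx 0 0) (fun s m => nx (s + 1) m) s with hn
  have hns : ∀ s, n (s + 1) = nx (s + 1) (n s) := fun s => rfl
  have hmono : StrictMono n := strictMono_nat_of_lt_succ fun s => by
    rw [hns]; exact hnx2 _ _
  have hmem : ∀ s, n s ∈ (G s).1 := by
    intro s
    cases s with
    | zero => exact hnx1 0 0
    | succ s => exact hnx1 (s + 1) (n s)
  refine ⟨Set.range n, Set.infinite_range_of_injective hmono.injective, fun p ε hε => ?_⟩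
  obtain ⟨i, hi⟩ := exists_nat_one_div_lt hε
  refine ⟨n (Nat.pair p i + 1), fun z hz hsupp => ?_⟩
  have h1 := hst2 (Nat.pair p i) (G (Nat.pair p i)) z hz (by
    intro k hk
    obtain ⟨⟨t, rfl⟩, h2⟩ := hsupp k hk
    have h3 : Nat.pair p i + 1 ≤ t := hmono.le_iff_le.1 h2
    rw [← hGs]
    exact hGanti _ _ h3 (hmem t))
  rw [Nat.unpair_pair] at h1
  exact h1.trans hi.le

/-- Recursive selection of a strictly increasing sequence with prescribed (eventually satisfiable)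
pairwise conditions. -/
theorem rec_sel (A : ℕ → ℕ → ℕ → ℕ → Prop) (hA : ∀ p' x p, ∀ᶠ y in atTop, A p' x p y) :
    ∃ f : ℕ → ℕ, StrictMono f ∧ ∀ p' p, p' < p → A p' (f p') p (f p) := by
  have H : ∀ (n : ℕ) (prev : ∀ m < n, ℕ), ∃ y, ∀ (m : ℕ) (h : m < n),
      A m (prev m h) n y ∧ prev m h < y := by
    intro n prev
    have h1 : ∀ m : Fin n, ∀ᶠ y in atTop, A m (prev m m.2) n y ∧ prev m m.2 < y := fun m =>
      (hA _ _ _).and (eventually_gt_atTop _)
    obtain ⟨y, hy⟩ := (Filter.eventually_all.2 h1).exists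
    exact ⟨y, fun m h => hy ⟨m, h⟩⟩
  choose g hg using H
  let f : ℕ → ℕ := (Nat.lt_wfRel.wf).fix (C := fun _ => ℕ) (fun n ih => g n ih)
  have hf : ∀ n, f n = g n (fun m _ => f m) := fun n =>
    (Nat.lt_wfRel.wf).fix_eq (C := fun _ => ℕ) (fun n ih => g n ih) n
  have key : ∀ p' p, p' < p → A p' (f p') p (f p) ∧ f p' < f p := by
    intro p' p h
    rw [hf p]
    exact hg p (fun m _ => f m) p' h
  exact ⟨f, fun a b h => (key a b h).2, fun p' p h => (key p' p h).1⟩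

/-- Functionals on a row are summable, hence null on the unit vectors. -/
theorem zu_null (φ : ZC 𝕜 →L[𝕜] 𝕜) (j : ℕ) :
    Tendsto (fun q => φ (zu 𝕜 j q)) atTop (𝓝 0) := by
  have hs : Summable (fun q => ‖φ (zu 𝕜 j q)‖) := by
    refine summable_of_sum_le (c := ‖φ‖) (fun q => norm_nonneg _) (fun F => ?_)
    let c : ℕ → 𝕜 := fun q => ((‖φ (zu 𝕜 j q)‖ : ℝ) : 𝕜)⁻¹ * (starRingEnd 𝕜) (φ (zu 𝕜 j q))
    have hc1 : ∀ q, ‖c q‖ ≤ 1 := by
      intro q
      simp only [c]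
      rw [norm_mul, norm_inv, RCLike.norm_ofReal, abs_norm, RCLike.norm_conj]
      exact inv_mul_le_one
    have hc2 : ∀ q, c q * φ (zu 𝕜 j q) = ((‖φ (zu 𝕜 j q)‖ : ℝ) : 𝕜) := by
      intro q
      simp only [c]
      rw [mul_assoc, RCLike.conj_mul]
      by_cases h : ‖φ (zu 𝕜 j q)‖ = 0
      · rw [h]; simp
      · have h' : ((‖φ (zu 𝕜 j q)‖ : ℝ) : 𝕜) ≠ 0 := by exact_mod_cast h
        field_simp
    let x : ZC 𝕜 := ∑ q ∈ F, c q • zu 𝕜 j q
    have hx : ‖x‖ ≤ 1 := by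
      refine zc_norm_le x 1 zero_le_one (fun i r => ?_)
      have h1 : x i r = zev 𝕜 i r x := rfl
      rw [h1]
      simp only [x]
      rw [map_sum]
      have h2 : ∀ q ∈ F, zev 𝕜 i r (c q • zu 𝕜 j q) = if i = j ∧ r = q then c q else 0 := by
        intro q _
        rw [map_smul, zev_apply, zu_apply, smul_eq_mul]
        split_ifs <;> simp
      rw [Finset.sum_congr rfl h2]
      by_cases hi : i = j
      · simp only [hi, true_and]
        rw [Finset.sum_ite_eq]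
        split_ifs
        · exact hc1 r
        · simp
      · simp [hi]
    have h3 : φ x = ((∑ q ∈ F, ‖φ (zu 𝕜 j q)‖ : ℝ) : 𝕜) := by
      simp only [x]
      rw [map_sum]
      push_cast
      refine Finset.sum_congr rfl fun q _ => ?_
      rw [map_smul, smul_eq_mul, hc2]
    have h4 : ‖φ x‖ ≤ ‖φ‖ := by
      refine (φ.le_opNorm x).trans ?_
      exact mul_le_of_le_one_right (norm_nonneg _) hx
    rw [h3, RCLike.norm_ofReal] at h4
    exact (le_abs_self _).trans h4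
  rw [tendsto_zero_iff_norm_tendsto_zero]
  exact hs.tendsto_atTop_zero

/-- Selection of rows `e s` and columns `q s r` with small off-diagonal entries.  TARGET -/
theorem select_entries (D : ZC 𝕜 →L[𝕜] ZC 𝕜) (δ : ℝ) (hδ : 0 < δ) :
    ∃ (e : ℕ → ℕ) (q : ℕ → ℕ → ℕ), StrictMono e ∧ (∀ s, StrictMono (q s)) ∧
      (∀ j k, ∀ ε > (0 : ℝ), ∃ N : ℕ, ∀ z : ZC 𝕜, ‖z‖ ≤ 1 →
        (∀ i, z i ≠ 0 → i ∈ Set.range e ∧ N ≤ i) → ‖D z j k‖ ≤ ε) ∧
      (∀ s r s' r', (s, r) ≠ (s', r') →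
        ‖D (zu 𝕜 (e s') (q s' r')) (e s) (q s r)‖ ≤ δ * (1 / 2) ^ (Nat.pair s' r' + 2)) := by
  classical
  obtain ⟨E, hE, hrow⟩ := rows_sel (𝕜 := 𝕜) (W := c0 𝕜)
    (fun p => (zev 𝕜 (Nat.unpair p).1 (Nat.unpair p).2).comp D)
  have hE' : (setOf (fun i => i ∈ E)).Infinite := hE
  let e : ℕ → ℕ := Nat.nth (fun i => i ∈ E)
  have heM : StrictMono e := Nat.nth_strictMono hE'
  have heR : Set.range e = E := Nat.range_nth_of_infinite hE'
  obtain ⟨f, hf, hA⟩ := rec_sel (fun p1 x p2 y =>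
    ‖D (zu 𝕜 (e (Nat.unpair p1).1) x) (e (Nat.unpair p2).1) y‖ ≤ δ * (1 / 2) ^ (p1 + 2) ∧
    ‖D (zu 𝕜 (e (Nat.unpair p2).1) y) (e (Nat.unpair p1).1) x‖ ≤ δ * (1 / 2) ^ (p2 + 2)) (by
      intro p1 x p2
      have h1 : ∀ᶠ y in atTop,
          ‖D (zu 𝕜 (e (Nat.unpair p1).1) x) (e (Nat.unpair p2).1) y‖ ≤ δ * (1 / 2) ^ (p1 + 2) := by
        have h := (c0_tendsto (D (zu 𝕜 (e (Nat.unpair p1).1) x) (e (Nat.unpair p2).1))).norm
        rw [norm_zero] at h
        exact h.eventually_le_const (by positivity)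
      have h2 : ∀ᶠ y in atTop,
          ‖D (zu 𝕜 (e (Nat.unpair p2).1) y) (e (Nat.unpair p1).1) x‖ ≤ δ * (1 / 2) ^ (p2 + 2) := by
        have h := (zu_null ((zev 𝕜 (e (Nat.unpair p1).1) x).comp D) (e (Nat.unpair p2).1)).norm
        rw [norm_zero] at h
        exact h.eventually_le_const (by positivity)
      exact h1.and h2)
  refine ⟨e, fun s r => f (Nat.pair s r), heM, fun s r r' h => hf (Nat.pair_lt_pair_right s h),
    ?_, ?_⟩
  · intro j k ε hε
    obtain ⟨N, hN⟩ := hrow (Nat.pair j k) ε hε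
    refine ⟨N, fun z hz hzz => ?_⟩
    have h := hN z hz (fun i hi => by
      have := hzz i hi
      rw [heR] at this
      exact this)
    rw [Nat.unpair_pair] at h
    exact h
  · intro s r s' r' hne
    rcases lt_trichotomy (Nat.pair s' r') (Nat.pair s r) with h | h | h
    · have := (hA _ _ h).1
      rw [Nat.unpair_pair, Nat.unpair_pair] at this
      exact this
    · have h2 := congrArg Nat.unpair h
      rw [Nat.unpair_pair, Nat.unpair_pair] at h2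
      exact absurd h2.symm hne
    · have := (hA _ _ h).2
      rw [Nat.unpair_pair, Nat.unpair_pair] at this
      exact this

/-- If a functional is row continuous on the rows `range e`, the value at an element supported on the
selected entries `(e s, q s r)` is bounded by the sum of the entries.  TARGET -/
theorem off_diag_bound (φ : ZC 𝕜 →L[𝕜] 𝕜) (e : ℕ → ℕ) (q : ℕ → ℕ → ℕ) (he : StrictMono e)
    (hq : ∀ s, StrictMono (q s))
    (hrow : ∀ ε > (0 : ℝ), ∃ N : ℕ, ∀ z : ZC 𝕜, ‖z‖ ≤ 1 →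
        (∀ i, z i ≠ 0 → i ∈ Set.range e ∧ N ≤ i) → ‖φ z‖ ≤ ε)
    (s₀ r₀ : ℕ) (δ : ℝ) (hδ : 0 < δ)
    (hent : ∀ s r, (s, r) ≠ (s₀, r₀) → ‖φ (zu 𝕜 (e s) (q s r))‖ ≤
      δ * (1 / 2) ^ (Nat.pair s r + 2))
    (z : ZC 𝕜) (hz : ‖z‖ ≤ 1)
    (hsupp : ∀ i k, z i k ≠ 0 → ∃ s r, (s, r) ≠ (s₀, r₀) ∧ i = e s ∧ k = q s r) :
    ‖φ z‖ ≤ δ / 2 := by
  -- entries of a double sum of unit vectors
  have hwent : ∀ N K j r : ℕ, (∑ i ∈ Finset.range N, ∑ k ∈ Finset.range K, (z i k) • zu 𝕜 i k) j r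
      = if j < N ∧ r < K then z j r else 0 := by
    intro N K j r
    have h1 : (∑ i ∈ Finset.range N, ∑ k ∈ Finset.range K, (z i k) • zu 𝕜 i k) j r
        = zev 𝕜 j r (∑ i ∈ Finset.range N, ∑ k ∈ Finset.range K, (z i k) • zu 𝕜 i k) := rfl
    rw [h1, map_sum]
    have h2 : ∀ i ∈ Finset.range N, zev 𝕜 j r (∑ k ∈ Finset.range K, (z i k) • zu 𝕜 i k)
        = if i = j then (if r < K then z j r else 0) else 0 := by
      intro i _
      rw [map_sum]
      have h3 : ∀ k ∈ Finset.range K, zev 𝕜 j r ((z i k) • zu 𝕜 i k)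
          = if k = r then (if i = j then z j r else 0) else 0 := by
        intro k _
        rw [map_smul, zev_apply, zu_apply, smul_eq_mul]
        by_cases hk : k = r
        · subst hk
          by_cases hi : i = j
          · subst hi; simp
          · have : ¬ (j = i) := fun h => hi h.symm
            simp [this, hi]
        · have : ¬ (r = k) := fun h => hk h.symm
          simp [this, hk]
      rw [Finset.sum_congr rfl h3, Finset.sum_ite_eq' (Finset.range K) r]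
      by_cases hi : i = j
      · subst hi; simp
      · simp [hi]
    rw [Finset.sum_congr rfl h2, Finset.sum_ite_eq' (Finset.range N) j]
    by_cases hj : j < N
    · by_cases hr : r < K
      · simp [hj, hr]
      · simp [hj, hr]
    · simp [hj]
  -- the bound for double sums
  have hfin : ∀ N K : ℕ, ‖φ (∑ i ∈ Finset.range N, ∑ k ∈ Finset.range K, (z i k) • zu 𝕜 i k)‖
      ≤ δ / 2 := by
    intro N K
    classical
    have hsum : HasSum (fun p : ℕ => δ * (1 / 2 : ℝ) ^ (p + 2)) (δ / 2) := by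
      have h := (hasSum_geometric_two).mul_left (δ / 4)
      have e1 : δ / 4 * 2 = δ / 2 := by ring
      rw [e1] at h
      refine h.congr_fun ?_ |> id
      intro p
      ring
    have hsupp' : ∀ x : ℕ × ℕ, ∃ p : ℕ, z x.1 x.2 ≠ 0 →
        ∃ s r, (s, r) ≠ (s₀, r₀) ∧ x.1 = e s ∧ x.2 = q s r ∧ p = Nat.pair s r := by
      intro x
      by_cases hx : z x.1 x.2 = 0
      · exact ⟨0, fun h => absurd hx h⟩
      · obtain ⟨s, r, h1, h2, h3⟩ := hsupp x.1 x.2 hx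
        exact ⟨Nat.pair s r, fun _ => ⟨s, r, h1, h2, h3, rfl⟩⟩
    choose P hP using hsupp'
    set S : Finset (ℕ × ℕ) := (Finset.range N ×ˢ Finset.range K).filter (fun x => z x.1 x.2 ≠ 0)
      with hS
    have hinj : Set.InjOn P (S : Set (ℕ × ℕ)) := by
      intro x hx y hy hxy
      have hx' : z x.1 x.2 ≠ 0 := (Finset.mem_filter.1 (Finset.mem_coe.1 hx)).2
      have hy' : z y.1 y.2 ≠ 0 := (Finset.mem_filter.1 (Finset.mem_coe.1 hy)).2
      obtain ⟨s, r, _, h2, h3, h4⟩ := hP x hx'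
      obtain ⟨s', r', _, h2', h3', h4'⟩ := hP y hy'
      rw [h4, h4'] at hxy
      have := Nat.pair_eq_pair.1 hxy
      obtain ⟨rfl, rfl⟩ := this
      exact Prod.ext (h2.trans h2'.symm) (h3.trans h3'.symm)
    calc ‖φ (∑ i ∈ Finset.range N, ∑ k ∈ Finset.range K, (z i k) • zu 𝕜 i k)‖
        = ‖∑ x ∈ Finset.range N ×ˢ Finset.range K, (z x.1 x.2) * φ (zu 𝕜 x.1 x.2)‖ := by
          rw [map_sum, Finset.sum_product]
          congr 1
          refine Finset.sum_congr rfl (fun i _ => ?_)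
          rw [map_sum]
          refine Finset.sum_congr rfl (fun k _ => ?_)
          rw [map_smul, smul_eq_mul]
      _ ≤ ∑ x ∈ Finset.range N ×ˢ Finset.range K, ‖(z x.1 x.2) * φ (zu 𝕜 x.1 x.2)‖ :=
          norm_sum_le _ _
      _ = ∑ x ∈ S, ‖(z x.1 x.2) * φ (zu 𝕜 x.1 x.2)‖ := by
          rw [hS, Finset.sum_filter]
          refine Finset.sum_congr rfl (fun x _ => ?_)
          by_cases hx : z x.1 x.2 = 0
          · simp [hx]
          · simp [hx]
      _ ≤ ∑ x ∈ S, δ * (1 / 2) ^ (P x + 2) := by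
          refine Finset.sum_le_sum (fun x hx => ?_)
          have hx' : z x.1 x.2 ≠ 0 := (Finset.mem_filter.1 hx).2
          obtain ⟨s, r, h1, h2, h3, h4⟩ := hP x hx'
          rw [h4, norm_mul]
          have ha : ‖z x.1 x.2‖ ≤ 1 := (zc_apply_le z x.1 x.2).trans hz
          have hb := hent s r h1
          rw [← h2, ← h3] at hb
          calc ‖z x.1 x.2‖ * ‖φ (zu 𝕜 x.1 x.2)‖ ≤ 1 * ‖φ (zu 𝕜 x.1 x.2)‖ := by gcongr
            _ = ‖φ (zu 𝕜 x.1 x.2)‖ := one_mul _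
            _ ≤ _ := hb
      _ = ∑ p ∈ S.image P, δ * (1 / 2) ^ (p + 2) := by
          rw [Finset.sum_image hinj]
      _ ≤ δ / 2 := by
          refine sum_le_hasSum _ (fun p _ => by positivity) hsum
  -- the limit argument
  refine le_of_forall_pos_le_add (fun ε hε => ?_)
  obtain ⟨N, hN⟩ := hrow (ε / 2) (by positivity)
  have hη : 0 < ε / 2 / (‖φ‖ + 1) := by positivity
  obtain ⟨K, hK⟩ : ∃ K : ℕ, ∀ i < N, ∀ k, K ≤ k → ‖z i k‖ ≤ ε / 2 / (‖φ‖ + 1) := by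
    have h1 : ∀ i : ℕ, ∃ K : ℕ, ∀ k, K ≤ k → ‖z i k‖ ≤ ε / 2 / (‖φ‖ + 1) := by
      intro i
      have h2 : ∀ᶠ k in atTop, ‖z i k‖ < ε / 2 / (‖φ‖ + 1) := by
        have h3 := (c0_tendsto (z i)).norm
        rw [norm_zero] at h3
        exact h3.eventually (gt_mem_nhds hη)
      obtain ⟨K, hK⟩ := eventually_atTop.1 h2
      exact ⟨K, fun k hk => (hK k hk).le⟩
    choose Kf hKf using h1
    refine ⟨(Finset.range N).sup Kf, fun i hi k hk => hKf i k (le_trans ?_ hk)⟩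
    exact Finset.le_sup (f := Kf) (Finset.mem_range.2 hi)
  set w : ZC 𝕜 := ∑ i ∈ Finset.range N, ∑ k ∈ Finset.range K, (z i k) • zu 𝕜 i k with hw
  have hmem : Memℓp (fun i : ℕ => if i < N then (0 : c0 𝕜) else z i) ⊤ := memℓp_infty ⟨‖z‖, by
    rintro _ ⟨i, rfl⟩
    dsimp only
    split_ifs
    · simp
    · exact lp.norm_apply_le_norm (by simp) z i⟩
  set hi : ZC 𝕜 := ⟨fun i : ℕ => if i < N then (0 : c0 𝕜) else z i, hmem⟩ with hhi
  have hie : ∀ i, hi i = if i < N then (0 : c0 𝕜) else z i := fun i => rfl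
  have hhin : ‖hi‖ ≤ 1 := by
    refine zc_norm_le _ _ zero_le_one (fun j r => ?_)
    rw [hie]
    split_ifs
    · simp
    · exact (zc_apply_le z j r).trans hz
  have hφhi : ‖φ hi‖ ≤ ε / 2 := by
    refine hN hi hhin (fun i hne => ?_)
    rw [hie] at hne
    by_cases hiN : i < N
    · simp [hiN] at hne
    · rw [if_neg hiN] at hne
      refine ⟨?_, not_lt.1 hiN⟩
      have : ∃ k, z i k ≠ 0 := by
        by_contra hcon
        push Not at hcon
        exact hne (by ext k; exact hcon k)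
      obtain ⟨k, hk⟩ := this
      obtain ⟨s, r, _, h2, _⟩ := hsupp i k hk
      exact ⟨s, h2.symm⟩
  have hrest : ‖z - w - hi‖ ≤ ε / 2 / (‖φ‖ + 1) := by
    refine zc_norm_le _ _ hη.le (fun j r => ?_)
    have e1 : (z - w - hi) j r = z j r - w j r - hi j r := rfl
    rw [e1, hw, hwent, hie]
    by_cases hj : j < N
    · by_cases hr : r < K
      · simp [hj, hr]; exact hη.le
      · simp only [hj, hr, and_false, if_false, if_true, sub_zero]
        have := hK j hj r (not_lt.1 hr)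
        simpa using this
    · simp [hj]; exact hη.le
  have hdec : φ z = φ w + φ hi + φ (z - w - hi) := by
    rw [map_sub, map_sub]; ring
  calc ‖φ z‖ = ‖φ w + φ hi + φ (z - w - hi)‖ := by rw [← hdec]
    _ ≤ ‖φ w‖ + ‖φ hi‖ + ‖φ (z - w - hi)‖ := norm_add₃_le
    _ ≤ δ / 2 + ε / 2 + ‖φ‖ * (ε / 2 / (‖φ‖ + 1)) := by
        refine add_le_add (add_le_add (hfin N K) hφhi) ?_
        exact (φ.le_opNorm _).trans (mul_le_mul_of_nonneg_left hrest (norm_nonneg _))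
    _ ≤ δ / 2 + ε / 2 + ε / 2 := by
        gcongr
        rw [mul_div_assoc', div_le_iff₀ (by positivity)]
        nlinarith [norm_nonneg φ]
    _ = δ / 2 + ε := by ring

open Classical in
/-- coordinate functionals of the spreading operator -/
noncomputable def sprg (𝕜 : Type) [RCLike 𝕜] (e : ℕ → ℕ) (q : ℕ → ℕ → ℕ) (i k : ℕ) :
    ZC 𝕜 →L[𝕜] 𝕜 :=
  if h : ∃ p : ℕ × ℕ, i = e p.1 ∧ k = q p.1 p.2 then zev 𝕜 h.choose.1 h.choose.2 else 0

theorem sprg_eq (e : ℕ → ℕ) (q : ℕ → ℕ → ℕ) (he : StrictMono e)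
    (hq : ∀ s, StrictMono (q s)) (s r : ℕ) : sprg 𝕜 e q (e s) (q s r) = zev 𝕜 s r := by
  have h : ∃ p : ℕ × ℕ, e s = e p.1 ∧ q s r = q p.1 p.2 := ⟨(s, r), rfl, rfl⟩
  have h2 := h.choose_spec
  have h3 : h.choose.1 = s := (he.injective h2.1).symm
  have h4 : h.choose.2 = r := by
    have h5 := h2.2
    rw [h3] at h5
    exact ((hq s).injective h5).symm
  unfold sprg
  rw [dif_pos h, h3, h4]

theorem sprg_eq_zero (e : ℕ → ℕ) (q : ℕ → ℕ → ℕ) (i k : ℕ)
    (h : ¬ ∃ s r, i = e s ∧ k = q s r) : sprg 𝕜 e q i k = 0 := by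
  unfold sprg
  rw [dif_neg]
  rintro ⟨p, hp⟩
  exact h ⟨p.1, p.2, hp⟩

theorem sprg_le (e : ℕ → ℕ) (q : ℕ → ℕ → ℕ) (i k : ℕ) (z : ZC 𝕜) :
    ‖sprg 𝕜 e q i k z‖ ≤ 1 * ‖z‖ := by
  unfold sprg
  split_ifs with h
  · rw [zev_apply, one_mul]
    exact zc_apply_le z _ _
  · simp

theorem sprg_null (e : ℕ → ℕ) (q : ℕ → ℕ → ℕ) (he : StrictMono e)
    (hq : ∀ s, StrictMono (q s)) (i : ℕ) (z : ZC 𝕜) :
    Tendsto (fun k => sprg 𝕜 e q i k z) atTop (𝓝 0) := by
  by_cases hi : ∃ s, i = e s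
  · obtain ⟨s, rfl⟩ := hi
    rw [Metric.tendsto_atTop]
    intro ε hε
    obtain ⟨N, hN⟩ := Metric.tendsto_atTop.1 (c0_tendsto (z s)) ε hε
    refine ⟨q s N, fun k hk => ?_⟩
    by_cases hk2 : ∃ r, k = q s r
    · obtain ⟨r, rfl⟩ := hk2
      rw [sprg_eq e q he hq, zev_apply]
      exact hN r ((hq s).le_iff_le.1 hk)
    · rw [sprg_eq_zero]
      · simpa using hε
      · rintro ⟨s', r, h1, h2⟩
        have h3 : s = s' := he.injective h1
        subst h3
        exact hk2 ⟨r, h2⟩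
  · have h0 : (fun k => sprg 𝕜 e q i k z) = fun _ => 0 := by
      funext k
      rw [sprg_eq_zero]
      · rfl
      · rintro ⟨s, r, h1, _⟩
        exact hi ⟨s, h1⟩
    rw [h0]
    exact tendsto_const_nhds

/-- Spreading an element of `ℓ^∞(c₀)` along selected entries, and reading it off. -/
theorem spread_exists (e : ℕ → ℕ) (q : ℕ → ℕ → ℕ) (he : StrictMono e)
    (hq : ∀ s, StrictMono (q s)) :
    ∃ (I R : ZC 𝕜 →L[𝕜] ZC 𝕜), ‖I‖ ≤ 1 ∧ ‖R‖ ≤ 1 ∧
      (∀ z s r, I z (e s) (q s r) = z s r) ∧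
      (∀ z i k, (¬ ∃ s r, i = e s ∧ k = q s r) → I z i k = 0) ∧
      (∀ w s r, R w s r = w (e s) (q s r)) := by
  have hR : ∀ (s r : ℕ) (z : ZC 𝕜), ‖(fun s r => zev 𝕜 (e s) (q s r)) s r z‖ ≤ 1 * ‖z‖ := by
    intro s r z
    rw [one_mul]
    exact zc_apply_le z _ _
  have hR0 : ∀ (s : ℕ) (z : ZC 𝕜),
      Tendsto (fun r => (fun s r => zev 𝕜 (e s) (q s r)) s r z) atTop (𝓝 0) := by
    intro s z
    exact (c0_tendsto (z (e s))).comp (hq s).tendsto_atTop
  refine ⟨toZC (sprg 𝕜 e q) 1 (sprg_le e q) (sprg_null e q he hq),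
    toZC (fun s r => zev 𝕜 (e s) (q s r)) 1 hR hR0, ?_, ?_, ?_, ?_, ?_⟩
  · refine ContinuousLinearMap.opNorm_le_bound _ zero_le_one fun z => ?_
    refine zc_norm_le _ _ (by positivity) fun j k => ?_
    rw [toZC_apply]
    exact sprg_le e q j k z
  · refine ContinuousLinearMap.opNorm_le_bound _ zero_le_one fun z => ?_
    refine zc_norm_le _ _ (by positivity) fun j k => ?_
    rw [toZC_apply, zev_apply, one_mul]
    exact zc_apply_le z _ _
  · intro z s r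
    rw [toZC_apply, sprg_eq e q he hq, zev_apply]
  · intro z i k h
    rw [toZC_apply, sprg_eq_zero e q i k h]
    rfl
  · intro w s r
    rw [toZC_apply, zev_apply]

/-- Diagonal division operator. -/
theorem diag_div (d : ℕ → ℕ → 𝕜) (δ : ℝ) (hδ : 0 < δ) (hd : ∀ s r, δ ≤ ‖d s r‖) :
    ∃ Δ : ZC 𝕜 →L[𝕜] ZC 𝕜, ‖Δ‖ ≤ δ⁻¹ ∧ ∀ w s r, Δ w s r = (d s r)⁻¹ * w s r := by
  have hinv : ∀ s r, ‖(d s r)⁻¹‖ ≤ δ⁻¹ := by
    intro s r
    rw [norm_inv]
    exact inv_anti₀ hδ (hd s r)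
  have hle : ∀ s r (z : ZC 𝕜), ‖((d s r)⁻¹ • zev 𝕜 s r : ZC 𝕜 →L[𝕜] 𝕜) z‖ ≤ δ⁻¹ * ‖z‖ := by
    intro s r z
    rw [_root_.smul_apply, norm_smul, zev_apply]
    exact mul_le_mul (hinv s r) (zc_apply_le z _ _) (norm_nonneg _) (inv_pos.2 hδ).le
  refine ⟨toZC (fun s r => (d s r)⁻¹ • zev 𝕜 s r) δ⁻¹ hle (fun s z => ?_), ?_, ?_⟩
  · have h1 : Tendsto (fun r => δ⁻¹ * ‖z s r‖) atTop (𝓝 0) := by
      have h2 := ((c0_tendsto (z s)).norm).const_mul δ⁻¹
      rwa [norm_zero, mul_zero] at h2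
    refine squeeze_zero_norm (fun r => ?_) h1
    rw [_root_.smul_apply, norm_smul, zev_apply]
    exact mul_le_mul_of_nonneg_right (hinv s r) (norm_nonneg _)
  · refine ContinuousLinearMap.opNorm_le_bound _ (inv_pos.2 hδ).le fun z => ?_
    refine zc_norm_le _ _ (by positivity) fun j k => ?_
    rw [toZC_apply]
    exact hle j k z
  · intro w s r
    rw [toZC_apply, _root_.smul_apply, smul_eq_mul, zev_apply]

/-- A contraction-perturbation of the identity is left invertible. -/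
theorem left_inv_of_close {V : Type*} [NormedAddCommGroup V] [NormedSpace 𝕜 V] [CompleteSpace V]
    (B : V →L[𝕜] V) (h : ∀ z, ‖z‖ ≤ 1 → ‖B z - z‖ ≤ 1 / 2) :
    ∃ J : V →L[𝕜] V, ∀ z, J (B z) = z := by
  have hB : ‖(1 : V →L[𝕜] V) - B‖ < 1 := by
    have h1 : ‖(1 : V →L[𝕜] V) - B‖ ≤ 1 / 2 := by
      refine ContinuousLinearMap.opNorm_le_bound _ (by norm_num) fun z => ?_
      by_cases hz : z = 0
      · rw [hz, map_zero, norm_zero, mul_zero]
      · have hn : 0 < ‖z‖ := norm_pos_iff.2 hz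
        have hc : ‖((‖z‖ : 𝕜)⁻¹)‖ = ‖z‖⁻¹ := by
          rw [norm_inv, RCLike.norm_ofReal, abs_of_pos hn]
        have h2 := h (((‖z‖ : 𝕜)⁻¹) • z) (by
          rw [norm_smul, hc, inv_mul_cancel₀ hn.ne'])
        rw [map_smul, ← smul_sub, norm_smul, hc] at h2
        have h3 : ‖((1 : V →L[𝕜] V) - B) z‖ = ‖B z - z‖ := by
          rw [norm_sub_rev]
          rfl
        rw [h3]
        have h4 := mul_le_mul_of_nonneg_right h2 hn.le
        rwa [mul_comm (‖z‖⁻¹) _, mul_assoc, inv_mul_cancel₀ hn.ne', mul_one] at h4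
    linarith
  have hu := (Units.oneSub ((1 : V →L[𝕜] V) - B) hB).inv_mul
  rw [Units.val_oneSub, sub_sub_cancel] at hu
  refine ⟨((Units.oneSub ((1 : V →L[𝕜] V) - B) hB)⁻¹ : (V →L[𝕜] V)ˣ), fun z => ?_⟩
  have := congrArg (fun T : V →L[𝕜] V => T z) hu
  exact this

/-- Diagonal factorization on `ℓ^∞(c₀)`. -/
theorem diag_factor (D : ZC 𝕜 →L[𝕜] ZC 𝕜) (δ : ℝ) (hδ : 0 < δ)
    (h : ∀ j q, δ ≤ ‖D (zu 𝕜 j q) j q‖) :
    ∃ I J : ZC 𝕜 →L[𝕜] ZC 𝕜, ∀ z, J (D (I z)) = z := by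
  obtain ⟨e, q, he, hq, hrow, hent⟩ := select_entries D δ hδ
  obtain ⟨I, R, hI, hR, hI1, hI2, hR1⟩ := spread_exists (𝕜 := 𝕜) e q he hq
  set d : ℕ → ℕ → 𝕜 := fun s r => D (zu 𝕜 (e s) (q s r)) (e s) (q s r) with hd
  obtain ⟨Δ, hΔ1, hΔ2⟩ := diag_div d δ hδ (fun s r => h _ _)
  have hd0 : ∀ s r, d s r ≠ 0 := fun s r h0 => by
    have := h (e s) (q s r)
    rw [show D (zu 𝕜 (e s) (q s r)) (e s) (q s r) = d s r from rfl, h0, norm_zero] at this
    linarith
  obtain ⟨J, hJ⟩ := left_inv_of_close (Δ.comp (R.comp (D.comp I))) (by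
    intro z hz
    refine zc_norm_le _ _ (by norm_num) (fun s r => ?_)
    have h1 : ((Δ.comp (R.comp (D.comp I))) z - z : ZC 𝕜) s r =
        (d s r)⁻¹ * (D (I z)) (e s) (q s r) - z s r := by
      show (Δ (R (D (I z)))) s r - z s r = _
      rw [hΔ2, hR1]
    rw [h1]
    -- `w = I z` with the entry `(s, r)` removed
    set w : ZC 𝕜 := I z - z s r • zu 𝕜 (e s) (q s r) with hw
    have hwap : ∀ i k, w i k = I z i k - z s r * zu 𝕜 (e s) (q s r) i k := fun i k => rfl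
    have hw0 : w (e s) (q s r) = 0 := by
      rw [hwap, hI1, zu_apply]
      simp
    have hw1 : ∀ i k, ¬ (i = e s ∧ k = q s r) → w i k = I z i k := by
      intro i k hik
      rw [hwap, zu_apply, if_neg hik]
      simp
    have hIz : ‖I z‖ ≤ 1 := (I.le_of_opNorm_le hI z).trans (by rw [one_mul]; exact hz)
    have hwn : ‖w‖ ≤ 1 := by
      refine zc_norm_le _ _ zero_le_one (fun i k => ?_)
      by_cases hik : i = e s ∧ k = q s r
      · rw [hik.1, hik.2, hw0, norm_zero]; exact zero_le_one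
      · rw [hw1 i k hik]
        exact (zc_apply_le _ _ _).trans hIz
    have hsupp : ∀ i k, w i k ≠ 0 → ∃ s' r', (s', r') ≠ (s, r) ∧ i = e s' ∧ k = q s' r' := by
      intro i k hik
      have h2 : ¬ (i = e s ∧ k = q s r) := by
        rintro ⟨rfl, rfl⟩
        exact hik hw0
      rw [hw1 i k h2] at hik
      have h3 : ∃ s' r', i = e s' ∧ k = q s' r' := by
        by_contra hcon
        exact hik (hI2 z i k hcon)
      obtain ⟨s', r', h4, h5⟩ := h3
      refine ⟨s', r', ?_, h4, h5⟩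
      rintro heq
      obtain ⟨rfl, rfl⟩ := Prod.mk.inj heq
      exact h2 ⟨h4, h5⟩
    have hkey := off_diag_bound ((zev 𝕜 (e s) (q s r)).comp D) e q he hq
      (fun ε hε => hrow (e s) (q s r) ε hε) s r δ hδ
      (fun s' r' hne => hent s r s' r' hne.symm) w hwn hsupp
    have h6 : (D (I z)) (e s) (q s r) = (D w) (e s) (q s r) + z s r * d s r := by
      have h7 : I z = w + z s r • zu 𝕜 (e s) (q s r) := by rw [hw]; abel
      conv_lhs => rw [h7]
      rw [map_add, map_smul]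
      rfl
    rw [h6]
    have h8 : (d s r)⁻¹ * ((D w) (e s) (q s r) + z s r * d s r) - z s r =
        (d s r)⁻¹ * (D w) (e s) (q s r) := by
      field_simp [hd0 s r]
      ring
    rw [h8, norm_mul, norm_inv]
    have h9 : ‖d s r‖⁻¹ ≤ δ⁻¹ := by
      apply inv_anti₀ hδ
      exact h _ _
    calc ‖d s r‖⁻¹ * ‖(D w) (e s) (q s r)‖ ≤ δ⁻¹ * (δ / 2) := by
          gcongr
          exact hkey
      _ = 1 / 2 := by field_simp)
  exact ⟨I, J.comp (Δ.comp R), fun z => hJ z⟩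

end Pool.Agent.Helper67.LInf
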