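import Mathlib

set_option linter.all false

open MeasureTheory Filter Topology

namespace Pool.Agent.Helper67.LInf

universe u v

variable {𝕜 : Type} [RCLike 𝕜]

theorem greedy_card (n m k : ℕ) (hm : 0 < m) :
    ((Finset.range n).filter (fun i => i / m = k)).card ≤ m := by
  have h1 : (Finset.range n).filter (fun i => i / m = k) ⊆ Finset.Ico (k * m) ((k + 1) * m) := by
    intro i hi
    rw [Finset.mem_filter] at hi
    rw [Finset.mem_Ico]
    have h2 := hi.2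
    subst h2
    exact ⟨Nat.div_mul_le_self i m, by
      have := Nat.lt_div_mul_add (a := i) hm
      rw [add_mul, one_mul]; exact this⟩
  have h2 := Finset.card_le_card h1
  rw [Nat.card_Ico, add_mul, one_mul, Nat.add_sub_cancel_left] at h2
  exact h2

theorem greedy_step (ρ : ℕ → ℕ → ℝ) (C η : ℝ) (hη : 0 < η) (hC : 0 < C)
    (hρ : ∀ l i, ρ l i ≤ C * (1 / 2) ^ l) (l : ℕ → ℕ) (hl : StrictMono l)
    (hl2 : ∀ j, C * (1 / 2) ^ l j ≤ η / 2 * (1 / 2) ^ (j + 1))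
    (hsum : ∀ j, η ≤ ∑ i ∈ Finset.range (2 ^ l j), ρ (l j) i) (j : ℕ) (f : ℕ → ℕ) :
    ∃ i, i < 2 ^ l j ∧ η / 2 * (1 / 2) ^ l j ≤ ρ (l j) i ∧ ∀ s < j, i / 2 ^ (l j - l s) ≠ f s := by
  by_contra hcon
  push Not at hcon
  have h1 : ∀ i ∈ Finset.range (2 ^ l j), ρ (l j) i ≤ η / 2 * (1 / 2) ^ l j +
      ∑ s ∈ Finset.range j, (if i / 2 ^ (l j - l s) = f s then C * (1 / 2) ^ l j else 0) := by
    intro i hi
    have hnn : ∀ s ∈ Finset.range j,
        0 ≤ (if i / 2 ^ (l j - l s) = f s then C * (1 / 2 : ℝ) ^ l j else 0) := by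
      intro s _
      split_ifs
      · positivity
      · exact le_rfl
    by_cases hlt : η / 2 * (1 / 2) ^ l j ≤ ρ (l j) i
    · obtain ⟨s, hs, hsi⟩ := hcon i (Finset.mem_range.1 hi) hlt
      have h2 := Finset.single_le_sum hnn (Finset.mem_range.2 hs)
      rw [if_pos hsi] at h2
      have h3 := hρ (l j) i
      have h4 : 0 ≤ η / 2 * (1 / 2 : ℝ) ^ l j := by positivity
      linarith
    · have h2 := Finset.sum_nonneg hnn
      linarith
  have h2 := (hsum j).trans (Finset.sum_le_sum h1)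
  rw [Finset.sum_add_distrib, Finset.sum_const, Finset.card_range, nsmul_eq_mul,
    Finset.sum_comm] at h2
  have hpow : ((2 ^ l j : ℕ) : ℝ) * (1 / 2) ^ l j = 1 := by
    push_cast
    rw [← mul_pow]; norm_num
  have h3 : ∀ s ∈ Finset.range j, ∑ i ∈ Finset.range (2 ^ l j),
      (if i / 2 ^ (l j - l s) = f s then C * (1 / 2 : ℝ) ^ l j else 0) ≤
      η / 2 * (1 / 2) ^ (s + 1) := by
    intro s hs
    rw [← Finset.sum_filter, Finset.sum_const, nsmul_eq_mul]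
    have hcard : (((Finset.range (2 ^ l j)).filter
        (fun i => i / 2 ^ (l j - l s) = f s)).card : ℝ) ≤ 2 ^ (l j - l s) := by
      exact_mod_cast greedy_card (2 ^ l j) (2 ^ (l j - l s)) (f s) (by positivity)
    have h4 : l s < l j := hl (Finset.mem_range.1 hs)
    have h5 : (2 : ℝ) ^ (l j - l s) * (1 / 2) ^ l j = (1 / 2) ^ l s := by
      have e : l j = (l j - l s) + l s := by omega
      conv_lhs => rw [e, pow_add (1 / 2 : ℝ)]
      rw [Nat.add_sub_cancel, ← mul_assoc, ← mul_pow]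
      norm_num
    calc _ ≤ (2 : ℝ) ^ (l j - l s) * (C * (1 / 2) ^ l j) :=
          mul_le_mul_of_nonneg_right hcard (by positivity)
      _ = C * (1 / 2) ^ l s := by rw [← h5]; ring
      _ ≤ _ := hl2 s
  have h4 := Finset.sum_le_sum h3
  have h5 : ∀ m : ℕ, ∑ s ∈ Finset.range m, η / 2 * (1 / 2 : ℝ) ^ (s + 1) =
      η / 2 * (1 - (1 / 2) ^ m) := by
    intro m
    induction m with
    | zero => simp
    | succ m ih => rw [Finset.sum_range_succ, ih, pow_succ]; ring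
  rw [h5] at h4
  have h6 : (0 : ℝ) < (1 / 2) ^ j := by positivity
  have h7 : ((2 ^ l j : ℕ) : ℝ) * (η / 2 * (1 / 2) ^ l j) = η / 2 := by
    rw [mul_comm (η / 2), ← mul_assoc, hpow, one_mul]
  rw [h7] at h2
  nlinarith [mul_pos hη h6]

theorem greedy_disj (L l i k : ℕ) (hlL : l < L) (h : i / 2 ^ (L - l) ≠ k) :
    Disjoint (Set.Ico ((k : ℝ) / 2 ^ l) (((k : ℝ) + 1) / 2 ^ l))
      (Set.Ico ((i : ℝ) / 2 ^ L) (((i : ℝ) + 1) / 2 ^ L)) := by
  have hm : 0 < 2 ^ (L - l) := by positivity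
  have e : (2 : ℝ) ^ L = 2 ^ (L - l) * 2 ^ l := by
    rw [← pow_add]; congr 1; omega
  have hl0 : (0 : ℝ) < 2 ^ l := by positivity
  have hL0 : (0 : ℝ) < 2 ^ L := by positivity
  rcases lt_or_gt_of_ne h with h | h
  · have h1 : i + 1 ≤ k * 2 ^ (L - l) := (Nat.div_lt_iff_lt_mul hm).1 h
    have h2 : (i : ℝ) + 1 ≤ k * 2 ^ (L - l) := by exact_mod_cast h1
    have h3 : ((i : ℝ) + 1) / 2 ^ L ≤ (k : ℝ) / 2 ^ l := by
      rw [div_le_div_iff₀ hL0 hl0, e]
      nlinarith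
    rw [Set.disjoint_left]
    intro x hx hx'
    exact absurd (lt_of_lt_of_le hx'.2 h3) (not_lt.2 hx.1)
  · have h1 : (k + 1) * 2 ^ (L - l) ≤ i := (Nat.le_div_iff_mul_le hm).1 h
    have h2 : ((k : ℝ) + 1) * 2 ^ (L - l) ≤ i := by exact_mod_cast h1
    have h3 : ((k : ℝ) + 1) / 2 ^ l ≤ (i : ℝ) / 2 ^ L := by
      rw [div_le_div_iff₀ hl0 hL0, e]
      nlinarith
    rw [Set.disjoint_left]
    intro x hx hx'
    exact absurd (lt_of_lt_of_le hx.2 h3) (not_lt.2 hx'.1)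

/-- Greedy selection of disjoint dyadic intervals. -/
theorem greedy (ρ : ℕ → ℕ → ℝ) (C η : ℝ) (hη : 0 < η)
    (hρ : ∀ l i, ρ l i ≤ C * (1 / 2) ^ l) (Λ : Set ℕ) (hΛ : Λ.Infinite)
    (hsum : ∀ l ∈ Λ, η ≤ ∑ i ∈ Finset.range (2 ^ l), ρ l i) :
    ∃ l i : ℕ → ℕ, (∀ j, i j < 2 ^ l j) ∧ (∀ j, η / 2 * (1 / 2) ^ l j ≤ ρ (l j) (i j)) ∧
      Pairwise (fun j j' => Disjoint
        (Set.Ico ((i j : ℝ) / 2 ^ l j) (((i j : ℝ) + 1) / 2 ^ l j))
        (Set.Ico ((i j' : ℝ) / 2 ^ l j') (((i j' : ℝ) + 1) / 2 ^ l j'))) := by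
  have hC : 0 < C := by
    obtain ⟨l, hl⟩ := hΛ.nonempty
    have h1 := (hsum l hl).trans (Finset.sum_le_sum fun i _ => hρ l i)
    rw [Finset.sum_const, Finset.card_range, nsmul_eq_mul] at h1
    have h2 : ((2 ^ l : ℕ) : ℝ) * (C * (1 / 2) ^ l) = C := by
      have hpow : ((2 ^ l : ℕ) : ℝ) * (1 / 2) ^ l = 1 := by
        push_cast
        rw [← mul_pow]; norm_num
      rw [mul_comm C, ← mul_assoc, hpow, one_mul]
    linarith
  have hev : ∀ j : ℕ, ∀ᶠ l : ℕ in atTop, C * (1 / 2 : ℝ) ^ l ≤ η / 2 * (1 / 2) ^ (j + 1) := by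
    intro j
    have ht : Tendsto (fun l : ℕ => C * (1 / 2 : ℝ) ^ l) atTop (𝓝 (C * 0)) :=
      (tendsto_pow_atTop_nhds_zero_of_lt_one (by norm_num) (by norm_num)).const_mul C
    rw [mul_zero] at ht
    exact (ht.eventually (eventually_lt_nhds
      (show (0 : ℝ) < η / 2 * (1 / 2) ^ (j + 1) by positivity))).mono fun l hl => hl.le
  have hfr : ∀ j : ℕ, ∃ᶠ l : ℕ in atTop, l ∈ Λ ∧ C * (1 / 2 : ℝ) ^ l ≤ η / 2 * (1 / 2) ^ (j + 1) :=
    fun j => (Nat.frequently_atTop_iff_infinite.2 hΛ).and_eventually (hev j)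
  obtain ⟨l, hl, hlP⟩ := extraction_forall_of_frequently hfr
  have A := greedy_step ρ C η hη hC hρ l hl (fun j => (hlP j).2) (fun j => hsum _ (hlP j).1)
  classical
  set F : (j : ℕ) → ((s : ℕ) → s < j → ℕ) → ℕ := fun j f =>
    Classical.choose (A j (fun s => if h : s < j then f s h else 0)) with hF
  set i : ℕ → ℕ := (Nat.lt_wfRel.wf).fix F with hi
  have hieq : ∀ j, i j = Classical.choose (A j (fun s => if s < j then i s else 0)) := by
    intro j
    rw [hi, WellFounded.fix_eq]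
  have hspec : ∀ j, i j < 2 ^ l j ∧ η / 2 * (1 / 2) ^ l j ≤ ρ (l j) (i j) ∧
      ∀ s < j, i j / 2 ^ (l j - l s) ≠ i s := by
    intro j
    have h1 := Classical.choose_spec (A j (fun s => if s < j then i s else 0))
    rw [← hieq] at h1
    refine ⟨h1.1, h1.2.1, fun s hs => ?_⟩
    have := h1.2.2 s hs
    rwa [if_pos hs] at this
  refine ⟨l, i, fun j => (hspec j).1, fun j => (hspec j).2.1, ?_⟩
  intro j j' hne
  rcases lt_or_gt_of_ne hne with h | h
  · exact greedy_disj _ _ _ _ (hl h) ((hspec j').2.2 j h)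
  · exact (greedy_disj _ _ _ _ (hl h) ((hspec j).2.2 j' h)).symm


/-- Selection of a coordinate and disjoint dyadic intervals, ultrafilter form. -/
theorem selection (U : Ultrafilter ℕ) (b : ℕ → ℕ → ℕ → ℕ → ℝ) (K₁ : ℕ) (C : ℝ)
    (hb0 : ∀ k l i n, 0 ≤ b k l i n) (hb : ∀ k l i n, b k l i n ≤ C * (1 / 2) ^ l)
    (h : ∀ l : ℕ, ∀ᶠ n in (U : Filter ℕ),
      1 / 2 ≤ ∑ k ∈ Finset.range K₁, ∑ i ∈ Finset.range (2 ^ l), b k l i n) :
    ∃ k : ℕ, ∃ δ > (0 : ℝ), ∃ l i : ℕ → ℕ,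
      (∀ j, ∀ᶠ n in (U : Filter ℕ), δ * (1 / 2) ^ l j ≤ b k (l j) (i j) n) ∧
      Pairwise (fun j j' => Disjoint
        (Set.Ico ((i j : ℝ) / 2 ^ l j) (((i j : ℝ) + 1) / 2 ^ l j))
        (Set.Ico ((i j' : ℝ) / 2 ^ l j') (((i j' : ℝ) + 1) / 2 ^ l j'))) := by
  have hlim : ∀ k l i, ∃ r ∈ Set.Icc (0 : ℝ) (C * (1 / 2) ^ l),
      Tendsto (fun n => b k l i n) (U : Filter ℕ) (𝓝 r) := by
    intro k l i
    obtain ⟨r, hr, hle⟩ := (isCompact_Icc (a := (0 : ℝ)) (b := C * (1 / 2) ^ l)).ultrafilter_le_nhds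
      (U.map (fun n => b k l i n)) (by
        rw [le_principal_iff]
        have : ∀ᶠ n in (U : Filter ℕ), b k l i n ∈ Set.Icc (0 : ℝ) (C * (1 / 2) ^ l) :=
          Filter.Eventually.of_forall (fun n => ⟨hb0 k l i n, hb k l i n⟩)
        exact this)
    exact ⟨r, hr, hle⟩
  choose ρ hρm hρt using hlim
  have hsum : ∀ l, 1 / 2 ≤ ∑ k ∈ Finset.range K₁, ∑ i ∈ Finset.range (2 ^ l), ρ k l i := by
    intro l
    refine ge_of_tendsto (f := fun n => ∑ k ∈ Finset.range K₁, ∑ i ∈ Finset.range (2 ^ l), b k l i n)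
      ?_ (h l)
    exact tendsto_finsetSum _ (fun k _ => tendsto_finsetSum _ (fun i _ => hρt k l i))
  have hK : 0 < K₁ := by
    rcases Nat.eq_zero_or_pos K₁ with h0 | h0
    · have := hsum 0
      rw [h0] at this
      norm_num at this
    · exact h0
  have hK' : (0 : ℝ) < K₁ := by exact_mod_cast hK
  set η : ℝ := 1 / (2 * K₁) with hηd
  have hη : 0 < η := by positivity
  have hpig : ∀ l, ∃ k : Fin K₁, η ≤ ∑ i ∈ Finset.range (2 ^ l), ρ k l i := by
    intro l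
    by_contra hcon
    push Not at hcon
    have h1 : ∑ k ∈ Finset.range K₁, ∑ i ∈ Finset.range (2 ^ l), ρ k l i <
        ∑ _k ∈ Finset.range K₁, η := by
      refine Finset.sum_lt_sum_of_nonempty ⟨0, Finset.mem_range.2 hK⟩ (fun k hk => ?_)
      exact hcon ⟨k, Finset.mem_range.1 hk⟩
    rw [Finset.sum_const, Finset.card_range, nsmul_eq_mul] at h1
    have h2 : (K₁ : ℝ) * η = 1 / 2 := by rw [hηd]; field_simp
    rw [h2] at h1
    linarith [hsum l]
  choose kk hkk using hpig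
  obtain ⟨k, hk⟩ := Finite.exists_infinite_fiber kk
  have hΛ : (kk ⁻¹' {k}).Infinite := Set.infinite_coe_iff.1 hk
  obtain ⟨l, i, -, hli, hdis⟩ := greedy (ρ k) C η hη (fun l i => (hρm k l i).2) (kk ⁻¹' {k}) hΛ (by
    intro l hl
    have h1 := hkk l
    have h2 : kk l = k := hl
    rwa [h2] at h1)
  refine ⟨k, η / 4, by positivity, l, i, ?_, hdis⟩
  intro j
  have hpos : (0 : ℝ) < (1 / 2) ^ l j := by positivity
  have hlt : η / 4 * (1 / 2) ^ l j < ρ k (l j) (i j) := by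
    refine lt_of_lt_of_le ?_ (hli j)
    have : 0 < η * (1 / 2) ^ l j := mul_pos hη hpos
    nlinarith
  exact ((hρt k (l j) (i j)).eventually_const_lt hlt).mono (fun n hn => hn.le)

end Pool.Agent.Helper67.LInf
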