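import Mathlib

set_option linter.all false

open MeasureTheory Filter Topology

namespace Pool.Agent.Helper67.LInf

universe u v

variable {𝕜 : Type} [RCLike 𝕜]

theorem sign_lemma {V W : Type*} [AddCommGroup V] [Module 𝕜 V] [AddCommGroup W] [Module 𝕜 W]
    (b : V →ₗ[𝕜] W →ₗ[𝕜] 𝕜) (v : ℕ → V) (w : ℕ → W) (M : ℕ) (c : 𝕜) :
    ∃ θ : ℕ → 𝕜, (∀ i, θ i = 1 ∨ θ i = -1) ∧
      ‖c + ∑ i ∈ Finset.range M, b (v i) (w i)‖ ≤
        ‖c + b (∑ i ∈ Finset.range M, θ i • v i) (∑ i ∈ Finset.range M, θ i • w i)‖ := by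
  induction M generalizing c with
  | zero => exact ⟨fun _ => 1, fun _ => Or.inl rfl, by simp⟩
  | succ M ih =>
    obtain ⟨θ, hθ, h⟩ := ih (c + b (v M) (w M))
    set X := ∑ i ∈ Finset.range M, θ i • v i with hX
    set Y := ∑ i ∈ Finset.range M, θ i • w i with hY
    have key : ∀ t : 𝕜, (t = 1 ∨ t = -1) →
        ‖c + ∑ i ∈ Finset.range (M + 1), b (v i) (w i)‖ ≤ ‖c + b (X + t • v M) (Y + t • w M)‖ →
        ∃ θ : ℕ → 𝕜, (∀ i, θ i = 1 ∨ θ i = -1) ∧
      ‖c + ∑ i ∈ Finset.range (M + 1), b (v i) (w i)‖ ≤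
        ‖c + b (∑ i ∈ Finset.range (M + 1), θ i • v i) (∑ i ∈ Finset.range (M + 1), θ i • w i)‖ := by
      intro t ht hle
      refine ⟨fun i => if i = M then t else θ i, fun i => ?_, ?_⟩
      · by_cases hi : i = M
        · simp [hi, ht]
        · simp [hi, hθ i]
      · have e1 : ∑ i ∈ Finset.range (M + 1), (if i = M then t else θ i) • v i = X + t • v M := by
          rw [Finset.sum_range_succ]
          congr 1
          · refine Finset.sum_congr rfl fun i hi => ?_
            have : i ≠ M := (Finset.mem_range.1 hi).ne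
            simp [this]
          · simp
        have e2 : ∑ i ∈ Finset.range (M + 1), (if i = M then t else θ i) • w i = Y + t • w M := by
          rw [Finset.sum_range_succ]
          congr 1
          · refine Finset.sum_congr rfl fun i hi => ?_
            have : i ≠ M := (Finset.mem_range.1 hi).ne
            simp [this]
          · simp
        rw [e1, e2]
        exact hle
    have hsum : c + ∑ i ∈ Finset.range (M + 1), b (v i) (w i)
        = c + b (v M) (w M) + ∑ i ∈ Finset.range M, b (v i) (w i) := by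
      rw [Finset.sum_range_succ]; ring
    have havg : c + b (v M) (w M) + b X Y =
        (1/2 : 𝕜) * ((c + b (X + (1:𝕜) • v M) (Y + (1:𝕜) • w M))
          + (c + b (X + (-1:𝕜) • v M) (Y + (-1:𝕜) • w M))) := by
      simp only [map_add, map_smul, LinearMap.add_apply, LinearMap.smul_apply, smul_eq_mul]
      ring
    have hn : ‖(1/2 : 𝕜)‖ = 1/2 := by
      simp
    have hle : ‖c + ∑ i ∈ Finset.range (M + 1), b (v i) (w i)‖ ≤
        1/2 * (‖c + b (X + (1:𝕜) • v M) (Y + (1:𝕜) • w M)‖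
          + ‖c + b (X + (-1:𝕜) • v M) (Y + (-1:𝕜) • w M)‖) := by
      rw [hsum]
      refine h.trans ?_
      rw [havg, norm_mul, hn]
      gcongr
      exact norm_add_le _ _
    rcases le_total (‖c + b (X + (1:𝕜) • v M) (Y + (1:𝕜) • w M)‖)
      (‖c + b (X + (-1:𝕜) • v M) (Y + (-1:𝕜) • w M)‖) with h1 | h1
    · exact key (-1) (Or.inr rfl) (by linarith)
    · exact key 1 (Or.inl rfl) (by linarith)

theorem exists_signs (z : ℕ → 𝕜) (K : ℕ) :
    ∃ σ : ℕ → 𝕜, (∀ i, σ i = 1 ∨ σ i = -1) ∧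
      ∑ k ∈ Finset.range K, ‖z k‖ ≤ 2 * ‖∑ k ∈ Finset.range K, σ k * z k‖ := by
  have hnorm : ∀ x : 𝕜, ‖x‖ ≤ |RCLike.re x| + |RCLike.im x| := by
    intro x
    have h1 : ‖x‖ ^ 2 ≤ (|RCLike.re x| + |RCLike.im x|) ^ 2 := by
      rw [RCLike.norm_sq_eq_def]
      have := mul_nonneg (abs_nonneg (RCLike.re x)) (abs_nonneg (RCLike.im x))
      nlinarith [sq_abs (RCLike.re x), sq_abs (RCLike.im x)]
    exact le_of_sq_le_sq h1 (by positivity)
  have hS : ∑ k ∈ Finset.range K, ‖z k‖ ≤ ∑ k ∈ Finset.range K, |RCLike.re (z k)|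
      + ∑ k ∈ Finset.range K, |RCLike.im (z k)| := by
    rw [← Finset.sum_add_distrib]
    exact Finset.sum_le_sum fun k _ => hnorm (z k)
  rcases le_total (∑ k ∈ Finset.range K, |RCLike.re (z k)|)
    (∑ k ∈ Finset.range K, |RCLike.im (z k)|) with h | h
  · refine ⟨fun k => if 0 ≤ RCLike.im (z k) then 1 else -1, fun k => ?_, ?_⟩
    · by_cases hk : 0 ≤ RCLike.im (z k)
      · simp [hk]
      · simp [hk]
    · have e : RCLike.im (∑ k ∈ Finset.range K, (if 0 ≤ RCLike.im (z k) then (1:𝕜) else -1) * z k)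
          = ∑ k ∈ Finset.range K, |RCLike.im (z k)| := by
        rw [map_sum]
        refine Finset.sum_congr rfl fun k _ => ?_
        by_cases hk : 0 ≤ RCLike.im (z k)
        · simp [hk, abs_of_nonneg hk]
        · simp [hk, abs_of_neg (not_le.1 hk)]
      have := RCLike.abs_im_le_norm
        (∑ k ∈ Finset.range K, (if 0 ≤ RCLike.im (z k) then (1:𝕜) else -1) * z k)
      rw [e] at this
      have h3 := le_trans (le_abs_self _) this
      linarith
  · refine ⟨fun k => if 0 ≤ RCLike.re (z k) then 1 else -1, fun k => ?_, ?_⟩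
    · by_cases hk : 0 ≤ RCLike.re (z k)
      · simp [hk]
      · simp [hk]
    · have e : RCLike.re (∑ k ∈ Finset.range K, (if 0 ≤ RCLike.re (z k) then (1:𝕜) else -1) * z k)
          = ∑ k ∈ Finset.range K, |RCLike.re (z k)| := by
        rw [map_sum]
        refine Finset.sum_congr rfl fun k _ => ?_
        by_cases hk : 0 ≤ RCLike.re (z k)
        · simp [hk, abs_of_nonneg hk]
        · simp [hk, abs_of_neg (not_le.1 hk)]
      have := RCLike.abs_re_le_norm
        (∑ k ∈ Finset.range K, (if 0 ≤ RCLike.re (z k) then (1:𝕜) else -1) * z k)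
      rw [e] at this
      have h3 := le_trans (le_abs_self _) this
      linarith

end Pool.Agent.Helper67.LInf
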