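import Mathlib
import Pool.Agent.Helper234.LInf.Defs
import Pool.Agent.Helper234.LInf.Ops
import Pool.Agent.Helper67.LInf.NDefs
import Pool.Agent.Helper67.LInf.NOps
import Pool.Agent.Helper67.LInf.NSign

set_option linter.all false

open MeasureTheory Filter Topology

namespace Pool.Agent.Helper67.LInf

open Pool.Agent.Helper234.LInf

universe u v

variable {𝕜 : Type} [RCLike 𝕜]

variable {Y : Type v} [NormedAddCommGroup Y] [NormedSpace 𝕜 Y]

/-- the integrals of the coordinates -/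
noncomputable def tl836_I (G : ℕ → lp (fun _ : ℕ => Y) ⊤ →L[𝕜] Lp 𝕜 ⊤ I01) (k n : ℕ) (y : Y) : ℝ :=
  ∫ t, ‖G n (lp.single ⊤ k y) t‖ ∂I01

theorem tl836_integrable (f : Lp 𝕜 ⊤ I01) : Integrable (fun t => ‖f t‖) I01 :=
  (memLp_one_iff_integrable.mp ((Lp.memLp f).mono_exponent le_top)).norm

theorem tl836_int_le (f : Lp 𝕜 ⊤ I01) : ∫ t, ‖f t‖ ∂I01 ≤ ‖f‖ := by
  calc ∫ t, ‖f t‖ ∂I01 ≤ ∫ _t, ‖f‖ ∂I01 :=
        integral_mono_ae (tl836_integrable f) (integrable_const _) (lp_ae_le f)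
    _ = ‖f‖ := by simp

theorem tl836_nonneg (G : ℕ → lp (fun _ : ℕ => Y) ⊤ →L[𝕜] Lp 𝕜 ⊤ I01) (k n : ℕ) (y : Y) :
    0 ≤ tl836_I G k n y := integral_nonneg fun _ => norm_nonneg _

theorem tl836_le (G : ℕ → lp (fun _ : ℕ => Y) ⊤ →L[𝕜] Lp 𝕜 ⊤ I01) (C : ℝ) (hG : ∀ n, ‖G n‖ ≤ C)
    (k n : ℕ) (y : Y) : tl836_I G k n y ≤ C * ‖y‖ := by
  refine (tl836_int_le _).trans ?_
  refine ((G n).le_opNorm _).trans ?_
  have h1 : ‖(lp.single ⊤ k y : lp (fun _ : ℕ => Y) ⊤)‖ = ‖y‖ := lp.norm_single (E := fun _ : ℕ => Y) (p := ⊤) ENNReal.zero_lt_top k y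
  rw [h1]
  exact mul_le_mul_of_nonneg_right (hG n) (norm_nonneg _)

theorem tl836_smul (G : ℕ → lp (fun _ : ℕ => Y) ⊤ →L[𝕜] Lp 𝕜 ⊤ I01) (k n : ℕ) (c : 𝕜) (y : Y) :
    tl836_I G k n (c • y) = ‖c‖ * tl836_I G k n y := by
  unfold tl836_I
  rw [← integral_const_mul]
  apply integral_congr_ae
  rw [lp.single_smul, map_smul]
  filter_upwards [Lp.coeFn_smul c (G n (lp.single ⊤ k y))] with t ht
  rw [ht, Pi.smul_apply, norm_smul]

theorem tl836_sum_ae (c : ℕ → 𝕜) (f : ℕ → Lp 𝕜 ⊤ I01) (s : Finset ℕ) :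
    ∀ᵐ t ∂I01, (∑ k ∈ s, c k • f k : Lp 𝕜 ⊤ I01) t = ∑ k ∈ s, c k * f k t := by
  classical
  induction s using Finset.induction_on with
  | empty =>
    filter_upwards [Lp.coeFn_zero 𝕜 ⊤ I01] with t ht
    rw [Finset.sum_empty, Finset.sum_empty, ht]
    rfl
  | insert a s ha ih =>
    filter_upwards [ih, Lp.coeFn_add (c a • f a) (∑ k ∈ s, c k • f k), Lp.coeFn_smul (c a) (f a)]
      with t h1 h2 h3
    rw [Finset.sum_insert ha, Finset.sum_insert ha, h2, Pi.add_apply, h1, h3, Pi.smul_apply,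
      smul_eq_mul]

/-- signs given by a finite set -/
noncomputable def tl836_sg (𝕜 : Type) [RCLike 𝕜] (S : Finset ℕ) (k : ℕ) : 𝕜 :=
  if k ∈ S then 1 else -1

theorem tl836_sg_norm (S : Finset ℕ) (k : ℕ) : ‖tl836_sg 𝕜 S k‖ ≤ 1 := by
  unfold tl836_sg; split_ifs <;> simp

theorem tl836_vec_norm (S : Finset ℕ) (K : ℕ) (y : ℕ → Y) (hy : ∀ k, ‖y k‖ ≤ 1) :
    ‖(∑ k ∈ Finset.range K, tl836_sg 𝕜 S k • (lp.single ⊤ k (y k) : lp (fun _ : ℕ => Y) ⊤))‖
      ≤ 1 := by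
  classical
  apply lp.norm_le_of_forall_le zero_le_one
  intro j
  rw [lp.coeFn_sum, Finset.sum_apply]
  have h1 : ∀ k ∈ Finset.range K, k ≠ j →
      (tl836_sg 𝕜 S k • (lp.single ⊤ k (y k) : lp (fun _ : ℕ => Y) ⊤)) j = 0 := by
    intro k _ hk
    rw [lp.coeFn_smul, Pi.smul_apply, lp.single_apply_ne _ _ _ (Ne.symm hk), smul_zero]
  by_cases hj : j ∈ Finset.range K
  · rw [Finset.sum_eq_single_of_mem j hj h1, lp.coeFn_smul, Pi.smul_apply, lp.single_apply_self,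
      norm_smul]
    exact mul_le_one₀ (tl836_sg_norm S j) (norm_nonneg _) (hy j)
  · rw [Finset.sum_eq_zero]
    · simp
    · intro k hk
      apply h1 k hk
      rintro rfl
      exact hj hk

theorem tl836_sum_le (G : ℕ → lp (fun _ : ℕ => Y) ⊤ →L[𝕜] Lp 𝕜 ⊤ I01) (C : ℝ)
    (hG : ∀ n, ‖G n‖ ≤ C) (n K : ℕ) (y : ℕ → Y) (hy : ∀ k, ‖y k‖ ≤ 1) :
    ∑ k ∈ Finset.range K, tl836_I G k n (y k) ≤ 2 * C := by
  classical
  have hae : ∀ S : Finset ℕ, ∀ᵐ t ∂I01,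
      ‖∑ k ∈ Finset.range K, tl836_sg 𝕜 S k * G n (lp.single ⊤ k (y k)) t‖ ≤ C := by
    intro S
    filter_upwards [tl836_sum_ae (tl836_sg 𝕜 S) (fun k => G n (lp.single ⊤ k (y k)))
      (Finset.range K), lp_ae_le (∑ k ∈ Finset.range K, tl836_sg 𝕜 S k •
        (fun k => G n (lp.single ⊤ k (y k))) k)] with t h1 h2
    rw [← h1]
    refine h2.trans ?_
    have e : (∑ k ∈ Finset.range K, tl836_sg 𝕜 S k • (fun k => G n (lp.single ⊤ k (y k))) k)
        = G n (∑ k ∈ Finset.range K, tl836_sg 𝕜 S k •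
          (lp.single ⊤ k (y k) : lp (fun _ : ℕ => Y) ⊤)) := by
      rw [map_sum]
      apply Finset.sum_congr rfl
      intro k _
      rw [map_smul]
    rw [e]
    refine ((G n).le_opNorm _).trans ?_
    have h3 := tl836_vec_norm (𝕜 := 𝕜) S K y hy
    calc ‖G n‖ * ‖(∑ k ∈ Finset.range K, tl836_sg 𝕜 S k •
          (lp.single ⊤ k (y k) : lp (fun _ : ℕ => Y) ⊤))‖ ≤ C * 1 :=
          mul_le_mul (hG n) h3 (norm_nonneg _) ((norm_nonneg _).trans (hG n))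
      _ = C := mul_one C
  have hae2 := ae_all_iff.2 hae
  have hb : ∀ᵐ t ∂I01, ∑ k ∈ Finset.range K, ‖G n (lp.single ⊤ k (y k)) t‖ ≤ 2 * C := by
    filter_upwards [hae2] with t ht
    obtain ⟨σ, hσ, hle⟩ := exists_signs (fun k => G n (lp.single ⊤ k (y k)) t) K
    refine hle.trans ?_
    have h1 := ht ((Finset.range K).filter (fun k => σ k = 1))
    have e : ∑ k ∈ Finset.range K, tl836_sg 𝕜 ((Finset.range K).filter (fun k => σ k = 1)) k *
        G n (lp.single ⊤ k (y k)) t = ∑ k ∈ Finset.range K, σ k * G n (lp.single ⊤ k (y k)) t := by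
      apply Finset.sum_congr rfl
      intro k hk
      congr 1
      unfold tl836_sg
      by_cases h : σ k = 1
      · rw [if_pos (Finset.mem_filter.2 ⟨hk, h⟩), h]
      · have hk' : k ∉ (Finset.range K).filter (fun k => σ k = 1) :=
          fun h' => h (Finset.mem_filter.1 h').2
        rw [if_neg hk']
        exact ((hσ k).resolve_left h).symm
    rw [e] at h1
    exact mul_le_mul_of_nonneg_left h1 (by norm_num)
  unfold tl836_I
  rw [← integral_finsetSum _ (fun k _ => tl836_integrable _)]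
  calc ∫ t, ∑ k ∈ Finset.range K, ‖G n (lp.single ⊤ k (y k)) t‖ ∂I01
      ≤ ∫ _t, 2 * C ∂I01 := integral_mono_ae
        (integrable_finsetSum _ (fun k _ => tl836_integrable _)) (integrable_const _) hb
    _ = 2 * C := by simp

/-- Uniform summability of the tails. -/
theorem tails (G : ℕ → lp (fun _ : ℕ => Y) ⊤ →L[𝕜] Lp 𝕜 ⊤ I01) (C : ℝ) (hG : ∀ n, ‖G n‖ ≤ C) :
    ∃ τ : ℕ → ℕ → ℝ, (∀ k n, 0 ≤ τ k n) ∧
      (∀ k n (y : Y), ∫ t, ‖G n (lp.single ⊤ k y) t‖ ∂I01 ≤ τ k n * ‖y‖) ∧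
      ∀ n K, ∑ k ∈ Finset.range K, τ k n ≤ 2 * C + 1 := by
  have hC : 0 ≤ C := (norm_nonneg _).trans (hG 0)
  let A : ℕ → ℕ → Set ℝ := fun k n => {r | ∃ y : Y, ‖y‖ ≤ 1 ∧ r = tl836_I G k n y}
  have hne : ∀ k n, (A k n).Nonempty := fun k n => ⟨_, 0, by simp, rfl⟩
  have hbd : ∀ k n, BddAbove (A k n) := by
    intro k n
    refine ⟨C, ?_⟩
    rintro _ ⟨y, hy, rfl⟩
    refine (tl836_le G C hG k n y).trans ?_
    calc C * ‖y‖ ≤ C * 1 := mul_le_mul_of_nonneg_left hy hC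
      _ = C := mul_one C
  have hle : ∀ k n (y : Y), ‖y‖ ≤ 1 → tl836_I G k n y ≤ sSup (A k n) :=
    fun k n y hy => le_csSup (hbd k n) ⟨y, hy, rfl⟩
  have h0 : ∀ k n, 0 ≤ sSup (A k n) := fun k n =>
    (tl836_nonneg G k n 0).trans (hle k n 0 (by simp))
  refine ⟨fun k n => sSup (A k n), h0, ?_, ?_⟩
  · intro k n y
    change tl836_I G k n y ≤ sSup (A k n) * ‖y‖
    rcases eq_or_ne y 0 with rfl | hy
    · have := tl836_le G C hG k n (0 : Y)
      rw [norm_zero, mul_zero] at this ⊢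
      exact this
    · have hy0 : 0 < ‖y‖ := norm_pos_iff.2 hy
      have h1 : ‖((‖y‖ : ℝ) : 𝕜)⁻¹ • y‖ ≤ 1 := by
        rw [norm_smul, norm_inv, RCLike.norm_ofReal, abs_of_pos hy0, inv_mul_cancel₀ hy0.ne']
      have h2 := hle k n _ h1
      rw [tl836_smul, norm_inv, RCLike.norm_ofReal, abs_of_pos hy0, inv_mul_le_iff₀ hy0] at h2
      rw [mul_comm]
      exact h2
  · intro n K
    change ∑ k ∈ Finset.range K, sSup (A k n) ≤ 2 * C + 1
    rcases Nat.eq_zero_or_pos K with rfl | hK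
    · rw [Finset.range_zero, Finset.sum_empty]; linarith
    have hK0 : (0 : ℝ) < K := by exact_mod_cast hK
    have hex : ∀ k, ∃ y : Y, ‖y‖ ≤ 1 ∧ sSup (A k n) - 1 / K < tl836_I G k n y := by
      intro k
      obtain ⟨r, ⟨y, hy, rfl⟩, hr⟩ := exists_lt_of_lt_csSup (hne k n)
        (show sSup (A k n) - 1 / (K : ℝ) < sSup (A k n) by
          have : 0 < 1 / (K : ℝ) := by positivity
          linarith)
      exact ⟨y, hy, hr⟩
    choose y hy1 hy2 using hex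
    have h1 := tl836_sum_le G C hG n K y hy1
    have h2 : ∑ k ∈ Finset.range K, (sSup (A k n) - 1 / (K : ℝ)) ≤
        ∑ k ∈ Finset.range K, tl836_I G k n (y k) := Finset.sum_le_sum fun k _ => (hy2 k).le
    rw [Finset.sum_sub_distrib, Finset.sum_const, Finset.card_range, nsmul_eq_mul,
      mul_one_div_cancel hK0.ne'] at h2
    linarith

end Pool.Agent.Helper67.LInf
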