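import Mathlib
import Pool.Agent.Helper234.LInf.Defs
import Pool.Agent.Helper234.LInf.Ops
import Pool.Agent.Helper67.LInf.NDefs
import Pool.Agent.Helper67.LInf.NOps
import Pool.Agent.Helper67.LInf.NSign
import Pool.Agent.Helper67.LInf.NClaim
import Pool.Agent.Helper67.LInf.NTails

set_option linter.all false

open MeasureTheory Filter Topology

namespace Pool.Agent.Helper67.LInf

open Pool.Agent.Helper234.LInf

universe u v

variable {𝕜 : Type} [RCLike 𝕜]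

variable {Y : Type v} [NormedAddCommGroup Y] [NormedSpace 𝕜 Y]





/-- Dyadic interval indicator. -/
noncomputable def dI (𝕜 : Type) [RCLike 𝕜] (l i : ℕ) : Lp 𝕜 ⊤ I01 :=
  indL 𝕜 (Set.Ico ((i : ℝ) / 2 ^ l) (((i : ℝ) + 1) / 2 ^ l)) measurableSet_Ico

/-- a family of bounded nonnegative sequences with bounded sums has uniformly small tails along an
ultrafilter -/
theorem le_tail (τ : ℕ → ℕ → ℝ) (C : ℝ) (h0 : ∀ k n, 0 ≤ τ k n)
    (h1 : ∀ n K, ∑ k ∈ Finset.range K, τ k n ≤ C) (U : Ultrafilter ℕ) (ε : ℝ) (hε : 0 < ε) :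
    ∃ K₁ : ℕ, ∀ K ≥ K₁, ∀ᶠ n in (U : Filter ℕ), ∑ k ∈ Finset.Ico K₁ K, τ k n < ε := by
  have hb : ∀ k n, τ k n ∈ Set.Icc (0 : ℝ) C := by
    intro k n
    refine ⟨h0 k n, le_trans ?_ (h1 n (k + 1))⟩
    exact Finset.single_le_sum (f := fun k => τ k n) (fun i _ => h0 i n)
      (Finset.mem_range.2 (Nat.lt_succ_self k))
  have hl : ∀ k, ∃ t ∈ Set.Icc (0 : ℝ) C, Tendsto (τ k) (U : Filter ℕ) (𝓝 t) := by
    intro k
    have h2 : ((U.map (τ k) : Ultrafilter ℝ) : Filter ℝ) ≤ 𝓟 (Set.Icc (0 : ℝ) C) := by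
      rw [le_principal_iff]
      change (τ k) ⁻¹' (Set.Icc 0 C) ∈ (U : Filter ℕ)
      exact Filter.univ_mem' (fun n => hb k n)
    obtain ⟨t, ht, h3⟩ := isCompact_iff_ultrafilter_le_nhds.1 isCompact_Icc _ h2
    exact ⟨t, ht, h3⟩
  choose t ht htl using hl
  have hsum : ∀ K, ∑ k ∈ Finset.range K, t k ≤ C := by
    intro K
    have h2 : Tendsto (fun n => ∑ k ∈ Finset.range K, τ k n) (U : Filter ℕ)
        (𝓝 (∑ k ∈ Finset.range K, t k)) := tendsto_finsetSum _ (fun k _ => htl k)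
    exact le_of_tendsto h2 (Eventually.of_forall (fun n => h1 n K))
  have hs : Summable t := summable_of_sum_range_le (fun k => (ht k).1) hsum
  have h3 := hs.hasSum.tendsto_sum_nat
  have h4 : ∀ᶠ K in atTop, (∑' k, t k) - ε < ∑ k ∈ Finset.range K, t k :=
    h3.eventually (lt_mem_nhds (by linarith))
  obtain ⟨K₁, hK₁⟩ := h4.exists
  refine ⟨K₁, fun K hK => ?_⟩
  have h5 : ∑ k ∈ Finset.Ico K₁ K, t k < ε := by
    have h6 := hs.sum_le_tsum (Finset.range K) (fun k _ => (ht k).1)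
    have h7 := Finset.sum_range_add_sum_Ico t hK
    linarith
  have h6 : Tendsto (fun n => ∑ k ∈ Finset.Ico K₁ K, τ k n) (U : Filter ℕ)
      (𝓝 (∑ k ∈ Finset.Ico K₁ K, t k)) := tendsto_finsetSum _ (fun k _ => htl k)
  exact h6.eventually (gt_mem_nhds h5)

theorem le_floor (l : ℕ) {t : ℝ} (ht : 0 ≤ t) (i : ℕ) :
    t ∈ Set.Ico ((i : ℝ) / 2 ^ l) (((i : ℝ) + 1) / 2 ^ l) ↔ i = ⌊t * 2 ^ l⌋₊ := by
  have h2 : (0 : ℝ) < 2 ^ l := by positivity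
  rw [eq_comm, Nat.floor_eq_iff (by positivity), Set.mem_Ico, div_le_iff₀ h2, lt_div_iff₀ h2]

theorem le_I01_mem : ∀ᵐ t ∂I01, t ∈ Set.Icc (0 : ℝ) 1 := by
  unfold I01
  exact ae_restrict_mem measurableSet_Icc

/-- norm of a signed sum of dyadic indicators -/
theorem le_norm_f (l : ℕ) (θ : ℕ → 𝕜) (hθ : ∀ i, θ i = 1 ∨ θ i = -1) (M : ℕ) :
    ‖∑ i ∈ Finset.range M, θ i • dI 𝕜 l i‖ ≤ 1 := by
  refine lp_norm_le zero_le_one ?_
  have h1 : ∀ i, ∀ᵐ t ∂I01, (θ i • dI 𝕜 l i : Lp 𝕜 ⊤ I01) t =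
      θ i * (Set.Ico ((i : ℝ) / 2 ^ l) (((i : ℝ) + 1) / 2 ^ l)).indicator (fun _ => (1 : 𝕜)) t := by
    intro i
    filter_upwards [Lp.coeFn_smul (θ i) (dI 𝕜 l i),
      indL_ae (𝕜 := 𝕜) (Set.Ico ((i : ℝ) / 2 ^ l) (((i : ℝ) + 1) / 2 ^ l)) measurableSet_Ico]
      with t h2 h3
    rw [h2, Pi.smul_apply, smul_eq_mul]
    congr 1
  have h2 : ∀ᵐ t ∂I01, ∀ i, (θ i • dI 𝕜 l i : Lp 𝕜 ⊤ I01) t =
      θ i * (Set.Ico ((i : ℝ) / 2 ^ l) (((i : ℝ) + 1) / 2 ^ l)).indicator (fun _ => (1 : 𝕜)) t :=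
    ae_all_iff.2 h1
  filter_upwards [h2, le_I01_mem, Lp.coeFn_finsetSum (Finset.range M)
    (fun i => θ i • dI 𝕜 l i)] with t h3 h4 h5
  rw [h5, Finset.sum_apply]
  refine (norm_sum_le _ _).trans ?_
  have h6 : ∀ i ∈ Finset.range M, ‖(θ i • dI 𝕜 l i : Lp 𝕜 ⊤ I01) t‖ ≤
      if i = ⌊t * 2 ^ l⌋₊ then 1 else 0 := by
    intro i _
    rw [h3 i]
    split_ifs with h7
    · rw [Set.indicator_of_mem ((le_floor l h4.1 i).2 h7), mul_one]
      rcases hθ i with h | h <;> rw [h] <;> simp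
    · rw [Set.indicator_of_notMem (fun h => h7 ((le_floor l h4.1 i).1 h)), mul_zero, norm_zero]
  refine (Finset.sum_le_sum h6).trans ?_
  rw [Finset.sum_ite_eq' (Finset.range M)]
  split_ifs <;> norm_num

theorem le_prL_self (l i : ℕ) (hi : i < 2 ^ l) :
    prL (dI 𝕜 l i) (dI 𝕜 l i) = ((1 / 2 ^ l : ℝ) : 𝕜) := by
  rw [prL_apply]
  have h1 : ∫ t, dI 𝕜 l i t * dI 𝕜 l i t ∂I01 =
      ∫ t, (Set.Ico ((i : ℝ) / 2 ^ l) (((i : ℝ) + 1) / 2 ^ l)).indicator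
        (fun _ => (1 : 𝕜)) t ∂I01 := by
    refine integral_congr_ae ?_
    filter_upwards [indL_ae (𝕜 := 𝕜) (Set.Ico ((i : ℝ) / 2 ^ l) (((i : ℝ) + 1) / 2 ^ l))
      measurableSet_Ico] with t h3
    have h4 : dI 𝕜 l i t = (Set.Ico ((i : ℝ) / 2 ^ l) (((i : ℝ) + 1) / 2 ^ l)).indicator
        (fun _ => (1 : 𝕜)) t := h3
    rw [h4]
    by_cases h : t ∈ Set.Ico ((i : ℝ) / 2 ^ l) (((i : ℝ) + 1) / 2 ^ l)
    · rw [Set.indicator_of_mem h, one_mul]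
    · rw [Set.indicator_of_notMem h, zero_mul]
  rw [h1, integral_indicator_const _ measurableSet_Ico]
  have h2 : (0 : ℝ) < 2 ^ l := by positivity
  have h3 : I01.real (Set.Ico ((i : ℝ) / 2 ^ l) (((i : ℝ) + 1) / 2 ^ l)) = 1 / 2 ^ l := by
    unfold I01
    rw [measureReal_restrict_apply measurableSet_Ico, Set.inter_eq_self_of_subset_left]
    · rw [Real.volume_real_Ico_of_le (by gcongr; linarith)]
      field_simp
      ring
    · intro t ht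
      refine ⟨le_trans (by positivity) ht.1, ht.2.le.trans ?_⟩
      rw [div_le_one h2]
      exact_mod_cast hi
  rw [h3, RCLike.real_smul_eq_coe_mul, mul_one]

theorem le_prL_bound (f g : Lp 𝕜 ⊤ I01) (hf : ‖f‖ ≤ 1) : ‖prL f g‖ ≤ ∫ t, ‖g t‖ ∂I01 := by
  rw [prL_apply]
  refine norm_integral_le_of_norm_le
    (memLp_one_iff_integrable.mp ((Lp.memLp g).mono_exponent le_top)).norm ?_
  filter_upwards [lp_ae_le f] with t ht
  rw [norm_mul]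
  exact mul_le_of_le_one_left (norm_nonneg _) (ht.trans hf)

theorem le_prL_comm (f g : Lp 𝕜 ⊤ I01) : prL f g = prL g f := by
  rw [prL_apply, prL_apply]
  exact integral_congr_ae (Eventually.of_forall fun t => mul_comm _ _)

/-- the tail bilinear form -/
noncomputable def le_b {Y : Type v} [NormedAddCommGroup Y] [NormedSpace 𝕜 Y]
    (T : Lp (c0 𝕜) ⊤ I01 →L[𝕜] lp (fun _ : ℕ => Y) ⊤)
    (G : ℕ → lp (fun _ : ℕ => Y) ⊤ →L[𝕜] Lp 𝕜 ⊤ I01) (n : ℕ) (s : Finset ℕ) :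
    Lp 𝕜 ⊤ I01 →ₗ[𝕜] Lp 𝕜 ⊤ I01 →ₗ[𝕜] 𝕜 :=
  LinearMap.mk₂ 𝕜 (fun h φ => ∑ k ∈ s, bk T G h φ k n)
    (by
      intro h h' φ
      rw [← Finset.sum_add_distrib]
      refine Finset.sum_congr rfl fun k _ => ?_
      unfold bk
      rw [le_prL_comm, map_add, le_prL_comm, le_prL_comm _ h'])
    (by
      intro c h φ
      rw [Finset.smul_sum]
      refine Finset.sum_congr rfl fun k _ => ?_
      unfold bk
      rw [le_prL_comm, map_smul, le_prL_comm])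
    (by
      intro h φ φ'
      rw [← Finset.sum_add_distrib]
      refine Finset.sum_congr rfl fun k _ => ?_
      unfold bk
      rw [map_add, map_add, lp.coeFn_add, Pi.add_apply, lp.single_add, map_add, map_add])
    (by
      intro c h φ
      rw [Finset.smul_sum]
      refine Finset.sum_congr rfl fun k _ => ?_
      unfold bk
      rw [map_smul, map_smul, lp.coeFn_smul, Pi.smul_apply, lp.single_smul, map_smul, map_smul])

/-- Level estimate. -/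
theorem level_estimate (T : Lp (c0 𝕜) ⊤ I01 →L[𝕜] lp (fun _ : ℕ => Y) ⊤)
    (G : ℕ → lp (fun _ : ℕ => Y) ⊤ →L[𝕜] Lp 𝕜 ⊤ I01) (C : ℝ) (hG : ∀ n, ‖G n‖ ≤ C)
    (H1 : ∀ z h, Tendsto (fun n => prL h (G n z)) atTop (𝓝 0))
    (H2 : ∀ n φ, G n (T (un n φ)) = φ) (U : Ultrafilter ℕ) (hU : (U : Filter ℕ) ≤ atTop) :
    ∃ K₁ : ℕ, ∀ l : ℕ, ∀ᶠ n in (U : Filter ℕ),
      1 / 2 ≤ ∑ k ∈ Finset.range K₁, ∑ i ∈ Finset.range (2 ^ l),
        ‖bk T G (dI 𝕜 l i) (dI 𝕜 l i) k n‖ := by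
  obtain ⟨τ, hτ0, hτ1, hτ2⟩ := tails G C hG
  have hT0 : 0 ≤ ‖T‖ := norm_nonneg T
  obtain ⟨K₁, hK₁⟩ := le_tail τ (2 * C + 1) hτ0 hτ2 U (1 / (8 * (‖T‖ + 1))) (by positivity)
  refine ⟨K₁, fun l => ?_⟩
  have hA := fun i : ℕ => claimA T G C hG H1 H2 (dI 𝕜 l i) (dI 𝕜 l i) (1 / (8 * 2 ^ l))
    (by positivity)
  choose K₀ hK₀ using hA
  obtain ⟨K, hKdef⟩ : ∃ K : ℕ, K = max K₁ ((Finset.range (2 ^ l)).sup K₀) := ⟨_, rfl⟩
  have hKK₁ : K₁ ≤ K := by rw [hKdef]; exact le_max_left _ _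
  have hKK₀ : ∀ i ∈ Finset.range (2 ^ l), K₀ i ≤ K := by
    intro i hi
    rw [hKdef]
    exact (Finset.le_sup (f := K₀) hi).trans (le_max_right _ _)
  have hev : ∀ᶠ n in (U : Filter ℕ), ∀ i ∈ Finset.range (2 ^ l),
      ‖prL (dI 𝕜 l i) (dI 𝕜 l i) - ∑ k ∈ Finset.range K, bk T G (dI 𝕜 l i) (dI 𝕜 l i) k n‖ ≤
        1 / (8 * 2 ^ l) := by
    rw [Filter.eventually_all_finset]
    intro i hi
    exact hU (hK₀ i K (hKK₀ i hi))
  filter_upwards [hev, hK₁ K hKK₁] with n h1 h2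
  -- the tail
  obtain ⟨θ, hθ, h3⟩ := sign_lemma (le_b T G n (Finset.Ico K₁ K)) (fun i => dI 𝕜 l i)
    (fun i => dI 𝕜 l i) (2 ^ l) 0
  rw [zero_add, zero_add] at h3
  obtain ⟨f, hf⟩ : ∃ f : Lp 𝕜 ⊤ I01, f = ∑ i ∈ Finset.range (2 ^ l), θ i • dI 𝕜 l i := ⟨_, rfl⟩
  rw [← hf] at h3
  have hfn : ‖f‖ ≤ 1 := by rw [hf]; exact le_norm_f l θ hθ _
  have h4 : ‖le_b T G n (Finset.Ico K₁ K) f f‖ ≤ 1 / 8 := by
    have h5 : le_b T G n (Finset.Ico K₁ K) f f = ∑ k ∈ Finset.Ico K₁ K, bk T G f f k n := rfl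
    rw [h5]
    refine (norm_sum_le _ _).trans ?_
    have h6 : ∀ k ∈ Finset.Ico K₁ K, ‖bk T G f f k n‖ ≤ τ k n * ‖T‖ := by
      intro k _
      unfold bk
      refine (le_prL_bound f _ hfn).trans ((hτ1 k n _).trans ?_)
      refine mul_le_mul_of_nonneg_left ?_ (hτ0 k n)
      refine (lp.norm_apply_le_norm (by simp) (T (un n f)) k).trans ?_
      refine (T.le_opNorm _).trans ?_
      refine mul_le_of_le_one_right hT0 ?_
      refine ((un n : Lp 𝕜 ⊤ I01 →L[𝕜] Lp (c0 𝕜) ⊤ I01).le_opNorm f).trans ?_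
      exact mul_le_one₀ (un_norm_le n) (norm_nonneg _) hfn
    refine (Finset.sum_le_sum h6).trans ?_
    rw [← Finset.sum_mul]
    have h7 : (∑ k ∈ Finset.Ico K₁ K, τ k n) * ‖T‖ ≤ 1 / (8 * (‖T‖ + 1)) * ‖T‖ :=
      mul_le_mul_of_nonneg_right h2.le hT0
    refine h7.trans ?_
    rw [div_mul_eq_mul_div, div_le_div_iff₀ (by positivity) (by norm_num)]
    linarith
  have h5 : ‖∑ i ∈ Finset.range (2 ^ l), ∑ k ∈ Finset.Ico K₁ K,
      bk T G (dI 𝕜 l i) (dI 𝕜 l i) k n‖ ≤ 1 / 8 := h3.trans h4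
  -- the main part
  have h2l : (0 : ℝ) < 2 ^ l := by positivity
  have h6 : ‖∑ i ∈ Finset.range (2 ^ l), (prL (dI 𝕜 l i) (dI 𝕜 l i) -
      ∑ k ∈ Finset.range K, bk T G (dI 𝕜 l i) (dI 𝕜 l i) k n)‖ ≤ 1 / 8 := by
    refine (norm_sum_le _ _).trans ((Finset.sum_le_sum h1).trans ?_)
    rw [Finset.sum_const, Finset.card_range, nsmul_eq_mul]
    push_cast
    rw [mul_one_div, div_le_div_iff₀ (by positivity) (by norm_num)]
    linarith
  have h7 : ∑ i ∈ Finset.range (2 ^ l), prL (dI 𝕜 l i) (dI 𝕜 l i) = (1 : 𝕜) := by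
    rw [Finset.sum_congr rfl (fun i hi => le_prL_self l i (Finset.mem_range.1 hi)),
      Finset.sum_const, Finset.card_range, nsmul_eq_mul]
    push_cast
    have : (2 : 𝕜) ^ l ≠ 0 := pow_ne_zero _ two_ne_zero
    field_simp
  have h8 : (1 : 𝕜) = ∑ i ∈ Finset.range (2 ^ l), (prL (dI 𝕜 l i) (dI 𝕜 l i) -
      ∑ k ∈ Finset.range K, bk T G (dI 𝕜 l i) (dI 𝕜 l i) k n) +
      (∑ i ∈ Finset.range (2 ^ l), ∑ k ∈ Finset.range K₁,
        bk T G (dI 𝕜 l i) (dI 𝕜 l i) k n +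
      ∑ i ∈ Finset.range (2 ^ l), ∑ k ∈ Finset.Ico K₁ K,
        bk T G (dI 𝕜 l i) (dI 𝕜 l i) k n) := by
    rw [Finset.sum_sub_distrib, h7, ← Finset.sum_add_distrib]
    have : ∀ i, ∑ k ∈ Finset.range K₁, bk T G (dI 𝕜 l i) (dI 𝕜 l i) k n +
        ∑ k ∈ Finset.Ico K₁ K, bk T G (dI 𝕜 l i) (dI 𝕜 l i) k n =
        ∑ k ∈ Finset.range K, bk T G (dI 𝕜 l i) (dI 𝕜 l i) k n := fun i =>
      Finset.sum_range_add_sum_Ico _ hKK₁
    simp only [this]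
    ring
  have h9 : (1 : ℝ) ≤ 1 / 8 + (‖∑ i ∈ Finset.range (2 ^ l), ∑ k ∈ Finset.range K₁,
        bk T G (dI 𝕜 l i) (dI 𝕜 l i) k n‖ + 1 / 8) := by
    have h10 := congrArg norm h8
    rw [norm_one] at h10
    refine h10.le.trans ?_
    refine (norm_add_le _ _).trans (add_le_add h6 ((norm_add_le _ _).trans ?_))
    exact add_le_add le_rfl h5
  have h10 : ‖∑ i ∈ Finset.range (2 ^ l), ∑ k ∈ Finset.range K₁,
        bk T G (dI 𝕜 l i) (dI 𝕜 l i) k n‖ ≤ ∑ k ∈ Finset.range K₁, ∑ i ∈ Finset.range (2 ^ l),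
        ‖bk T G (dI 𝕜 l i) (dI 𝕜 l i) k n‖ := by
    rw [Finset.sum_comm]
    refine (norm_sum_le _ _).trans (Finset.sum_le_sum fun k _ => norm_sum_le _ _)
  linarith

end Pool.Agent.Helper67.LInf
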