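import Mathlib
import Pool.Agent.Helper234.LInf.Defs
import Pool.Agent.Helper234.LInf.Ops
import Pool.Agent.Helper67.LInf.NDefs
import Pool.Agent.Helper67.LInf.NOps
import Pool.Agent.Helper67.LInf.Basic
import Pool.Agent.Helper67.LInf.NSign
import Pool.Agent.Helper67.LInf.NGreedy
import Pool.Agent.Helper67.LInf.NClaim
import Pool.Agent.Helper67.LInf.NTails
import Pool.Agent.Helper67.LInf.NLevel
import Pool.Agent.Helper67.LInf.NSigma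
import Pool.Agent.Helper67.LInf.NDiag

set_option linter.all false

open MeasureTheory Filter Topology

namespace Pool.Agent.Helper67.LInf

open Pool.Agent.Helper234.LInf

universe u v

variable {𝕜 : Type} [RCLike 𝕜]

section core

variable {Y : Type v} [NormedAddCommGroup Y] [NormedSpace 𝕜 Y]

theorem prL_dI_le (l i : ℕ) (g : Lp 𝕜 ⊤ I01) : ‖prL (dI 𝕜 l i) g‖ ≤ (1 / 2) ^ l * ‖g‖ := by
  set D : Set ℝ := Set.Ico ((i : ℝ) / 2 ^ l) (((i : ℝ) + 1) / 2 ^ l) with hD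
  have hDm : MeasurableSet D := measurableSet_Ico
  have h1 : prL (dI 𝕜 l i) g = ∫ t in D, g t ∂I01 := by
    rw [prL_apply, ← integral_indicator hDm]
    refine integral_congr_ae ?_
    filter_upwards [indL_ae (𝕜 := 𝕜) D hDm] with t ht
    show indL 𝕜 D measurableSet_Ico t * g t = _
    rw [ht]
    by_cases h : t ∈ D <;> simp [h]
  rw [h1]
  refine (norm_setIntegral_le_of_norm_le_const_ae' (C := ‖g‖) (measure_lt_top _ _) ?_).trans ?_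
  · filter_upwards [lp_ae_le g] with t ht _ using ht
  · rw [mul_comm]
    gcongr
    rw [Measure.real]
    refine ENNReal.toReal_le_of_le_ofReal (by positivity) ?_
    refine (Measure.restrict_apply_le _ _).trans ?_
    rw [hD, Real.volume_Ico]
    apply ENNReal.ofReal_le_ofReal
    apply le_of_eq
    rw [one_div, inv_pow]
    field_simp
    ring

theorem norm_indL_le (s : Set ℝ) (hs : MeasurableSet s) : ‖indL 𝕜 s hs‖ ≤ 1 := by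
  refine lp_norm_le zero_le_one ?_
  filter_upwards [indL_ae (𝕜 := 𝕜) s hs] with t ht
  rw [ht]
  by_cases h : t ∈ s <;> simp [h]

theorem un_apply_le (n : ℕ) (φ : Lp 𝕜 ⊤ I01) : ‖(un n φ : Lp (c0 𝕜) ⊤ I01)‖ ≤ ‖φ‖ := by
  have h := (un n : Lp 𝕜 ⊤ I01 →L[𝕜] Lp (c0 𝕜) ⊤ I01).le_of_opNorm_le (un_norm_le n) φ
  rwa [one_mul] at h

theorem coord_le (T : Lp (c0 𝕜) ⊤ I01 →L[𝕜] lp (fun _ : ℕ => Y) ⊤) (x : Lp (c0 𝕜) ⊤ I01) (k : ℕ) :
    ‖T x k‖ ≤ ‖T‖ * ‖x‖ :=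
  (lp.norm_apply_le_norm (by simp) (T x) k).trans (T.le_opNorm x)

theorem G_single_le (G : ℕ → lp (fun _ : ℕ => Y) ⊤ →L[𝕜] Lp 𝕜 ⊤ I01) (C : ℝ)
    (hG : ∀ n, ‖G n‖ ≤ C) (n k : ℕ) (y : Y) :
    ‖G n (lp.single ⊤ k y)‖ ≤ C * ‖y‖ := by
  have h := (G n).le_of_opNorm_le (hG n) (lp.single ⊤ k y)
  rwa [lp.norm_single (by simp)] at h

theorem bk_bound (T : Lp (c0 𝕜) ⊤ I01 →L[𝕜] lp (fun _ : ℕ => Y) ⊤)
    (G : ℕ → lp (fun _ : ℕ => Y) ⊤ →L[𝕜] Lp 𝕜 ⊤ I01) (C : ℝ) (hG : ∀ n, ‖G n‖ ≤ C)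
    (l i k n : ℕ) : ‖bk T G (dI 𝕜 l i) (dI 𝕜 l i) k n‖ ≤ C * ‖T‖ * (1 / 2) ^ l := by
  have hC : 0 ≤ C := (norm_nonneg _).trans (hG 0)
  have h1 : ‖T (un n (dI 𝕜 l i)) k‖ ≤ ‖T‖ := by
    refine (coord_le T _ k).trans ?_
    have h2 : ‖(un n (dI 𝕜 l i) : Lp (c0 𝕜) ⊤ I01)‖ ≤ 1 :=
      (un_apply_le n _).trans (norm_indL_le _ _)
    calc ‖T‖ * ‖(un n (dI 𝕜 l i) : Lp (c0 𝕜) ⊤ I01)‖ ≤ ‖T‖ * 1 :=
          mul_le_mul_of_nonneg_left h2 T.opNorm_nonneg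
      _ = ‖T‖ := mul_one _
  have h3 := G_single_le G C hG n k (T (un n (dI 𝕜 l i)) k)
  have h4 := prL_dI_le l i (G n (lp.single ⊤ k (T (un n (dI 𝕜 l i)) k)))
  unfold bk
  refine h4.trans ?_
  rw [mul_comm]
  refine mul_le_mul_of_nonneg_right ?_ (by positivity)
  exact h3.trans (mul_le_mul_of_nonneg_left h1 hC)

theorem core_N (T : Lp (c0 𝕜) ⊤ I01 →L[𝕜] lp (fun _ : ℕ => Y) ⊤)
    (G : ℕ → lp (fun _ : ℕ => Y) ⊤ →L[𝕜] Lp 𝕜 ⊤ I01) (C : ℝ) (hG : ∀ n, ‖G n‖ ≤ C)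
    (H1 : ∀ z h, Tendsto (fun n => prL h (G n z)) atTop (𝓝 0))
    (H2 : ∀ n φ, G n (T (un n φ)) = φ) : ContainsComplZC 𝕜 Y := by
  obtain ⟨K₁, hK₁⟩ := level_estimate T G C hG H1 H2 (hyperfilter ℕ) (by
    rw [← Nat.cofinite_eq_atTop]; exact Filter.hyperfilter_le_cofinite)
  obtain ⟨k, δ, hδ, l, i, hb, hdisj⟩ := selection (hyperfilter ℕ)
    (fun k l i n => ‖bk T G (dI 𝕜 l i) (dI 𝕜 l i) k n‖) K₁ (C * ‖T‖)
    (fun _ _ _ _ => norm_nonneg _) (fun k l i n => bk_bound T G C hG l i k n) hK₁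
  have hinf : ∀ j, {n | δ * (1 / 2) ^ l j ≤ ‖bk T G (dI 𝕜 (l j) (i j)) (dI 𝕜 (l j) (i j)) k n‖}.Infinite := by
    intro j
    have h1 := hb j
    by_contra hfin
    rw [Set.not_infinite] at hfin
    have h2 : ∀ᶠ n in (hyperfilter ℕ : Filter ℕ), n ∉ {n | δ * (1 / 2) ^ l j ≤
        ‖bk T G (dI 𝕜 (l j) (i j)) (dI 𝕜 (l j) (i j)) k n‖} := by
      exact Filter.hyperfilter_le_cofinite hfin.compl_mem_cofinite
    obtain ⟨n, hn1, hn2⟩ := (h1.and h2).exists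
    exact hn2 hn1
  set ν : ℕ → ℕ → ℕ := fun j => Nat.nth (fun n => n ∈ {n | δ * (1 / 2) ^ l j ≤
    ‖bk T G (dI 𝕜 (l j) (i j)) (dI 𝕜 (l j) (i j)) k n‖}) with hν
  have hνmono : ∀ j, StrictMono (ν j) := fun j => Nat.nth_strictMono (hinf j)
  have hνmem : ∀ j q, δ * (1 / 2) ^ l j ≤
      ‖bk T G (dI 𝕜 (l j) (i j)) (dI 𝕜 (l j) (i j)) k (ν j q)‖ := fun j q =>
    Nat.nth_mem_of_infinite (hinf j) q
  obtain ⟨S, hS⟩ := exists_sigma (𝕜 := 𝕜)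
    (fun j => Set.Ico ((i j : ℝ) / 2 ^ l j) (((i j : ℝ) + 1) / 2 ^ l j))
    (fun j => measurableSet_Ico) hdisj ν hνmono
  -- the coordinate functionals
  have hC : 0 ≤ C := (norm_nonneg _).trans (hG 0)
  let g : ℕ → ℕ → Y →L[𝕜] 𝕜 := fun j q =>
    ((2 : 𝕜) ^ l j) • (prL (dI 𝕜 (l j) (i j))).comp ((G (ν j q)).comp
      (lp.singleContinuousLinearMap 𝕜 (fun _ : ℕ => Y) ⊤ k))
  have hg : ∀ j q y, g j q y = (2 : 𝕜) ^ l j *
      prL (dI 𝕜 (l j) (i j)) (G (ν j q) (lp.single ⊤ k y)) := fun j q y => rfl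
  have hgb : ∀ j q y, ‖g j q y‖ ≤ C * ‖y‖ := by
    intro j q y
    rw [hg, norm_mul, norm_pow]
    have h2 : ‖(2 : 𝕜)‖ = 2 := by simp
    rw [h2]
    calc (2 : ℝ) ^ l j * ‖prL (dI 𝕜 (l j) (i j)) (G (ν j q) (lp.single ⊤ k y))‖
        ≤ 2 ^ l j * ((1 / 2) ^ l j * (C * ‖y‖)) := by
          gcongr
          refine (prL_dI_le _ _ _).trans ?_
          gcongr
          refine ((G _).le_of_opNorm_le (hG _) _).trans ?_
          rw [lp.norm_single (by simp)]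
      _ = (2 * (1 / 2)) ^ l j * (C * ‖y‖) := by rw [mul_pow]; ring
      _ = C * ‖y‖ := by norm_num
  have hg0 : ∀ j y, Tendsto (fun q => g j q y) atTop (𝓝 0) := by
    intro j y
    have h1 := (H1 (lp.single ⊤ k y) (dI 𝕜 (l j) (i j))).comp (hνmono j).tendsto_atTop
    have h2 := h1.const_mul ((2 : 𝕜) ^ l j)
    rw [mul_zero] at h2
    exact h2
  let R : Y →L[𝕜] ZC 𝕜 := toZC g C hgb hg0
  let ev : lp (fun _ : ℕ => Y) ⊤ →L[𝕜] Y := evalL 𝕜 Y k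
  let Sg : ZC 𝕜 →L[𝕜] Y := ev.comp (T.comp S)
  obtain ⟨I, J, hIJ⟩ := diag_factor (R.comp Sg) δ hδ (by
    intro j q
    have h1 : (R.comp Sg) (zu 𝕜 j q) j q = (2 : 𝕜) ^ l j *
        bk T G (dI 𝕜 (l j) (i j)) (dI 𝕜 (l j) (i j)) k (ν j q) := by
      show g j q (T (S (zu 𝕜 j q)) k) = _
      rw [hS, hg]
      rfl
    rw [h1, norm_mul, norm_pow]
    have h2 : ‖(2 : 𝕜)‖ = 2 := by simp
    rw [h2]
    calc δ = 2 ^ l j * (δ * (1 / 2) ^ l j) := by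
          have : (2 : ℝ) ^ l j * (1 / 2) ^ l j = 1 := by rw [← mul_pow]; norm_num
          calc δ = δ * (2 ^ l j * (1 / 2) ^ l j) := by rw [this, mul_one]
            _ = _ := by ring
      _ ≤ _ := by gcongr; exact hνmem j q)
  refine ⟨Sg.comp I, J.comp R, fun z => ?_⟩
  exact hIJ z

end core

end Pool.Agent.Helper67.LInf
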