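import Mathlib
import Pool.Agent.Helper234.LInf.Defs
import Pool.Agent.Helper234.LInf.Ops
import Pool.Agent.Helper234.LInf.Rad
import Pool.Agent.Helper67.LInf.Basic
import Pool.Agent.Helper67.LInf.NDefs
import Pool.Agent.Helper67.LInf.NOps

open MeasureTheory Filter Topology

namespace Pool.Agent.Helper67.LInf

open Pool.Agent.Helper234.LInf

universe u v

variable {𝕜 : Type} [RCLike 𝕜] {X : Type u} [NormedAddCommGroup X] [NormedSpace 𝕜 X]

/-- Coordinate functional on `c₀`. -/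
noncomputable def cev (𝕜 : Type) [RCLike 𝕜] (n : ℕ) : c0 𝕜 →L[𝕜] 𝕜 :=
  LinearMap.mkContinuous
    { toFun := fun z => z n
      map_add' := fun v w => by simp
      map_smul' := fun c v => by simp } 1 (fun z => by
        rw [one_mul]
        exact c0_apply_le z n)

theorem coord_functionals (V : c0 𝕜 →L[𝕜] X) (c : ℝ) (hc : 0 < c)
    (hV : ∀ y, c * ‖y‖ ≤ ‖V y‖) :
    ∃ es : ℕ → X →L[𝕜] 𝕜, (∀ n, ‖es n‖ ≤ c⁻¹) ∧ ∀ n y, es n (V y) = y n := by
  have hinj : Function.Injective V := by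
    intro a b hab
    have h1 := hV (a - b)
    rw [map_sub, hab, sub_self, norm_zero] at h1
    have h2 : ‖a - b‖ ≤ 0 := by
      by_contra h3
      push Not at h3
      have := mul_pos hc h3
      linarith
    exact sub_eq_zero.1 (norm_le_zero_iff.1 h2)
  have key : ∀ n : ℕ, ∃ g : X →L[𝕜] 𝕜, ‖g‖ ≤ c⁻¹ ∧ ∀ y, g (V y) = y n := by
    intro n
    let e : c0 𝕜 ≃ₗ[𝕜] LinearMap.range (V : c0 𝕜 →ₗ[𝕜] X) :=
      LinearEquiv.ofInjective (V : c0 𝕜 →ₗ[𝕜] X) hinj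
    let f0 : LinearMap.range (V : c0 𝕜 →ₗ[𝕜] X) →ₗ[𝕜] 𝕜 :=
      (cev 𝕜 n : c0 𝕜 →ₗ[𝕜] 𝕜).comp (e.symm : _ →ₗ[𝕜] _)
    have hf0 : ∀ x, ‖f0 x‖ ≤ c⁻¹ * ‖x‖ := by
      intro x
      obtain ⟨y, rfl⟩ := e.surjective x
      have h1 : f0 (e y) = y n := by
        simp [f0, cev]
      rw [h1]
      have h2 : ‖e y‖ = ‖V y‖ := rfl
      rw [h2, le_inv_mul_iff₀ hc]
      exact (mul_le_mul_of_nonneg_left (c0_apply_le y n) hc.le).trans (hV y)
    let f1 : StrongDual 𝕜 (LinearMap.range (V : c0 𝕜 →ₗ[𝕜] X)) := f0.mkContinuous c⁻¹ hf0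
    obtain ⟨g, hg1, hg2⟩ := exists_extension_norm_eq _ f1
    refine ⟨g, ?_, fun y => ?_⟩
    · rw [hg2]
      exact LinearMap.mkContinuous_norm_le _ (inv_nonneg.2 hc.le) _
    · have h1 := hg1 (e y)
      have h2 : ((e y : LinearMap.range (V : c0 𝕜 →ₗ[𝕜] X)) : X) = V y := rfl
      rw [h2] at h1
      rw [h1]
      show f0 (e y) = y n
      simp [f0, cev]
  choose es h1 h2 using key
  exact ⟨es, h1, fun n y => h2 n y⟩

section
variable [NormedSpace ℝ X] [IsScalarTower ℝ 𝕜 X]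

theorem H1_of (es : ℕ → X →L[𝕜] 𝕜) (C : ℝ) (hC : ∀ n, ‖es n‖ ≤ C) [CompleteSpace X]
    (f : Lp X ⊤ I01) (h : Lp 𝕜 ⊤ I01) :
    Tendsto (fun n => prL h (mulOp 𝕜 (rad n) (measurable_rad n) (abs_rad n)
      ((es n).compLpL ⊤ I01 f))) atTop (𝓝 0) := by
  have hint : Integrable (fun t => h t • f t) I01 := by
    refine Integrable.mono' (integrable_const (‖h‖ * ‖f‖))
      ((Lp.aestronglyMeasurable h).smul (Lp.aestronglyMeasurable f)) ?_
    filter_upwards [lp_ae_le h, lp_ae_le f] with t h1 h2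
    rw [norm_smul]; gcongr
  have h1 := rn_main hint
  have h2 : ∀ n, prL h (mulOp 𝕜 (rad n) (measurable_rad n) (abs_rad n)
      ((es n).compLpL ⊤ I01 f)) = es n (∫ t, rad n t • (h t • f t) ∂I01) := by
    intro n
    rw [← ContinuousLinearMap.integral_comp_comm (es n) (rn_integrable hint n), prL_apply]
    refine integral_congr_ae ?_
    filter_upwards [mulOp_ae 𝕜 (rad n) (measurable_rad n) (abs_rad n)
      ((es n).compLpL ⊤ I01 f), (es n).coeFn_compLpL (p := ⊤) f] with t h3 h4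
    rw [h3, h4, RCLike.real_smul_eq_coe_smul (K := 𝕜) (rad n t) (h t • f t), map_smul, map_smul]
    simp only [smul_eq_mul]
    ring
  simp only [h2]
  have h3 : Tendsto (fun n => C * ‖∫ t, rad n t • (h t • f t) ∂I01‖) atTop (𝓝 0) := by
    have := (h1.norm).const_mul C
    simpa using this
  refine squeeze_zero_norm (fun n => ?_) h3
  exact (es n).le_of_opNorm_le (hC n) _

end

theorem H2_of (V : c0 𝕜 →L[𝕜] X) (es : ℕ → X →L[𝕜] 𝕜) (h2 : ∀ n y, es n (V y) = y n)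
    (n : ℕ) (φ : Lp 𝕜 ⊤ I01) :
    mulOp 𝕜 (rad n) (measurable_rad n) (abs_rad n)
      ((es n).compLpL ⊤ I01 (V.compLpL ⊤ I01 (un n φ))) = φ := by
  apply Lp.ext
  filter_upwards [mulOp_ae 𝕜 (rad n) (measurable_rad n) (abs_rad n)
      ((es n).compLpL ⊤ I01 (V.compLpL ⊤ I01 (un n φ))),
    (es n).coeFn_compLpL (p := ⊤) (V.compLpL ⊤ I01 (un n φ)),
    V.coeFn_compLpL (p := ⊤) (un n φ), un_ae n φ] with t h3 h4 h5 h6
  rw [h3, h4, h5, h2, h6]
  have h7 : ((φ t * ((rad n t : ℝ) : 𝕜)) • dl 𝕜 n) n = φ t * ((rad n t : ℝ) : 𝕜) := by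
    show (φ t * ((rad n t : ℝ) : 𝕜)) • (dl 𝕜 n n) = _
    simp
  rw [h7, smul_eq_mul]
  have h8 : ((rad n t : ℝ) : 𝕜) * ((rad n t : ℝ) : 𝕜) = 1 := by
    rw [← RCLike.ofReal_mul, rad_sq, RCLike.ofReal_one]
  calc ((rad n t : ℝ) : 𝕜) * (φ t * ((rad n t : ℝ) : 𝕜))
      = φ t * (((rad n t : ℝ) : 𝕜) * ((rad n t : ℝ) : 𝕜)) := by ring
    _ = φ t := by rw [h8, mul_one]

end Pool.Agent.Helper67.LInf
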