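import Mathlib
import Pool.Agent.Helper67.LInf.NCore
import Pool.Agent.Helper67.LInf.NFrom

open MeasureTheory Filter Topology

namespace Pool.Agent.Helper67.LInf

open Pool.Agent.Helper234.LInf

universe u v

/-- If `X` contains `c₀` and `L^∞([0,1],X)` is isomorphic to a complemented subspace of `ℓ^∞(Y)`,
then `Y` contains a complemented copy of `ℓ^∞(c₀)`. -/
theorem thmN (𝕜 : Type) [RCLike 𝕜] (X : Type u) [NormedAddCommGroup X] [NormedSpace 𝕜 X]
    [CompleteSpace X] (Y : Type v) [NormedAddCommGroup Y] [NormedSpace 𝕜 Y]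
    (hX : ContainsC0 𝕜 X) (T : Lp X ⊤ I01 →L[𝕜] lp (fun _ : ℕ => Y) ⊤)
    (P : lp (fun _ : ℕ => Y) ⊤ →L[𝕜] Lp X ⊤ I01) (hPT : ∀ f, P (T f) = f) :
    ContainsComplZC 𝕜 Y := by
  let _ : NormedSpace ℝ X := NormedSpace.restrictScalars ℝ 𝕜 X
  have _ : IsScalarTower ℝ 𝕜 X := RestrictScalars.isScalarTower _ _ _
  obtain ⟨V, c, hc, hV⟩ := hX
  obtain ⟨es, hes1, hes2⟩ := coord_functionals V c hc hV
  refine core_N (T.comp (V.compLpL ⊤ I01))
    (fun n => (mulOp 𝕜 (rad n) (measurable_rad n) (abs_rad n)).comp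
      (((es n).compLpL ⊤ I01).comp P)) (1 * (c⁻¹ * ‖P‖)) ?_ ?_ ?_
  · intro n
    refine (ContinuousLinearMap.opNorm_comp_le _ _).trans ?_
    refine mul_le_mul (mulOp_norm _ _ _ _) ?_ (by positivity) zero_le_one
    refine (ContinuousLinearMap.opNorm_comp_le _ _).trans ?_
    refine mul_le_mul_of_nonneg_right ?_ (by positivity)
    exact (ContinuousLinearMap.norm_compLpL_le _).trans (hes1 n)
  · intro z h
    exact H1_of es c⁻¹ hes1 (P z) h
  · intro n φ
    show mulOp 𝕜 (rad n) (measurable_rad n) (abs_rad n)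
      ((es n).compLpL ⊤ I01 (P (T (V.compLpL ⊤ I01 (un n φ))))) = φ
    rw [hPT]
    exact H2_of V es hes2 n φ

end Pool.Agent.Helper67.LInf
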