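import Mathlib

namespace Pool.Agent.Helper67.LInf.Show

universe u v

/-- `A` is isomorphic to a complemented subspace of `B`. -/
def ComplIn (𝕜 : Type) [RCLike 𝕜] (A : Type u) (B : Type v) [NormedAddCommGroup A]
    [NormedSpace 𝕜 A] [NormedAddCommGroup B] [NormedSpace 𝕜 B] : Prop :=
  ∃ (i : A →L[𝕜] B) (p : B →L[𝕜] A), ∀ a, p (i a) = a

end Pool.Agent.Helper67.LInf.Show
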