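import Mathlib
import Pool.Agent.Helper234.LInf.Defs
import Pool.Agent.Helper234.LInf.Ops
import Pool.Agent.Helper67.LInf.NDefs
import Pool.Agent.Helper67.LInf.NOps

set_option linter.all false

open MeasureTheory Filter Topology

namespace Pool.Agent.Helper67.LInf

open Pool.Agent.Helper234.LInf

universe u v

variable {𝕜 : Type} [RCLike 𝕜]

open Classical in
/-- coefficients of `a` spread along `ν` -/
noncomputable def sg_c (ν : ℕ → ℕ → ℕ) (a : ZC 𝕜) (j m : ℕ) : 𝕜 :=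
  if h : ∃ q, ν j q = m then a j h.choose else 0

theorem sg_c_mem {ν : ℕ → ℕ → ℕ} (hν : ∀ j, StrictMono (ν j)) (a : ZC 𝕜) (j q : ℕ) :
    sg_c ν a j (ν j q) = a j q := by
  have h : ∃ q', ν j q' = ν j q := ⟨q, rfl⟩
  unfold sg_c
  rw [dif_pos h, (hν j).injective h.choose_spec]

theorem sg_c_not {ν : ℕ → ℕ → ℕ} (a : ZC 𝕜) (j m : ℕ) (h : ¬ ∃ q, ν j q = m) :
    sg_c ν a j m = 0 := by
  unfold sg_c
  rw [dif_neg h]

theorem sg_c_add {ν : ℕ → ℕ → ℕ} (hν : ∀ j, StrictMono (ν j)) (a b : ZC 𝕜) (j m : ℕ) :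
    sg_c ν (a + b) j m = sg_c ν a j m + sg_c ν b j m := by
  by_cases h : ∃ q, ν j q = m
  · obtain ⟨q, rfl⟩ := h
    rw [sg_c_mem hν, sg_c_mem hν, sg_c_mem hν]
    rfl
  · rw [sg_c_not _ _ _ h, sg_c_not _ _ _ h, sg_c_not _ _ _ h, add_zero]

theorem sg_c_smul {ν : ℕ → ℕ → ℕ} (hν : ∀ j, StrictMono (ν j)) (c : 𝕜) (a : ZC 𝕜) (j m : ℕ) :
    sg_c ν (c • a) j m = c * sg_c ν a j m := by
  by_cases h : ∃ q, ν j q = m
  · obtain ⟨q, rfl⟩ := h
    rw [sg_c_mem hν, sg_c_mem hν]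
    rfl
  · rw [sg_c_not _ _ _ h, sg_c_not _ _ _ h, mul_zero]

theorem sg_c_le {ν : ℕ → ℕ → ℕ} (hν : ∀ j, StrictMono (ν j)) (a : ZC 𝕜) (j m : ℕ) :
    ‖sg_c ν a j m‖ ≤ ‖a‖ := by
  by_cases h : ∃ q, ν j q = m
  · obtain ⟨q, rfl⟩ := h
    rw [sg_c_mem hν]
    exact zc_apply_le a j q
  · rw [sg_c_not _ _ _ h, norm_zero]
    exact norm_nonneg _

theorem sg_c_tendsto {ν : ℕ → ℕ → ℕ} (hν : ∀ j, StrictMono (ν j)) (a : ZC 𝕜) (j : ℕ) :
    Tendsto (fun m => sg_c ν a j m) atTop (𝓝 0) := by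
  rw [Metric.tendsto_atTop]
  intro ε hε
  obtain ⟨Q, hQ⟩ := (Metric.tendsto_atTop.1 (c0_tendsto (a j))) ε hε
  refine ⟨ν j Q, fun m hm => ?_⟩
  by_cases h : ∃ q, ν j q = m
  · obtain ⟨q, rfl⟩ := h
    rw [sg_c_mem hν]
    exact hQ q ((hν j).le_iff_le.1 hm)
  · rw [sg_c_not _ _ _ h, dist_self]
    exact hε

open Classical in
/-- the index of the set containing `t` -/
noncomputable def sg_J (Dj : ℕ → Set ℝ) (t : ℝ) : ℕ := if h : ∃ j, t ∈ Dj j then h.choose else 0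

theorem sg_J_mem {Dj : ℕ → Set ℝ} (hdisj : Pairwise (fun j j' => Disjoint (Dj j) (Dj j')))
    {t : ℝ} {j : ℕ} (h : t ∈ Dj j) : sg_J Dj t = j := by
  have h' : ∃ j, t ∈ Dj j := ⟨j, h⟩
  unfold sg_J
  rw [dif_pos h']
  by_contra hne
  exact Set.disjoint_left.1 (hdisj hne) h'.choose_spec h

theorem sg_J_measurable {Dj : ℕ → Set ℝ} (hD : ∀ j, MeasurableSet (Dj j))
    (hdisj : Pairwise (fun j j' => Disjoint (Dj j) (Dj j'))) : Measurable (sg_J Dj) := by
  have hU : MeasurableSet (⋃ j, Dj j) := MeasurableSet.iUnion hD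
  refine measurable_to_countable' fun j => ?_
  by_cases hj : j = 0
  · have : sg_J Dj ⁻¹' {j} = Dj j ∪ (⋃ j, Dj j)ᶜ := by
      ext t
      simp only [Set.mem_preimage, Set.mem_singleton_iff, Set.mem_union, Set.mem_compl_iff,
        Set.mem_iUnion]
      constructor
      · intro h
        by_cases h' : ∃ j, t ∈ Dj j
        · obtain ⟨j', hj'⟩ := h'
          left
          rw [sg_J_mem hdisj hj'] at h
          rw [← h]
          exact hj'
        · exact Or.inr h'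
      · rintro (h | h)
        · exact sg_J_mem hdisj h
        · unfold sg_J
          rw [dif_neg h, hj]
    rw [this]
    exact (hD j).union hU.compl
  · have : sg_J Dj ⁻¹' {j} = Dj j := by
      ext t
      simp only [Set.mem_preimage, Set.mem_singleton_iff]
      constructor
      · intro h
        by_cases h' : ∃ j, t ∈ Dj j
        · obtain ⟨j', hj'⟩ := h'
          rw [sg_J_mem hdisj hj'] at h
          rw [← h]
          exact hj'
        · exfalso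
          unfold sg_J at h
          rw [dif_neg h'] at h
          exact hj h.symm
      · exact fun h => sg_J_mem hdisj h
    rw [this]
    exact hD j

open Classical in
/-- the coordinates -/
noncomputable def sg_G (Dj : ℕ → Set ℝ) (ν : ℕ → ℕ → ℕ) (a : ZC 𝕜) (t : ℝ) (m : ℕ) : 𝕜 :=
  if t ∈ ⋃ j, Dj j then sg_c ν a (sg_J Dj t) m * ((rad m t : ℝ) : 𝕜) else 0

theorem sg_G_le {Dj : ℕ → Set ℝ} {ν : ℕ → ℕ → ℕ} (hν : ∀ j, StrictMono (ν j)) (a : ZC 𝕜) (t : ℝ)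
    (m : ℕ) : ‖sg_G Dj ν a t m‖ ≤ ‖sg_c ν a (sg_J Dj t) m‖ := by
  unfold sg_G
  split_ifs
  · rw [norm_mul, RCLike.norm_ofReal]
    exact mul_le_of_le_one_right (norm_nonneg _) (abs_rad m t)
  · rw [norm_zero]
    exact norm_nonneg _

theorem sg_G_tendsto {Dj : ℕ → Set ℝ} {ν : ℕ → ℕ → ℕ} (hν : ∀ j, StrictMono (ν j)) (a : ZC 𝕜)
    (t : ℝ) : Tendsto (fun m => sg_G Dj ν a t m) atTop (𝓝 0) :=
  squeeze_zero_norm (fun m => sg_G_le hν a t m)
    (by simpa using (sg_c_tendsto hν a (sg_J Dj t)).norm)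

/-- the function -/
noncomputable def sg_F (Dj : ℕ → Set ℝ) {ν : ℕ → ℕ → ℕ} (hν : ∀ j, StrictMono (ν j)) (a : ZC 𝕜)
    (t : ℝ) : c0 𝕜 := mkc0 (fun m => sg_G Dj ν a t m) (sg_G_tendsto hν a t)

theorem sg_F_le (Dj : ℕ → Set ℝ) {ν : ℕ → ℕ → ℕ} (hν : ∀ j, StrictMono (ν j)) (a : ZC 𝕜)
    (t : ℝ) : ‖sg_F Dj hν a t‖ ≤ ‖a‖ :=
  c0_norm_le _ _ (norm_nonneg _) fun m => (sg_G_le hν a t m).trans (sg_c_le hν a _ m)

theorem sg_G_measurable {Dj : ℕ → Set ℝ} (hD : ∀ j, MeasurableSet (Dj j))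
    (hdisj : Pairwise (fun j j' => Disjoint (Dj j) (Dj j'))) (ν : ℕ → ℕ → ℕ) (a : ZC 𝕜) (m : ℕ) :
    Measurable (fun t => sg_G Dj ν a t m) := by
  have hU : MeasurableSet (⋃ j, Dj j) := MeasurableSet.iUnion hD
  have h1 : Measurable fun t => ((rad m t : ℝ) : 𝕜) :=
    RCLike.measurable_ofReal.comp (measurable_rad m)
  have h2 : Measurable (fun t => sg_c ν a (sg_J Dj t) m) :=
    (measurable_from_nat (f := fun j => sg_c ν a j m)).comp (sg_J_measurable hD hdisj)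
  unfold sg_G
  exact Measurable.ite hU (h2.mul h1) measurable_const

/-- a vector of `c₀` is the limit of its truncations -/
theorem sg_trunc (f : c0 𝕜) :
    Tendsto (fun M => ∑ m ∈ Finset.range M, f m • dl 𝕜 m) atTop (𝓝 f) := by
  rw [Metric.tendsto_atTop]
  intro ε hε
  obtain ⟨Q, hQ⟩ := (Metric.tendsto_atTop.1 (c0_tendsto f)) (ε / 2) (half_pos hε)
  refine ⟨Q, fun M hM => ?_⟩
  rw [dist_eq_norm]
  refine lt_of_le_of_lt (c0_norm_le _ (ε / 2) (half_pos hε).le fun n => ?_) (half_lt_self hε)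
  have hsum : (∑ m ∈ Finset.range M, f m • dl 𝕜 m) n = if n < M then f n else 0 := by
    have h1 : ∀ s : Finset ℕ, (∑ m ∈ s, f m • dl 𝕜 m) n = ∑ m ∈ s, (f m • dl 𝕜 m) n := by
      intro s
      induction s using Finset.induction_on with
      | empty => rfl
      | insert b s hb ih =>
        rw [Finset.sum_insert hb, Finset.sum_insert hb, ← ih]
        rfl
    rw [h1]
    have h2 : ∀ m ∈ Finset.range M, (f m • dl 𝕜 m) n = if n = m then f m else 0 := by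
      intro m _
      show f m * dl 𝕜 m n = _
      rw [dl_apply]
      split_ifs <;> simp
    rw [Finset.sum_congr rfl h2, Finset.sum_ite_eq]
    simp
  have h3 : (∑ m ∈ Finset.range M, f m • dl 𝕜 m - f) n =
      (∑ m ∈ Finset.range M, f m • dl 𝕜 m) n - f n := rfl
  rw [h3, hsum]
  split_ifs with h
  · rw [sub_self, norm_zero]
    exact (half_pos hε).le
  · rw [zero_sub, norm_neg]
    have := hQ n (by omega)
    rw [dist_zero_right] at this
    exact this.le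

theorem sg_F_aesm {Dj : ℕ → Set ℝ} (hD : ∀ j, MeasurableSet (Dj j))
    (hdisj : Pairwise (fun j j' => Disjoint (Dj j) (Dj j'))) {ν : ℕ → ℕ → ℕ}
    (hν : ∀ j, StrictMono (ν j)) (a : ZC 𝕜) : AEStronglyMeasurable (sg_F Dj hν a) I01 := by
  refine aestronglyMeasurable_of_tendsto_ae (ι := ℕ) atTop
    (f := fun M t => ∑ m ∈ Finset.range M, sg_G Dj ν a t m • dl 𝕜 m) (fun M => ?_)
    (Eventually.of_forall fun t => sg_trunc (sg_F Dj hν a t))
  refine Finset.aestronglyMeasurable_fun_sum _ fun m _ => ?_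
  exact ((sg_G_measurable hD hdisj ν a m).aestronglyMeasurable).smul aestronglyMeasurable_const

theorem sg_memLp {Dj : ℕ → Set ℝ} (hD : ∀ j, MeasurableSet (Dj j))
    (hdisj : Pairwise (fun j j' => Disjoint (Dj j) (Dj j'))) {ν : ℕ → ℕ → ℕ}
    (hν : ∀ j, StrictMono (ν j)) (a : ZC 𝕜) : MemLp (sg_F Dj hν a) ⊤ I01 :=
  MemLp.of_bound (sg_F_aesm hD hdisj hν a) ‖a‖ (Eventually.of_forall fun t => sg_F_le Dj hν a t)

theorem sg_F_add (Dj : ℕ → Set ℝ) {ν : ℕ → ℕ → ℕ} (hν : ∀ j, StrictMono (ν j)) (a b : ZC 𝕜)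
    (t : ℝ) : sg_F Dj hν (a + b) t = sg_F Dj hν a t + sg_F Dj hν b t := by
  ext m
  show sg_G Dj ν (a + b) t m = sg_G Dj ν a t m + sg_G Dj ν b t m
  unfold sg_G
  split_ifs
  · rw [sg_c_add hν, add_mul]
  · rw [add_zero]

theorem sg_F_smul (Dj : ℕ → Set ℝ) {ν : ℕ → ℕ → ℕ} (hν : ∀ j, StrictMono (ν j)) (c : 𝕜)
    (a : ZC 𝕜) (t : ℝ) : sg_F Dj hν (c • a) t = c • sg_F Dj hν a t := by
  ext m
  show sg_G Dj ν (c • a) t m = c * sg_G Dj ν a t m
  unfold sg_G
  split_ifs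
  · rw [sg_c_smul hν, mul_assoc]
  · rw [mul_zero]

theorem exists_sigma (Dj : ℕ → Set ℝ) (hD : ∀ j, MeasurableSet (Dj j))
    (hdisj : Pairwise (fun j j' => Disjoint (Dj j) (Dj j'))) (ν : ℕ → ℕ → ℕ)
    (hν : ∀ j, StrictMono (ν j)) :
    ∃ S : ZC 𝕜 →L[𝕜] Lp (c0 𝕜) ⊤ I01, ∀ j q, S (zu 𝕜 j q) = un (ν j q) (indL 𝕜 (Dj j) (hD j)) := by
  refine ⟨LinearMap.mkContinuous
    { toFun := fun a => (sg_memLp hD hdisj hν a).toLp
      map_add' := by
        intro a b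
        rw [← MemLp.toLp_add]
        apply MemLp.toLp_congr
        refine Eventually.of_forall fun t => ?_
        exact sg_F_add Dj hν a b t
      map_smul' := by
        intro c a
        simp only [RingHom.id_apply]
        rw [← MemLp.toLp_const_smul]
        apply MemLp.toLp_congr
        refine Eventually.of_forall fun t => ?_
        exact sg_F_smul Dj hν c a t } 1 (by
      intro a
      rw [one_mul]
      refine lp_norm_le (norm_nonneg _) ?_
      filter_upwards [MemLp.coeFn_toLp (sg_memLp hD hdisj hν a)] with t ht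
      rw [LinearMap.coe_mk, AddHom.coe_mk, ht]
      exact sg_F_le Dj hν a t), fun j q => ?_⟩
  rw [LinearMap.mkContinuous_apply, LinearMap.coe_mk, AddHom.coe_mk]
  apply Lp.ext
  filter_upwards [MemLp.coeFn_toLp (sg_memLp hD hdisj hν (zu 𝕜 j q)),
    un_ae (ν j q) (indL 𝕜 (Dj j) (hD j)), indL_ae (𝕜 := 𝕜) (Dj j) (hD j)] with t h1 h2 h3
  rw [h1, h2, h3]
  ext m
  show sg_G Dj ν (zu 𝕜 j q) t m =
    ((Dj j).indicator (fun _ => (1 : 𝕜)) t * ((rad (ν j q) t : ℝ) : 𝕜)) * dl 𝕜 (ν j q) m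
  rw [dl_apply]
  unfold sg_G
  by_cases ht : t ∈ Dj j
  · rw [if_pos (Set.mem_iUnion.2 ⟨j, ht⟩), sg_J_mem hdisj ht, Set.indicator_of_mem ht, one_mul]
    by_cases hm : m = ν j q
    · subst hm
      rw [sg_c_mem hν, zu_apply]
      simp
    · rw [if_neg hm, mul_zero]
      by_cases h : ∃ q', ν j q' = m
      · obtain ⟨q', rfl⟩ := h
        have hq : q' ≠ q := fun h => hm (by rw [h])
        rw [sg_c_mem hν, zu_apply]
        simp [hq]
      · rw [sg_c_not _ _ _ h, zero_mul]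
  · rw [Set.indicator_of_notMem ht, zero_mul, zero_mul]
    split_ifs with hU
    · obtain ⟨j', hj'⟩ := Set.mem_iUnion.1 hU
      have hne : j' ≠ j := fun h => ht (h ▸ hj')
      rw [sg_J_mem hdisj hj']
      by_cases h : ∃ q', ν j' q' = m
      · obtain ⟨q', rfl⟩ := h
        rw [sg_c_mem hν, zu_apply]
        simp [hne]
      · rw [sg_c_not _ _ _ h, zero_mul]
    · rfl

end Pool.Agent.Helper67.LInf
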