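import Mathlib
import Pool.Agent.Helper234.LInf.Defs
import Pool.Agent.Helper67.LInf.Basic
import Pool.Agent.Helper67.LInf.Dyadic
import Pool.Agent.Helper67.LInf.Dyadic2
import Pool.Agent.Helper67.LInf.Compl2

set_option linter.unusedSectionVars false

open MeasureTheory Filter Topology

namespace Pool.Agent.Helper67.LInf

open Pool.Agent.Helper234.LInf

section

variable (𝕜 : Type) [RCLike 𝕜] {X : Type*} [NormedAddCommGroup X] [NormedSpace 𝕜 X]
  [NormedSpace ℝ X] [IsScalarTower ℝ 𝕜 X]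

/-- The indicator of a measurable set in `L¹`. -/
noncomputable def ind (s : Set ℝ) (hs : MeasurableSet s) : Lp 𝕜 1 I01 :=
  indicatorConstLp 1 hs (measure_ne_top _ _) (1 : 𝕜)

theorem norm_ind (s : Set ℝ) (hs : MeasurableSet s) : ‖ind 𝕜 s hs‖ = I01.real s := by
  rw [ind, norm_indicatorConstLp (by simp) (by simp)]
  simp

theorem ind_diff (a b : ℝ) (hab : a ≤ b) :
    ind 𝕜 (Set.Iio b) measurableSet_Iio - ind 𝕜 (Set.Iio a) measurableSet_Iio =
      ind 𝕜 (Set.Ico a b) measurableSet_Ico := by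
  apply Lp.ext
  filter_upwards [Lp.coeFn_sub (ind 𝕜 (Set.Iio b) measurableSet_Iio)
    (ind 𝕜 (Set.Iio a) measurableSet_Iio),
    indicatorConstLp_coeFn (p := 1) (hs := measurableSet_Iio (a := b))
      (hμs := measure_ne_top I01 _) (c := (1 : 𝕜)),
    indicatorConstLp_coeFn (p := 1) (hs := measurableSet_Iio (a := a))
      (hμs := measure_ne_top I01 _) (c := (1 : 𝕜)),
    indicatorConstLp_coeFn (p := 1) (hs := measurableSet_Ico (a := a) (b := b))
      (hμs := measure_ne_top I01 _) (c := (1 : 𝕜))] with t h1 h2 h3 h4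
  rw [h1, Pi.sub_apply]
  simp only [ind]
  rw [h2, h3, h4]
  by_cases hb : t < b
  · by_cases ha : t < a
    · simp [Set.indicator, hb, ha]
    · simp [Set.indicator, hb, ha, not_lt.1 ha]
  · have ha : ¬ t < a := fun h => hb (h.trans_le hab)
    simp [Set.indicator, hb, ha]

variable {𝕜}

theorem ind_Dy (m k : ℕ) :
    ind 𝕜 (Dy m k) (measurableSet_Dy m k) =
      ind 𝕜 (Set.Iio (((k : ℝ) + 1) / 2 ^ m)) measurableSet_Iio -
        ind 𝕜 (Set.Iio ((k : ℝ) / 2 ^ m)) measurableSet_Iio := by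
  rw [ind_diff]
  · rfl
  · gcongr; linarith

theorem lipschitz_ind (U : Lp 𝕜 1 I01 →L[𝕜] X) :
    LipschitzWith ‖U‖₊ (fun t : ℝ => U (ind 𝕜 (Set.Iio t) measurableSet_Iio)) := by
  have key : ∀ a b : ℝ, a ≤ b → ‖U (ind 𝕜 (Set.Iio b) measurableSet_Iio) -
      U (ind 𝕜 (Set.Iio a) measurableSet_Iio)‖ ≤ ‖U‖ * (b - a) := by
    intro a b hab
    rw [← map_sub, ind_diff 𝕜 a b hab]
    refine (U.le_opNorm _).trans ?_
    gcongr
    rw [norm_ind, Measure.real]
    refine ENNReal.toReal_le_of_le_ofReal (by linarith) ?_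
    refine (Measure.restrict_apply_le _ _).trans ?_
    rw [Real.volume_Ico]
  refine LipschitzWith.of_dist_le_mul (fun s t => ?_)
  rw [dist_eq_norm, Real.dist_eq]
  rcases le_total s t with hst | hst
  · rw [norm_sub_rev, abs_sub_comm, abs_of_nonneg (sub_nonneg.2 hst)]
    exact key s t hst
  · rw [abs_of_nonneg (sub_nonneg.2 hst)]
    exact key t s hst

/-- The level `m` approximate density of an operator on `L¹`. -/
noncomputable def gm (U : Lp 𝕜 1 I01 →L[𝕜] X) (m : ℕ) (t : ℝ) : X :=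
  (2 ^ m : ℝ) • U (ind 𝕜 (Dy m ⌊2 ^ m * t⌋₊) (measurableSet_Dy _ _))

theorem norm_gm_le (U : Lp 𝕜 1 I01 →L[𝕜] X) (m : ℕ) (t : ℝ) : ‖gm U m t‖ ≤ ‖U‖ := by
  rw [gm, norm_smul]
  have h1 : ‖U (ind 𝕜 (Dy m ⌊2 ^ m * t⌋₊) (measurableSet_Dy _ _))‖ ≤ ‖U‖ * (2 ^ m)⁻¹ := by
    refine (U.le_opNorm _).trans ?_
    gcongr
    rw [norm_ind, Measure.real]
    exact ENNReal.toReal_le_of_le_ofReal (by positivity) (I01_Dy_le _ _)
  have h2 : ‖(2 ^ m : ℝ)‖ = 2 ^ m := by simp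
  rw [h2]
  calc (2 : ℝ) ^ m * _ ≤ 2 ^ m * (‖U‖ * (2 ^ m)⁻¹) := by gcongr
    _ = ‖U‖ := by field_simp

theorem aesm_gm (U : Lp 𝕜 1 I01 →L[𝕜] X) (m : ℕ) : StronglyMeasurable (gm U m) := by
  have h2 : StronglyMeasurable (fun k : ℕ => (2 ^ m : ℝ) •
      U (ind 𝕜 (Dy m k) (measurableSet_Dy _ _))) := StronglyMeasurable.of_discrete
  exact h2.comp_measurable (g := fun t : ℝ => ⌊2 ^ m * t⌋₊)
      (Nat.measurable_floor.comp (measurable_const.mul measurable_id))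

theorem gm_tendsto (hX : RNP 𝕜 X) (U : Lp 𝕜 1 I01 →L[𝕜] X) :
    ∀ᵐ t ∂I01, ∃ v, Tendsto (fun m => gm U m t) atTop (𝓝 v) := by
  have h1 := hX (fun t : ℝ => U (ind 𝕜 (Set.Iio t) measurableSet_Iio)) ⟨_, lipschitz_ind U⟩
  have h2 : ∀ᵐ t ∂I01, ∃ v : X, Tendsto (fun h : ℝ => ((h : 𝕜))⁻¹ •
      (U (ind 𝕜 (Set.Iio (t + h)) measurableSet_Iio) -
        U (ind 𝕜 (Set.Iio t) measurableSet_Iio))) (𝓝[≠] 0) (𝓝 v) := ae_restrict_of_ae h1
  filter_upwards [h2, I01_ae_mem] with t ht ht1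
  obtain ⟨v, hv⟩ := ht
  refine ⟨v, ?_⟩
  have h3 : Tendsto (fun h : ℝ => h⁻¹ • (U (ind 𝕜 (Set.Iio (t + h)) measurableSet_Iio) -
      U (ind 𝕜 (Set.Iio t) measurableSet_Iio))) (𝓝[≠] 0) (𝓝 v) := by
    refine hv.congr (fun h => ?_)
    rw [← RCLike.ofReal_inv]
    exact RCLike.real_smul_eq_coe_smul (K := 𝕜) _ _ |>.symm
  have h4 := dyadic_quot (fun t : ℝ => U (ind 𝕜 (Set.Iio t) measurableSet_Iio)) t ht1.1 v h3
  refine h4.congr (fun m => ?_)
  rw [gm, ind_Dy, map_sub]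

/-- The density of an operator on `L¹` (when it exists). -/
noncomputable def gl (U : Lp 𝕜 1 I01 →L[𝕜] X) (t : ℝ) : X :=
  haveI : Nonempty X := ⟨0⟩
  limUnder atTop (fun m => gm U m t)

theorem gl_tendsto (hX : RNP 𝕜 X) (U : Lp 𝕜 1 I01 →L[𝕜] X) :
    ∀ᵐ t ∂I01, Tendsto (fun m => gm U m t) atTop (𝓝 (gl U t)) := by
  filter_upwards [gm_tendsto hX U] with t ht
  obtain ⟨v, hv⟩ := ht
  have : gl U t = v := hv.limUnder_eq
  rw [this]; exact hv

theorem gl_bound (hX : RNP 𝕜 X) (U : Lp 𝕜 1 I01 →L[𝕜] X) : ∀ᵐ t ∂I01, ‖gl U t‖ ≤ ‖U‖ := by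
  filter_upwards [gl_tendsto hX U] with t ht
  exact le_of_tendsto ht.norm (Eventually.of_forall fun m => norm_gm_le U m t)

theorem gl_memLp (hX : RNP 𝕜 X) (U : Lp 𝕜 1 I01 →L[𝕜] X) : MemLp (gl U) ⊤ I01 :=
  memLp_top_of_bound (aestronglyMeasurable_of_tendsto_ae atTop
    (fun m => (aesm_gm U m).aestronglyMeasurable) (gl_tendsto hX U)) ‖U‖ (gl_bound hX U)

/-- The density operator. -/
noncomputable def Qop (hX : RNP 𝕜 X) : (Lp 𝕜 1 I01 →L[𝕜] X) →L[𝕜] Lp X ⊤ I01 :=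
  LinearMap.mkContinuous
    { toFun := fun U => (gl_memLp hX U).toLp _
      map_add' := fun U V => by
        apply Lp.ext
        filter_upwards [(gl_memLp hX (U + V)).coeFn_toLp, (gl_memLp hX U).coeFn_toLp,
          (gl_memLp hX V).coeFn_toLp, Lp.coeFn_add ((gl_memLp hX U).toLp _)
            ((gl_memLp hX V).toLp _), gl_tendsto hX U, gl_tendsto hX V, gl_tendsto hX (U + V)]
          with t h1 h2 h3 h4 h5 h6 h7
        rw [h1, h4, Pi.add_apply, h2, h3]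
        refine tendsto_nhds_unique h7 ((h5.add h6).congr fun m => ?_)
        simp [gm]
      map_smul' := fun c U => by
        apply Lp.ext
        filter_upwards [(gl_memLp hX (c • U)).coeFn_toLp, (gl_memLp hX U).coeFn_toLp,
          Lp.coeFn_smul c ((gl_memLp hX U).toLp _), gl_tendsto hX U, gl_tendsto hX (c • U)]
          with t h1 h2 h4 h5 h7
        rw [RingHom.id_apply, h1, h4, Pi.smul_apply, h2]
        refine tendsto_nhds_unique h7 ((h5.const_smul c).congr fun m => ?_)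
        simp only [gm, smul_apply]
        rw [smul_comm] } 1 (fun U => by
      rw [one_mul]
      have h1 := Lp.norm_le_of_ae_bound (f := (gl_memLp hX U).toLp _) (C := ‖U‖) (norm_nonneg _)
        (by
          filter_upwards [(gl_memLp hX U).coeFn_toLp, gl_bound hX U] with t h1 h2
          rw [h1]; exact h2)
      simpa using h1)

theorem Qop_coeFn (hX : RNP 𝕜 X) (U : Lp 𝕜 1 I01 →L[𝕜] X) : Qop hX U =ᵐ[I01] gl U :=
  (gl_memLp hX U).coeFn_toLp

/-- If a function represents an operator, the operator at an indicator is the integral. -/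
theorem represents_ind [CompleteSpace X] (f : Lp X ⊤ I01) (S : Lp 𝕜 1 I01 →L[𝕜] X)
    (h : Represents 𝕜 X f S) (s : Set ℝ) (hs : MeasurableSet s) :
    S (ind 𝕜 s hs) = ∫ t in s, f t ∂I01 := by
  refine (SeparatingDual.eq_iff_forall_dual_eq (R := 𝕜)).2 (fun ξ => ?_)
  rw [h (ind 𝕜 s hs) ξ, ← ContinuousLinearMap.integral_comp_comm ξ
    (Lp_top_integrable f).integrableOn, ← integral_indicator hs]
  refine integral_congr_ae ?_
  filter_upwards [indicatorConstLp_coeFn (p := 1) (hs := hs)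
      (hμs := measure_ne_top I01 _) (c := (1 : 𝕜))] with t ht
  simp only [ind]
  rw [ht]
  by_cases hm : t ∈ s
  · simp [Set.indicator, hm]
  · simp [Set.indicator, hm]

end

theorem rep_of_rnp (𝕜 : Type) [RCLike 𝕜] (X : Type*) [NormedAddCommGroup X] [NormedSpace 𝕜 X]
    [CompleteSpace X] (hX : RNP 𝕜 X) : RepComplemented 𝕜 X := by
  let _ : NormedSpace ℝ X := NormedSpace.restrictScalars ℝ 𝕜 X
  have _ : IsScalarTower ℝ 𝕜 X := RestrictScalars.isScalarTower _ _ _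
  refine ⟨Qop hX, fun f S hfS => ?_⟩
  apply Lp.ext
  filter_upwards [Qop_coeFn hX S, gl_tendsto hX S,
    dyadic_ae (f : ℝ → X) (Lp_top_integrable f)] with t h1 h2 h3
  rw [h1]
  refine tendsto_nhds_unique h2 (h3.congr fun m => ?_)
  rw [gm, represents_ind f S hfS]

end Pool.Agent.Helper67.LInf
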