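import Mathlib
import Pool.Agent.Helper67.LInf.Suff

open MeasureTheory Filter Topology

namespace Pool.Agent.Helper67.LInf

open Pool.Agent.Helper234.LInf

universe u v

/-- The functor `G(B) = W × ℓ^∞(B) × L^∞([0,1],B)`. -/
abbrev GF (W : Type u) [NormedAddCommGroup W] (B : Type u) [NormedAddCommGroup B] : Type u :=
  W × lp (fun _ : ℕ => B) ⊤ × Lp B ⊤ I01

section avgs
variable (𝕜 : Type) [RCLike 𝕜] (X : Type u) [NormedAddCommGroup X] [NormedSpace 𝕜 X]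
  [NormedSpace ℝ X] [IsScalarTower ℝ 𝕜 X]

theorem norm_avgs_le (f : Lp X ⊤ I01) : ‖avgs 𝕜 X f‖ ≤ ‖f‖ := by
  refine lp.norm_le_of_forall_le (norm_nonneg _) (fun n => ?_)
  exact ((avgL 𝕜 X _ _).le_of_opNorm_le
      (LinearMap.mkContinuous_norm_le _ zero_le_one _) f).trans (by rw [one_mul])

theorem le_norm_avgs [CompleteSpace X] (f : Lp X ⊤ I01) : ‖f‖ ≤ ‖avgs 𝕜 X f‖ := by
  refine norm_le_of_ae f _ (norm_nonneg _) ?_
  filter_upwards [dyadic_ae (f : ℝ → X) (Lp_top_integrable f), I01_ae_mem] with t ht ht1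
  refine le_of_tendsto ht.norm (Eventually.of_forall fun m => ?_)
  have hk : ⌊2 ^ m * t⌋₊ < 2 ^ m := by
    rw [Nat.floor_lt (by have := ht1.1; positivity)]
    push_cast
    have := ht1.2
    have h2 : (0 : ℝ) < 2 ^ m := by positivity
    nlinarith
  rw [← avgs_apply 𝕜 X f m _ hk]
  exact norm_coord_le _ _

end avgs

theorem exists_avgs (𝕜 : Type) [RCLike 𝕜] (X : Type u) [NormedAddCommGroup X] [NormedSpace 𝕜 X]
    [CompleteSpace X] : ∃ A : Lp X ⊤ I01 →L[𝕜] lp (fun _ : ℕ => X) ⊤,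
      (∀ f, ‖A f‖ ≤ ‖f‖) ∧ ∀ f, ‖f‖ ≤ ‖A f‖ := by
  let _ : NormedSpace ℝ X := NormedSpace.restrictScalars ℝ 𝕜 X
  have _ : IsScalarTower ℝ 𝕜 X := RestrictScalars.isScalarTower _ _ _
  exact ⟨avgs 𝕜 X, norm_avgs_le 𝕜 X, le_norm_avgs 𝕜 X⟩

section embB
variable (𝕜 : Type) [RCLike 𝕜] (W : Type u) [NormedAddCommGroup W] [NormedSpace 𝕜 W]

/-- The ambient space `ℓ^∞(ℕ × W)`. -/
abbrev Amb : Type u := lp (fun _ : ℕ × W => 𝕜) ⊤

/-- Evaluation functional on the ambient space. -/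
noncomputable def aev (g : ℕ × W) : Amb 𝕜 W →L[𝕜] 𝕜 :=
  LinearMap.mkContinuous
    { toFun := fun x => x g
      map_add' := fun v w => by simp
      map_smul' := fun c v => by simp } 1 (fun v => by
        rw [one_mul]; exact lp.norm_apply_le_norm (by simp) v g)

omit [NormedSpace 𝕜 W] in
theorem aev_apply (g : ℕ × W) (x : Amb 𝕜 W) : aev 𝕜 W g x = x g := rfl

omit [NormedSpace 𝕜 W] in
theorem aev_le (g : ℕ × W) (x : Amb 𝕜 W) : ‖aev 𝕜 W g x‖ ≤ ‖x‖ :=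
  lp.norm_apply_le_norm (by simp) x g

omit [NormedSpace 𝕜 W] in
/-- A uniformly bounded family of functionals gives an operator into the ambient space. -/
theorem exists_toAmb {V : Type*} [NormedAddCommGroup V] [NormedSpace 𝕜 V]
    (g : ℕ × W → V →L[𝕜] 𝕜) (h : ∀ n v, ‖g n v‖ ≤ ‖v‖) :
    ∃ L : V →L[𝕜] Amb 𝕜 W, ∀ v n, L v n = g n v := by
  refine ⟨LinearMap.mkContinuous
    { toFun := fun v => ⟨fun n => g n v, memℓp_infty ⟨‖v‖, by
        rintro _ ⟨n, rfl⟩; exact h n v⟩⟩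
      map_add' := fun v w => by ext n; exact (g n).map_add v w
      map_smul' := fun c v => by ext n; exact (g n).map_smul c v } 1 (fun v => by
        rw [one_mul]
        exact lp.norm_le_of_forall_le (by positivity) (fun n => h n v)), fun v n => rfl⟩

/-- `ℓ^∞(B)` embeds isometrically into `B` for the ambient space `B`. -/
theorem amb_pairing :
    ∃ a : lp (fun _ : ℕ => Amb 𝕜 W) ⊤ →L[𝕜] Amb 𝕜 W, ∀ x, ‖x‖ ≤ ‖a x‖ := by
  obtain ⟨a, ha⟩ := exists_toAmb 𝕜 W (V := lp (fun _ : ℕ => Amb 𝕜 W) ⊤)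
    (fun g => (aev 𝕜 W (g.1.unpair.2, g.2)).comp (evalL 𝕜 (Amb 𝕜 W) g.1.unpair.1))
    (fun g z => (aev_le 𝕜 W _ _).trans (norm_coord_le _ _))
  refine ⟨a, fun x => ?_⟩
  refine lp.norm_le_of_forall_le (norm_nonneg _) (fun i => ?_)
  refine lp.norm_le_of_forall_le (norm_nonneg _) (fun g => ?_)
  have h2 := aev_le 𝕜 W (Nat.pair i g.1, g.2) (a x)
  have h3 : aev 𝕜 W (Nat.pair i g.1, g.2) (a x) = x i g := by
    rw [aev_apply, ha]
    show x (Nat.unpair (Nat.pair i g.1)).1 ((Nat.unpair (Nat.pair i g.1)).2, g.2) = x i g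
    rw [Nat.unpair_pair]
  rwa [h3] at h2

/-- `W` embeds isometrically into the ambient space. -/
theorem amb_W : ∃ a : W →L[𝕜] Amb 𝕜 W, ∀ x, ‖x‖ ≤ ‖a x‖ := by
  have hdual : ∀ w : W, ∃ g : StrongDual 𝕜 W, ‖g‖ ≤ 1 ∧ g w = (‖w‖ : 𝕜) := fun w =>
    exists_dual_vector'' 𝕜 _
  choose f hf1 hf2 using hdual
  obtain ⟨a, ha⟩ := exists_toAmb 𝕜 W (V := W) (fun g => f g.2) (fun g z => by
    have := (f g.2).le_of_opNorm_le (hf1 g.2) z
    rwa [one_mul] at this)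
  refine ⟨a, fun x => ?_⟩
  have h2 := aev_le 𝕜 W (0, x) (a x)
  rw [aev_apply, ha, hf2, RCLike.norm_ofReal, abs_of_nonneg (norm_nonneg _)] at h2
  exact h2

/-- `B × B × B` embeds isometrically into `B` for the ambient space `B`. -/
theorem amb_triple :
    ∃ c : Amb 𝕜 W × Amb 𝕜 W × Amb 𝕜 W →L[𝕜] Amb 𝕜 W, ∀ x, ‖x‖ ≤ ‖c x‖ := by
  let f1 : Amb 𝕜 W × Amb 𝕜 W × Amb 𝕜 W →L[𝕜] Amb 𝕜 W := ContinuousLinearMap.fst 𝕜 _ _
  let f2 : Amb 𝕜 W × Amb 𝕜 W × Amb 𝕜 W →L[𝕜] Amb 𝕜 W :=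
    (ContinuousLinearMap.fst 𝕜 _ _).comp (ContinuousLinearMap.snd 𝕜 _ _)
  let f3 : Amb 𝕜 W × Amb 𝕜 W × Amb 𝕜 W →L[𝕜] Amb 𝕜 W :=
    (ContinuousLinearMap.snd 𝕜 _ _).comp (ContinuousLinearMap.snd 𝕜 _ _)
  have hf1 : ∀ x, ‖f1 x‖ ≤ ‖x‖ := fun x => norm_fst_le x
  have hf2 : ∀ x, ‖f2 x‖ ≤ ‖x‖ := fun x => (norm_fst_le x.2).trans (norm_snd_le x)
  have hf3 : ∀ x, ‖f3 x‖ ≤ ‖x‖ := fun x => (norm_snd_le x.2).trans (norm_snd_le x)
  obtain ⟨c, hc⟩ := exists_toAmb 𝕜 W (V := Amb 𝕜 W × Amb 𝕜 W × Amb 𝕜 W)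
    (fun g => if g.1 % 3 = 0 then (aev 𝕜 W (g.1 / 3, g.2)).comp f1 else
      if g.1 % 3 = 1 then (aev 𝕜 W (g.1 / 3, g.2)).comp f2 else
        (aev 𝕜 W (g.1 / 3, g.2)).comp f3)
      (fun g x => by
        split_ifs
        · exact (aev_le 𝕜 W _ _).trans (hf1 x)
        · exact (aev_le 𝕜 W _ _).trans (hf2 x)
        · exact (aev_le 𝕜 W _ _).trans (hf3 x))
  refine ⟨c, fun x => ?_⟩
  have h0 : ‖x.1‖ ≤ ‖c x‖ := by
    refine lp.norm_le_of_forall_le (norm_nonneg _) (fun g => ?_)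
    have h2 := aev_le 𝕜 W (3 * g.1, g.2) (c x)
    have h3 : aev 𝕜 W (3 * g.1, g.2) (c x) = x.1 g := by
      rw [aev_apply, hc]
      simp only
      rw [if_pos (by omega), show 3 * g.1 / 3 = g.1 by omega]
      rfl
    rwa [h3] at h2
  have h1 : ‖x.2.1‖ ≤ ‖c x‖ := by
    refine lp.norm_le_of_forall_le (norm_nonneg _) (fun g => ?_)
    have h2 := aev_le 𝕜 W (3 * g.1 + 1, g.2) (c x)
    have h3 : aev 𝕜 W (3 * g.1 + 1, g.2) (c x) = x.2.1 g := by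
      rw [aev_apply, hc]
      simp only
      rw [if_neg (by omega), if_pos (by omega), show (3 * g.1 + 1) / 3 = g.1 by omega]
      rfl
    rwa [h3] at h2
  have h2 : ‖x.2.2‖ ≤ ‖c x‖ := by
    refine lp.norm_le_of_forall_le (norm_nonneg _) (fun g => ?_)
    have h2 := aev_le 𝕜 W (3 * g.1 + 2, g.2) (c x)
    have h3 : aev 𝕜 W (3 * g.1 + 2, g.2) (c x) = x.2.2 g := by
      rw [aev_apply, hc]
      simp only
      rw [if_neg (by omega), if_neg (by omega), show (3 * g.1 + 2) / 3 = g.1 by omega]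
      rfl
    rwa [h3] at h2
  rw [Prod.norm_def, Prod.norm_def]
  exact max_le h0 (max_le h1 h2)

/-- `G(B)` embeds isometrically into `B` for the ambient space `B`. -/
theorem embedB : ∃ J : GF W (Amb 𝕜 W) →L[𝕜] Amb 𝕜 W, ∀ x, ‖x‖ ≤ ‖J x‖ := by
  obtain ⟨A, hA1, hA2⟩ := exists_avgs 𝕜 (Amb 𝕜 W)
  obtain ⟨a, ha⟩ := amb_pairing 𝕜 W
  obtain ⟨b, hb⟩ := amb_W 𝕜 W
  obtain ⟨c, hc⟩ := amb_triple 𝕜 W
  refine ⟨c.comp (b.prodMap (a.prodMap (a.comp A))), fun x => ?_⟩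
  refine le_trans ?_ (hc _)
  show ‖x‖ ≤ ‖(b x.1, a x.2.1, a (A x.2.2))‖
  rw [Prod.norm_def, Prod.norm_def, Prod.norm_def, Prod.norm_def]
  exact max_le_max (hb _) (max_le_max (ha _) ((hA2 _).trans (ha _)))

end embB

section lift

variable {𝕜 : Type} [RCLike 𝕜] {B : Type u} [NormedAddCommGroup B] [NormedSpace 𝕜 B]

/-- Applying an operator coordinatewise. -/
noncomputable def lpMapL {A : Type*} [NormedAddCommGroup A] [NormedSpace 𝕜 A] (L : A →L[𝕜] B) :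
    lp (fun _ : ℕ => A) ⊤ →L[𝕜] lp (fun _ : ℕ => B) ⊤ :=
  toLinf (fun n => L.comp (evalL 𝕜 A n)) ‖L‖ (fun n v => by
    refine (L.le_opNorm _).trans ?_
    gcongr
    exact norm_coord_le v n)

@[simp] theorem lpMapL_apply {A : Type*} [NormedAddCommGroup A] [NormedSpace 𝕜 A]
    (L : A →L[𝕜] B) (x : lp (fun _ : ℕ => A) ⊤) (n : ℕ) : lpMapL L x n = L (x n) := rfl

theorem norm_lpMapL_subtype (V : Submodule 𝕜 B) (x : lp (fun _ : ℕ => V) ⊤) :
    ‖lpMapL V.subtypeL x‖ = ‖x‖ := by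
  apply le_antisymm
  · refine lp.norm_le_of_forall_le (norm_nonneg _) (fun n => ?_)
    exact norm_coord_le x n
  · refine lp.norm_le_of_forall_le (norm_nonneg _) (fun n => ?_)
    exact norm_coord_le (lpMapL V.subtypeL x) n

theorem norm_compLpL_subtype (V : Submodule 𝕜 B) (f : Lp V ⊤ I01) :
    ‖V.subtypeL.compLpL ⊤ I01 f‖ = ‖f‖ := by
  apply le_antisymm
  · refine norm_le_of_ae _ _ (norm_nonneg _) ?_
    filter_upwards [V.subtypeL.coeFn_compLpL (p := ⊤) f, ae_norm_le f] with t h1 h2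
    rw [h1]
    exact h2
  · refine norm_le_of_ae _ _ (norm_nonneg _) ?_
    filter_upwards [V.subtypeL.coeFn_compLpL (p := ⊤) f,
      ae_norm_le (V.subtypeL.compLpL ⊤ I01 f)] with t h1 h2
    rw [h1] at h2
    exact h2

theorem lift_lp (V : Submodule 𝕜 B) (x : lp (fun _ : ℕ => B) ⊤) (h : ∀ n, x n ∈ V) :
    ∃ x' : lp (fun _ : ℕ => V) ⊤, lpMapL V.subtypeL x' = x := by
  refine ⟨⟨fun n => ⟨x n, h n⟩, memℓp_infty ⟨‖x‖, ?_⟩⟩, ?_⟩
  · rintro _ ⟨n, rfl⟩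
    exact norm_coord_le x n
  · ext n
    rfl

theorem lift_Lp (V : Submodule 𝕜 B) (f : Lp B ⊤ I01)
    (h : ∀ᵐ t ∂I01, f t ∈ V) : ∃ f' : Lp V ⊤ I01, V.subtypeL.compLpL ⊤ I01 f' = f := by
  classical
  let g : ℝ → V := fun t => if h : f t ∈ V then ⟨f t, h⟩ else 0
  have hg : (fun t => ((g t : V) : B)) =ᵐ[I01] f := by
    filter_upwards [h] with t ht
    simp only [g, dif_pos ht]
  have hgm : AEStronglyMeasurable g I01 := by
    have he : Topology.IsEmbedding (fun v : V => (v : B)) := Topology.IsEmbedding.subtypeVal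
    exact he.aestronglyMeasurable_comp_iff.1 ((Lp.aestronglyMeasurable f).congr hg.symm)
  have hgL : MemLp g ⊤ I01 := by
    refine memLp_top_of_bound hgm ‖f‖ ?_
    filter_upwards [ae_norm_le f, hg] with t h1 h2
    have h3 : ‖g t‖ = ‖f t‖ := by
      rw [← h2]; rfl
    rw [h3]; exact h1
  refine ⟨hgL.toLp g, ?_⟩
  apply Lp.ext
  filter_upwards [V.subtypeL.coeFn_compLpL (p := ⊤) (hgL.toLp g), hgL.coeFn_toLp, hg]
    with t h1 h2 h3
  rw [h1, h2, ← h3]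
  rfl

end lift

section lambek

variable {𝕜 : Type} [RCLike 𝕜] {W : Type u} [NormedAddCommGroup W] [NormedSpace 𝕜 W]
  {B : Type u} [NormedAddCommGroup B] [NormedSpace 𝕜 B]

/-- The restriction of `J` to `G(V)`. -/
noncomputable def JV (J : GF W B →L[𝕜] B) (V : Submodule 𝕜 B) : GF W V →L[𝕜] B :=
  J.comp ((ContinuousLinearMap.id 𝕜 W).prodMap
    ((lpMapL V.subtypeL).prodMap (V.subtypeL.compLpL ⊤ I01)))

theorem JV_apply (J : GF W B →L[𝕜] B) (V : Submodule 𝕜 B) (x : GF W V) :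
    JV J V x = J (x.1, lpMapL V.subtypeL x.2.1, V.subtypeL.compLpL ⊤ I01 x.2.2) := rfl

theorem norm_le_JV (J : GF W B →L[𝕜] B) (hJ : ∀ x, ‖x‖ ≤ ‖J x‖) (V : Submodule 𝕜 B)
    (x : GF W V) : ‖x‖ ≤ ‖JV J V x‖ := by
  rw [JV_apply]
  refine le_trans (le_of_eq ?_) (hJ _)
  rw [Prod.norm_def, Prod.norm_def, Prod.norm_def, Prod.norm_def]
  simp only
  rw [norm_lpMapL_subtype, norm_compLpL_subtype]

/-- Lambek's argument: the smallest closed subspace stable under `J` is isomorphic to `G(V)`. -/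
theorem lambek [CompleteSpace B] [CompleteSpace W] (J : GF W B →L[𝕜] B) (hJ : ∀ x, ‖x‖ ≤ ‖J x‖) :
    ∃ V : Submodule 𝕜 B, IsClosed (V : Set B) ∧ Nonempty (GF W V ≃L[𝕜] V) := by
  classical
  let S : Set (Submodule 𝕜 B) := {U | IsClosed (U : Set B) ∧ ∀ x : GF W B,
    (∀ n, x.2.1 n ∈ U) → (∀ᵐ t ∂I01, x.2.2 t ∈ U) → J x ∈ U}
  let V : Submodule 𝕜 B := sInf S
  have hVc : IsClosed (V : Set B) := by
    have : (V : Set B) = ⋂ U ∈ S, (U : Set B) := by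
      simp [V]
    rw [this]
    exact isClosed_biInter fun U hU => hU.1
  have hVle : ∀ U ∈ S, V ≤ U := fun U hU => sInf_le hU
  have hVS : ∀ x : GF W B, (∀ n, x.2.1 n ∈ V) → (∀ᵐ t ∂I01, x.2.2 t ∈ V) → J x ∈ V := by
    intro x h1 h2
    rw [Submodule.mem_sInf]
    intro U hU
    refine hU.2 x (fun n => hVle U hU (h1 n)) ?_
    filter_upwards [h2] with t ht using hVle U hU ht
  have hcs : CompleteSpace V := hVc.completeSpace_coe
  -- the range of `JV`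
  have hmem : ∀ x : GF W V, JV J V x ∈ V := by
    intro x
    rw [JV_apply]
    refine hVS _ (fun n => ?_) ?_
    · show (V.subtypeL (x.2.1 n) : B) ∈ V
      exact (x.2.1 n).2
    · filter_upwards [V.subtypeL.coeFn_compLpL (p := ⊤) x.2.2] with t ht
      show (V.subtypeL.compLpL ⊤ I01 x.2.2) t ∈ V
      rw [ht]
      exact (x.2.2 t).2
  let V' : Submodule 𝕜 B := LinearMap.range (JV J V : GF W V →ₗ[𝕜] B)
  have hV'le : V' ≤ V := by
    rintro _ ⟨x, rfl⟩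
    exact hmem x
  have hanti : AntilipschitzWith 1 (JV J V) :=
    AddMonoidHomClass.antilipschitz_of_bound _ (fun x => by
      simpa using norm_le_JV J hJ V x)
  have hV'c : IsClosed (V' : Set B) := by
    have h1 := hanti.isClosed_range (JV J V).uniformContinuous
    exact h1
  have hV'S : V' ∈ S := by
    refine ⟨hV'c, fun x h1 h2 => ?_⟩
    obtain ⟨x1, hx1⟩ := lift_lp V x.2.1 (fun n => hV'le (h1 n))
    obtain ⟨x2, hx2⟩ := lift_Lp V x.2.2 (by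
      filter_upwards [h2] with t ht using hV'le ht)
    refine ⟨(x.1, x1, x2), ?_⟩
    show JV J V (x.1, x1, x2) = J x
    rw [JV_apply]
    simp only [hx1, hx2]
  have hVV' : V ≤ V' := hVle V' hV'S
  refine ⟨V, hVc, ?_⟩
  let E : GF W V →L[𝕜] V := (JV J V).codRestrict V hmem
  have hinj : E.ker = ⊥ := by
    rw [LinearMap.ker_eq_bot']
    intro x hx
    have h1 : JV J V x = 0 := by
      have := congrArg (fun v : V => (v : B)) hx
      exact this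
    have h2 := norm_le_JV J hJ V x
    rw [h1, norm_zero] at h2
    exact norm_le_zero_iff.1 h2
  have hsurj : E.range = ⊤ := by
    rw [LinearMap.range_eq_top]
    intro v
    obtain ⟨x, hx⟩ := hVV' v.2
    exact ⟨x, Subtype.ext hx⟩
  exact ⟨ContinuousLinearEquiv.ofBijective E hinj hsurj⟩

end lambek

end Pool.Agent.Helper67.LInf
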