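import Mathlib
import Pool.Agent.Helper234.LInf.Core
import Pool.Agent.Helper67.LInf.Suff
import Pool.Agent.Helper67.LInf.VLambek
import Pool.Agent.Helper67.LInf.NFrom
import Pool.Agent.Helper67.LInf.NSigma
import Pool.Agent.Helper67.LInf.NFinal

open MeasureTheory Filter Topology

namespace Pool.Agent.Helper67.LInf

open Pool.Agent.Helper234.LInf

universe u v

variable {𝕜 : Type} [RCLike 𝕜] {W : Type u} [NormedAddCommGroup W] [NormedSpace 𝕜 W]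
  {V : Type u} [NormedAddCommGroup V] [NormedSpace 𝕜 V]

/-- A fixed point of `G` satisfies the isomorphism of the question. -/
theorem iso_of_fix [CompleteSpace V] (e : GF W V ≃L[𝕜] V) : Iso 𝕜 V := by
  let i3 : Lp V ⊤ I01 →L[𝕜] GF W V :=
    (ContinuousLinearMap.inr 𝕜 W (lp (fun _ : ℕ => V) ⊤ × Lp V ⊤ I01)).comp
      (ContinuousLinearMap.inr 𝕜 (lp (fun _ : ℕ => V) ⊤) (Lp V ⊤ I01))
  let p3 : GF W V →L[𝕜] Lp V ⊤ I01 :=
    (ContinuousLinearMap.snd 𝕜 (lp (fun _ : ℕ => V) ⊤) (Lp V ⊤ I01)).comp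
      (ContinuousLinearMap.snd 𝕜 W (lp (fun _ : ℕ => V) ⊤ × Lp V ⊤ I01))
  refine iso_of_compl 𝕜 V
    ((lp.singleContinuousLinearMap 𝕜 (fun _ : ℕ => V) ⊤ 0).comp ((e : GF W V →L[𝕜] V).comp i3))
    (p3.comp ((e.symm : V →L[𝕜] GF W V).comp (evalL 𝕜 V 0))) (fun f => ?_)
  show p3 (e.symm ((lp.single ⊤ 0 (e (i3 f)) : lp (fun _ : ℕ => V) ⊤) 0)) = f
  rw [lp.single_apply_self, e.symm_apply_apply]
  rfl

/-- A fixed point of `G` contains `ℓ^∞`. -/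
theorem linf_of_fix (e : GF W V ≃L[𝕜] V) (v : V) (hv : v ≠ 0) : ContainsLinf 𝕜 V := by
  have hv0 : 0 < ‖v‖ := norm_pos_iff.2 hv
  -- `ℓ^∞ → ℓ^∞(V)`, `a ↦ (a n • v)`
  let A : lp (fun _ : ℕ => 𝕜) ⊤ →L[𝕜] lp (fun _ : ℕ => V) ⊤ :=
    toLinf (fun n => (evalL 𝕜 𝕜 n).smulRight v) ‖v‖ (fun n a => by
      show ‖a n • v‖ ≤ ‖v‖ * ‖a‖
      rw [norm_smul, mul_comm]
      gcongr
      exact norm_coord_le a n)
  let i2 : lp (fun _ : ℕ => V) ⊤ →L[𝕜] GF W V :=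
    (ContinuousLinearMap.inr 𝕜 W (lp (fun _ : ℕ => V) ⊤ × Lp V ⊤ I01)).comp
      (ContinuousLinearMap.inl 𝕜 (lp (fun _ : ℕ => V) ⊤) (Lp V ⊤ I01))
  have hA : ∀ a, ‖v‖ * ‖a‖ ≤ ‖A a‖ := by
    intro a
    rw [mul_comm, ← le_div_iff₀ hv0]
    refine lp.norm_le_of_forall_le (by positivity) (fun n => ?_)
    rw [le_div_iff₀ hv0]
    have h1 := norm_coord_le (A a) n
    have h2 : A a n = a n • v := rfl
    rw [h2, norm_smul] at h1
    exact h1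
  have he : ∀ x : GF W V, ‖x‖ ≤ ‖(e.symm : V →L[𝕜] GF W V)‖ * ‖e x‖ := by
    intro x
    have := (e.symm : V →L[𝕜] GF W V).le_opNorm (e x)
    simpa using this
  have hs : 0 < ‖(e.symm : V →L[𝕜] GF W V)‖ + 1 := by positivity
  refine ⟨(e : GF W V →L[𝕜] V).comp (i2.comp A), ‖v‖ / (‖(e.symm : V →L[𝕜] GF W V)‖ + 1),
    by positivity, fun a => ?_⟩
  show ‖v‖ / (‖(e.symm : V →L[𝕜] GF W V)‖ + 1) * ‖a‖ ≤ ‖e (i2 (A a))‖
  have h1 : ‖A a‖ ≤ ‖i2 (A a)‖ := by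
    show ‖A a‖ ≤ ‖((0 : W), (A a, (0 : Lp V ⊤ I01)))‖
    exact (norm_fst_le ((A a, (0 : Lp V ⊤ I01)) : _ × _)).trans (norm_snd_le
      ((0 : W), (A a, (0 : Lp V ⊤ I01))))
  have h2 := he (i2 (A a))
  rw [div_mul_eq_mul_div, div_le_iff₀ hs]
  calc ‖v‖ * ‖a‖ ≤ ‖A a‖ := hA a
    _ ≤ ‖i2 (A a)‖ := h1
    _ ≤ ‖(e.symm : V →L[𝕜] GF W V)‖ * ‖e (i2 (A a))‖ := h2
    _ ≤ ‖e (i2 (A a))‖ * (‖(e.symm : V →L[𝕜] GF W V)‖ + 1) := by
        nlinarith [norm_nonneg (e (i2 (A a)))]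

/-- `ℓ^∞` contains `c₀`. -/
theorem c0_of_linf (h : ContainsLinf 𝕜 V) : ContainsC0 𝕜 V := by
  obtain ⟨L, c, hc, hL⟩ := h
  let A : c0 𝕜 →L[𝕜] lp (fun _ : ℕ => 𝕜) ⊤ := toLinf (fun n => cev 𝕜 n) 1 (fun n a => by
    rw [one_mul]; exact c0_apply_le a n)
  refine ⟨L.comp A, c, hc, fun y => ?_⟩
  refine le_trans ?_ (hL (A y))
  gcongr
  refine c0_norm_le _ _ (norm_nonneg _) (fun n => ?_)
  exact norm_coord_le (A y) n

/-- If `V` is isomorphic to `G(V)` then `V` has no limit operator. -/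
theorem no_limit_of_fix [CompleteSpace V] (e : GF W V ≃L[𝕜] V) (v : V) (hv : v ≠ 0) :
    ¬ LimitOperator 𝕜 V := by
  rintro ⟨Φ, hΦ⟩
  let _ : NormedSpace ℝ V := NormedSpace.restrictScalars ℝ 𝕜 V
  have _ : IsScalarTower ℝ 𝕜 V := RestrictScalars.isScalarTower _ _ _
  obtain ⟨E, c, hc, hE⟩ := c0_of_linf (linf_of_fix e v hv)
  obtain ⟨es, hes1, hes2⟩ := coord_functionals E c hc hE
  obtain ⟨S, hS⟩ := exists_sigma (𝕜 := 𝕜) (fun j : ℕ => Set.Ico (j : ℝ) (j + 1))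
    (fun j => measurableSet_Ico) (by
      intro j j' hjj'
      rw [Set.disjoint_left]
      rintro t ⟨h1, h2⟩ ⟨h3, h4⟩
      apply hjj'
      have h5 : (j : ℝ) < j' + 1 := lt_of_le_of_lt h1 h4
      have h6 : (j' : ℝ) < j + 1 := lt_of_le_of_lt h3 h2
      have h7 : j < j' + 1 := by exact_mod_cast h5
      have h8 : j' < j + 1 := by exact_mod_cast h6
      omega) (fun _ q => q) (fun _ => strictMono_id)
  -- `a : c₀ → V`
  let i3 : Lp V ⊤ I01 →L[𝕜] GF W V :=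
    (ContinuousLinearMap.inr 𝕜 W (lp (fun _ : ℕ => V) ⊤ × Lp V ⊤ I01)).comp
      (ContinuousLinearMap.inr 𝕜 (lp (fun _ : ℕ => V) ⊤) (Lp V ⊤ I01))
  let p3 : GF W V →L[𝕜] Lp V ⊤ I01 :=
    (ContinuousLinearMap.snd 𝕜 (lp (fun _ : ℕ => V) ⊤) (Lp V ⊤ I01)).comp
      (ContinuousLinearMap.snd 𝕜 W (lp (fun _ : ℕ => V) ⊤ × Lp V ⊤ I01))
  let a : c0 𝕜 →L[𝕜] V := (e : GF W V →L[𝕜] V).comp (i3.comp ((E.compLpL ⊤ I01).comp
    (S.comp (lp.singleContinuousLinearMap 𝕜 (fun _ : ℕ => c0 𝕜) ⊤ 0))))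
  -- functionals `b n : V → 𝕜`
  let b : ℕ → V →L[𝕜] 𝕜 := fun n =>
    (prL (indL 𝕜 (Set.Icc 0 1) measurableSet_Icc)).comp
      ((mulOp 𝕜 (rad n) (measurable_rad n) (abs_rad n)).comp
        (((es n).compLpL ⊤ I01).comp (p3.comp (e.symm : V →L[𝕜] GF W V))))
  have hbn : ∀ v, Tendsto (fun n => b n v) atTop (𝓝 0) := fun v =>
    H1_of es c⁻¹ hes1 (p3 (e.symm v)) _
  have hba : ∀ n, b n (a (dl 𝕜 n)) = 1 := by
    intro n
    have h1 : p3 (e.symm (a (dl 𝕜 n))) = E.compLpL ⊤ I01 (un n (indL 𝕜 (Set.Ico ((0 : ℕ) : ℝ)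
        ((0 : ℕ) + 1)) measurableSet_Ico)) := by
      show p3 (e.symm (e (i3 (E.compLpL ⊤ I01 (S (zu 𝕜 0 n)))))) = _
      rw [e.symm_apply_apply, hS]
      rfl
    show prL _ (mulOp 𝕜 (rad n) (measurable_rad n) (abs_rad n)
      ((es n).compLpL ⊤ I01 (p3 (e.symm (a (dl 𝕜 n)))))) = 1
    rw [h1, H2_of E es hes2, prL_apply]
    have h2 : ∫ t, indL 𝕜 (Set.Icc 0 1) measurableSet_Icc t * indL 𝕜 (Set.Ico ((0 : ℕ) : ℝ)
        ((0 : ℕ) + 1)) measurableSet_Ico t ∂I01 = ∫ _t, (1 : 𝕜) ∂I01 := by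
      refine integral_congr_ae ?_
      filter_upwards [indL_ae (𝕜 := 𝕜) (Set.Icc 0 1) measurableSet_Icc,
        indL_ae (𝕜 := 𝕜) (Set.Ico ((0 : ℕ) : ℝ) ((0 : ℕ) + 1)) measurableSet_Ico,
        I01_ae_mem] with t h3 h4 h5
      rw [h3, h4, Set.indicator_of_mem, Set.indicator_of_mem, mul_one]
      · simpa using h5
      · exact ⟨h5.1, h5.2.le⟩
    rw [h2]
    simp
  -- `Ψ n : ℓ^∞ → 𝕜`
  let tr : ℕ → lp (fun _ : ℕ => 𝕜) ⊤ →L[𝕜] c0 𝕜 := fun N =>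
    ∑ n ∈ Finset.range N, (evalL 𝕜 𝕜 n).smulRight (dl 𝕜 n)
  have htr : ∀ N y m, tr N y m = if m < N then y m else 0 := by
    intro N y m
    have h1 : tr N y = ∑ n ∈ Finset.range N, y n • dl 𝕜 n := by
      simp [tr]
    rw [h1]
    have h2 : (∑ n ∈ Finset.range N, y n • dl 𝕜 n) m =
        ∑ n ∈ Finset.range N, y n * dl 𝕜 n m := by
      have h3 := map_sum (cev 𝕜 m) (fun n => y n • dl 𝕜 n) (Finset.range N)
      exact h3
    rw [h2]
    simp only [dl_apply]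
    rw [Finset.sum_congr rfl (fun n _ => by
      show y n * (if m = n then (1 : 𝕜) else 0) = if m = n then y m else 0
      split_ifs with h <;> simp [h])]
    rw [Finset.sum_ite_eq]
    simp
  have htrn : ∀ N y, ‖tr N y‖ ≤ ‖y‖ := by
    intro N y
    refine c0_norm_le _ _ (norm_nonneg _) (fun m => ?_)
    rw [htr]
    split_ifs
    · exact norm_coord_le y m
    · simp
  let TR : lp (fun _ : ℕ => 𝕜) ⊤ →L[𝕜] lp (fun _ : ℕ => V) ⊤ :=
    toLinf (fun N => a.comp (tr N)) ‖a‖ (fun N y => by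
      refine (a.le_opNorm _).trans ?_
      gcongr
      exact htrn N y)
  have hph := phillips_lemma 𝕜 (fun n => (b n).comp (Φ.comp TR))
    (‖prL (indL 𝕜 (Set.Icc (0 : ℝ) 1) measurableSet_Icc)‖ *
      (1 * (c⁻¹ * ‖p3.comp (e.symm : V →L[𝕜] GF W V)‖)) * ‖Φ.comp TR‖) (fun n => by
      refine (ContinuousLinearMap.opNorm_comp_le _ _).trans ?_
      refine mul_le_mul_of_nonneg_right ?_ (by positivity)
      refine (ContinuousLinearMap.opNorm_comp_le _ _).trans ?_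
      refine mul_le_mul_of_nonneg_left ?_ (by positivity)
      refine (ContinuousLinearMap.opNorm_comp_le _ _).trans ?_
      refine mul_le_mul (mulOp_norm _ _ _ _) ?_ (by positivity) zero_le_one
      refine (ContinuousLinearMap.opNorm_comp_le _ _).trans ?_
      refine mul_le_mul_of_nonneg_right ?_ (by positivity)
      exact (ContinuousLinearMap.norm_compLpL_le _).trans (hes1 n)) (fun y => hbn _)
  have hone : ∀ n, ((b n).comp (Φ.comp TR)) (lp.single ⊤ n (1 : 𝕜)) = 1 := by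
    intro n
    have h1 : Φ (TR (lp.single ⊤ n (1 : 𝕜))) = a (dl 𝕜 n) := by
      apply hΦ
      refine tendsto_const_nhds.congr' ?_
      filter_upwards [eventually_gt_atTop n] with N hN
      show a (dl 𝕜 n) = a (tr N (lp.single ⊤ n (1 : 𝕜)))
      congr 1
      ext m
      rw [htr, dl_apply]
      by_cases hm : m = n
      · subst hm
        rw [if_pos rfl, if_pos hN, lp.single_apply_self]
      · rw [if_neg hm, lp.single_apply_ne _ _ _ hm]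
        simp
    show b n (Φ (TR (lp.single ⊤ n (1 : 𝕜)))) = 1
    rw [h1, hba]
  simp only [hone] at hph
  exact one_ne_zero (tendsto_nhds_unique tendsto_const_nhds hph)

theorem fix_ne_zero (e : GF W V ≃L[𝕜] V) (w : W) (hw : w ≠ 0) : e (w, 0, 0) ≠ 0 := by
  intro h
  have h1 : e (w, 0, 0) = e 0 := by rw [map_zero]; exact h
  have h2 := e.injective h1
  exact hw (congrArg Prod.fst h2)

theorem compl_of_fix (e : GF W V ≃L[𝕜] V) :
    ∃ (i : W →L[𝕜] V) (p : V →L[𝕜] W), ∀ w, p (i w) = w := by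
  refine ⟨(e : GF W V →L[𝕜] V).comp (ContinuousLinearMap.inl 𝕜 W
      (lp (fun _ : ℕ => V) ⊤ × Lp V ⊤ I01)),
    (ContinuousLinearMap.fst 𝕜 W (lp (fun _ : ℕ => V) ⊤ × Lp V ⊤ I01)).comp
      (e.symm : V →L[𝕜] GF W V), fun w => ?_⟩
  show (e.symm (e (w, 0))).1 = w
  rw [e.symm_apply_apply]

/-- Every nonzero Banach space is complemented in a Banach space for which the two spaces of the
question are isomorphic but which has no limit operator. -/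
theorem exists_V_aux (𝕜 : Type) [RCLike 𝕜] (W : Type u) [NormedAddCommGroup W] [NormedSpace 𝕜 W]
    [CompleteSpace W] (w : W) (hw : w ≠ 0) :
    ∃ (V : Type u) (_ : NormedAddCommGroup V) (_ : NormedSpace 𝕜 V) (_ : CompleteSpace V),
      (∃ (i : W →L[𝕜] V) (p : V →L[𝕜] W), ∀ w, p (i w) = w) ∧ Iso 𝕜 V ∧ ¬ LimitOperator 𝕜 V := by
  obtain ⟨J, hJ⟩ := embedB 𝕜 W
  obtain ⟨V, hV, ⟨e⟩⟩ := lambek J hJ
  have hcs : CompleteSpace V := hV.completeSpace_coe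
  exact ⟨V, inferInstance, inferInstance, hcs, compl_of_fix e, iso_of_fix e,
    no_limit_of_fix e _ (fix_ne_zero e w hw)⟩

/-- Every Banach space is complemented in a Banach space for which the two spaces of the question
are isomorphic but which has no limit operator. -/
theorem exists_V (𝕜 : Type) [RCLike 𝕜] (W : Type u) [NormedAddCommGroup W] [NormedSpace 𝕜 W]
    [CompleteSpace W] :
    ∃ (V : Type u) (_ : NormedAddCommGroup V) (_ : NormedSpace 𝕜 V) (_ : CompleteSpace V),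
      (∃ (i : W →L[𝕜] V) (p : V →L[𝕜] W), ∀ w, p (i w) = w) ∧ Iso 𝕜 V ∧ ¬ LimitOperator 𝕜 V := by
  obtain ⟨V, h1, h2, h3, ⟨i, p, hip⟩, h5, h6⟩ := exists_V_aux 𝕜 (W × ULift.{u} 𝕜)
    ((0 : W), (⟨1⟩ : ULift.{u} 𝕜)) (fun h => one_ne_zero (congrArg (fun x => x.2.down) h))
  refine ⟨V, h1, h2, h3, ⟨i.comp (ContinuousLinearMap.inl 𝕜 W (ULift.{u} 𝕜)),
    (ContinuousLinearMap.fst 𝕜 W (ULift.{u} 𝕜)).comp p, fun w => ?_⟩, h5, h6⟩
  show (p (i (w, 0))).1 = w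
  rw [hip]

end Pool.Agent.Helper67.LInf
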