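import Mathlib
import Pool.Agent.Helper67.LInf.Show2
import Pool.Agent.Helper67.LInf.VProps
import Pool.Agent.Helper67.LInf.NFinal
import Pool.Agent.Helper234.LInf.ShowEq

open MeasureTheory Filter Topology

namespace Pool.Agent.Helper67.LInf

open Pool.Agent.Helper234.LInf Pool.Agent.Helper67.LInf.Show

universe u v w

section
variable {𝕜 : Type} [RCLike 𝕜]

theorem ComplIn.trans {A : Type u} {B : Type v} {C : Type w} [NormedAddCommGroup A]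
    [NormedSpace 𝕜 A] [NormedAddCommGroup B] [NormedSpace 𝕜 B] [NormedAddCommGroup C]
    [NormedSpace 𝕜 C] (h1 : ComplIn 𝕜 A B) (h2 : ComplIn 𝕜 B C) : ComplIn 𝕜 A C := by
  obtain ⟨i, p, h⟩ := h1
  obtain ⟨j, q, h'⟩ := h2
  refine ⟨j.comp i, p.comp q, fun a => ?_⟩
  show p (q (j (i a))) = a
  rw [h', h]

theorem complIn_of_equiv {A : Type u} {B : Type v} [NormedAddCommGroup A]
    [NormedSpace 𝕜 A] [NormedAddCommGroup B] [NormedSpace 𝕜 B] (e : A ≃L[𝕜] B) :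
    ComplIn 𝕜 A B :=
  ⟨e, e.symm, fun a => e.symm_apply_apply a⟩

variable {X : Type u} [NormedAddCommGroup X] [NormedSpace 𝕜 X]
  {Y : Type v} [NormedAddCommGroup Y] [NormedSpace 𝕜 Y]

theorem complIn_lp (h : ComplIn 𝕜 X Y) :
    ComplIn 𝕜 (lp (fun _ : ℕ => X) ⊤) (lp (fun _ : ℕ => Y) ⊤) := by
  obtain ⟨i, p, h⟩ := h
  refine ⟨lpMapL i, lpMapL p, fun x => ?_⟩
  ext n
  show p (i (x n)) = x n
  rw [h]

variable (𝕜 Y) in
theorem complIn_lp_lp :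
    ComplIn 𝕜 (lp (fun _ : ℕ => lp (fun _ : ℕ => Y) ⊤) ⊤) (lp (fun _ : ℕ => Y) ⊤) := by
  let a : lp (fun _ : ℕ => lp (fun _ : ℕ => Y) ⊤) ⊤ →L[𝕜] lp (fun _ : ℕ => Y) ⊤ :=
    toLinf (fun m => (evalL 𝕜 Y m.unpair.2).comp (evalL 𝕜 (lp (fun _ : ℕ => Y) ⊤) m.unpair.1)) 1
      (fun m z => by
        rw [one_mul]
        exact (norm_coord_le _ _).trans (norm_coord_le _ _))
  let b0 : ℕ → lp (fun _ : ℕ => Y) ⊤ →L[𝕜] lp (fun _ : ℕ => Y) ⊤ := fun i =>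
    toLinf (fun j => evalL 𝕜 Y (Nat.pair i j)) 1 (fun j z => by
      rw [one_mul]; exact norm_coord_le _ _)
  let b : lp (fun _ : ℕ => Y) ⊤ →L[𝕜] lp (fun _ : ℕ => lp (fun _ : ℕ => Y) ⊤) ⊤ :=
    toLinf b0 1 (fun i z => by
      rw [one_mul]
      exact lp.norm_le_of_forall_le (norm_nonneg _)
        (fun j => show ‖z (Nat.pair i j)‖ ≤ ‖z‖ from norm_coord_le z _))
  refine ⟨a, b, fun x => ?_⟩
  ext i j
  show x (Nat.unpair (Nat.pair i j)).1 (Nat.unpair (Nat.pair i j)).2 = x i j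
  rw [Nat.unpair_pair]

variable (𝕜 Y) in
theorem complIn_bcf : ComplIn 𝕜 (BoundedContinuousFunction ℕ Y) (lp (fun _ : ℕ => Y) ⊤) :=
  complIn_of_equiv (lpBCFₗᵢ Y 𝕜 (α := ℕ)).symm.toContinuousLinearEquiv

variable (𝕜 Y) in
theorem complIn_bcf' : ComplIn 𝕜 (lp (fun _ : ℕ => Y) ⊤) (BoundedContinuousFunction ℕ Y) :=
  complIn_of_equiv (lpBCFₗᵢ Y 𝕜 (α := ℕ)).toContinuousLinearEquiv

theorem containsComplZC_of (h : ContainsComplZC 𝕜 Y) :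
    ComplIn 𝕜 (BoundedContinuousFunction ℕ (ZeroAtInftyContinuousMap ℕ 𝕜)) Y := by
  obtain ⟨i, p, h⟩ := h
  exact ComplIn.trans (complIn_bcf 𝕜 (ZeroAtInftyContinuousMap ℕ 𝕜)) ⟨i, p, h⟩

/-- The negative theorem. -/
theorem neg_c0 [CompleteSpace X] (hX : ContainsC0 𝕜 X)
    (hY : ¬ ComplIn 𝕜 (BoundedContinuousFunction ℕ (ZeroAtInftyContinuousMap ℕ 𝕜)) Y) :
    ¬ ComplIn 𝕜 (Lp X ⊤ I01) (lp (fun _ : ℕ => Y) ⊤) := by
  rintro ⟨T, P, hPT⟩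
  exact hY (containsComplZC_of (thmN 𝕜 X Y hX T P hPT))

theorem neg_iso [CompleteSpace X] (hX : ContainsC0 𝕜 X)
    (hY : ¬ ComplIn 𝕜 (BoundedContinuousFunction ℕ (ZeroAtInftyContinuousMap ℕ 𝕜)) Y)
    (hXY : ComplIn 𝕜 X (BoundedContinuousFunction ℕ Y)) : ¬ Iso 𝕜 X := by
  rintro ⟨e⟩
  refine neg_c0 hX hY ?_
  refine ComplIn.trans (complIn_of_equiv e) ?_
  refine ComplIn.trans (complIn_lp (ComplIn.trans hXY (complIn_bcf 𝕜 Y))) ?_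
  exact complIn_lp_lp 𝕜 Y

variable (𝕜 X) in
theorem complIn_self_linf : ComplIn 𝕜 X (BoundedContinuousFunction ℕ X) := by
  refine ComplIn.trans ?_ (complIn_bcf' 𝕜 X)
  refine ⟨lp.singleContinuousLinearMap 𝕜 (fun _ : ℕ => X) ⊤ 0, evalL 𝕜 X 0, fun x => ?_⟩
  show (lp.single ⊤ 0 x : lp (fun _ : ℕ => X) ⊤) 0 = x
  rw [lp.single_apply_self]

end

end Pool.Agent.Helper67.LInf
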